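import Pool.Agent.Helper24.S5.Tw

/-!
Sharpness of the list of exceptional Hodge numbers (MP_b8862a_ag), primitive exterior powers of the quaternionic type:
alternating tensors, the contraction with the symplectic form.
-/

set_option linter.unusedSectionVars false

open Matrix

namespace S524

variable {F : Type*} [Field F] [CharZero F] {κ : Type*} [Fintype κ] [DecidableEq κ] {k : ℕ}

/-- alternating tensors -/
def Al (v : (Fin k → κ) → F) : Prop := ∀ (σ : Equiv.Perm (Fin k)) x, v (x ∘ σ) = ((Equiv.Perm.sign σ : ℤ) : F) * v x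

theorem Al.swap {v : (Fin k → κ) → F} (h : Al v) {i j : Fin k} (hij : i ≠ j) (x : Fin k → κ) :
    v (x ∘ Equiv.swap i j) = -v x := by
  rw [h, Equiv.Perm.sign_swap hij]
  simp

theorem Al.zero {v : (Fin k → κ) → F} (h : Al v) {i j : Fin k} (hij : i ≠ j) {x : Fin k → κ} (hx : x i = x j) :
    v x = 0 := by
  have h1 := h.swap hij x
  have h2 : x ∘ Equiv.swap i j = x := by
    funext l
    rw [Function.comp_apply]
    by_cases h4 : l = i
    · rw [h4, Equiv.swap_apply_left, hx]
    · by_cases h5 : l = j
      · rw [h5, Equiv.swap_apply_right, hx]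
      · rw [Equiv.swap_apply_of_ne_of_ne h4 h5]
  rw [h2] at h1
  have h3 : (2 : F) * v x = 0 := by linear_combination h1
  exact (mul_eq_zero.1 h3).resolve_left two_ne_zero

theorem Al.inj {v : (Fin k → κ) → F} (h : Al v) {x : Fin k → κ} (hx : v x ≠ 0) : Function.Injective x := by
  intro i j hij
  by_contra hne
  exact hx (h.zero hne hij)

theorem Al.add {v u : (Fin k → κ) → F} (h : Al v) (h' : Al u) : Al (v + u) := by
  intro σ x
  rw [Pi.add_apply, Pi.add_apply, h, h', mul_add]

theorem Al.smul {v : (Fin k → κ) → F} (h : Al v) (c : F) : Al (c • v) := by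
  intro σ x
  rw [Pi.smul_apply, Pi.smul_apply, h, smul_eq_mul, smul_eq_mul]
  ring

theorem Al.sub {v u : (Fin k → κ) → F} (h : Al v) (h' : Al u) : Al (v - u) := by
  intro σ x
  rw [Pi.sub_apply, Pi.sub_apply, h, h', mul_sub]

theorem al_zero : Al (0 : (Fin k → κ) → F) := by
  intro σ x
  simp

theorem al_sum {ι : Type*} (s : Finset ι) (f : ι → (Fin k → κ) → F) (h : ∀ i ∈ s, Al (f i)) : Al (∑ i ∈ s, f i) := by
  classical
  induction s using Finset.induction_on with
  | empty => simpa using al_zero
  | insert a s ha ih =>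
    rw [Finset.sum_insert ha]
    exact (h a (Finset.mem_insert_self a s)).add (ih fun i hi => h i (Finset.mem_insert_of_mem hi))

theorem update_comp_perm (σ : Equiv.Perm (Fin k)) (x : Fin k → κ) (i : Fin k) (q : κ) :
    Function.update (x ∘ σ) i q = Function.update x (σ i) q ∘ σ := by
  funext j
  rw [Function.comp_apply]
  by_cases h : j = i
  · subst h
    rw [Function.update_self, Function.update_self]
  · rw [Function.update_of_ne h, Function.update_of_ne (fun h' => h (σ.injective h')), Function.comp_apply]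

/-- the Lie algebra preserves the alternating tensors -/
theorem Al.Dk {v : (Fin k → κ) → F} (h : Al v) (A : Matrix κ κ F) :
    Al ((Dk A : Matrix (Fin k → κ) (Fin k → κ) F) *ᵥ v) := by
  intro σ x
  rw [Dk_mulVec, Dk_mulVec, Finset.mul_sum]
  conv_rhs => rw [← Equiv.sum_comp σ]
  refine Finset.sum_congr rfl fun i _ => ?_
  rw [Finset.mul_sum]
  refine Finset.sum_congr rfl fun q _ => ?_
  rw [update_comp_perm, h, Function.comp_apply]
  ring

/-- antisymmetrisation -/
def As (f : (Fin k → κ) → F) : (Fin k → κ) → F := fun x => ∑ σ : Equiv.Perm (Fin k), ((Equiv.Perm.sign σ : ℤ) : F) * f (x ∘ σ)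

theorem al_As (f : (Fin k → κ) → F) : Al (As f) := by
  intro τ x
  rw [As, As, Finset.mul_sum, ← Equiv.sum_comp (Equiv.mulLeft τ⁻¹)]
  refine Finset.sum_congr rfl fun σ _ => ?_
  rw [Equiv.coe_mulLeft, Equiv.Perm.sign_mul, Equiv.Perm.sign_inv]
  have h1 : (x ∘ τ) ∘ (τ⁻¹ * σ : Equiv.Perm (Fin k)) = x ∘ σ := by
    funext i
    simp
  rw [h1]
  push_cast
  ring

/-! ### annihilation and creation -/

/-- annihilation -/
def an (b : κ) (v : (Fin (k + 1) → κ) → F) : (Fin k → κ) → F := fun z => v (Fin.cons b z)

/-- creation -/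
def cr (b : κ) (v : (Fin k → κ) → F) : (Fin (k + 1) → κ) → F := fun x =>
  (if x 0 = b then v (Fin.tail x) else 0) -
    ∑ j : Fin k, if x j.succ = b then v (Function.update (Fin.tail x) j (x 0)) else 0

theorem an_add (b : κ) (v u : (Fin (k + 1) → κ) → F) : an b (v + u) = an b v + an b u := rfl

theorem an_smul (b : κ) (c : F) (v : (Fin (k + 1) → κ) → F) : an b (c • v) = c • an b v := rfl

theorem cr_add (b : κ) (v u : (Fin k → κ) → F) : cr b (v + u) = cr b v + cr b u := by
  funext x
  simp only [cr, Pi.add_apply]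
  rw [show (∑ j : Fin k, if x j.succ = b then v (Function.update (Fin.tail x) j (x 0)) +
      u (Function.update (Fin.tail x) j (x 0)) else 0) =
      (∑ j : Fin k, if x j.succ = b then v (Function.update (Fin.tail x) j (x 0)) else 0) +
      ∑ j : Fin k, if x j.succ = b then u (Function.update (Fin.tail x) j (x 0)) else 0 by
    rw [← Finset.sum_add_distrib]
    refine Finset.sum_congr rfl fun j _ => ?_
    split_ifs <;> simp]
  split_ifs <;> ring

theorem cr_smul (b : κ) (c : F) (v : (Fin k → κ) → F) : cr b (c • v) = c • cr b v := by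
  funext x
  simp only [cr, Pi.smul_apply, smul_eq_mul, mul_sub, Finset.mul_sum, mul_ite, mul_zero]

/-- annihilation as a linear map -/
def anL (b : κ) : ((Fin (k + 1) → κ) → F) →ₗ[F] ((Fin k → κ) → F) where
  toFun := an b
  map_add' := an_add b
  map_smul' := an_smul b

/-- creation as a linear map -/
def crL (b : κ) : ((Fin k → κ) → F) →ₗ[F] ((Fin (k + 1) → κ) → F) where
  toFun := cr b
  map_add' := cr_add b
  map_smul' := cr_smul b

theorem cons_comp_swap (x : Fin (k + 1) → κ) (j : Fin k) :
    x ∘ Equiv.swap 0 j.succ = Fin.cons (x j.succ) (Function.update (Fin.tail x) j (x 0)) := by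
  funext l
  refine Fin.cases ?_ (fun l => ?_) l
  · rw [Function.comp_apply, Equiv.swap_apply_left, Fin.cons_zero]
  · rw [Function.comp_apply, Fin.cons_succ]
    by_cases h : l = j
    · subst h
      rw [Equiv.swap_apply_right, Function.update_self]
    · rw [Function.update_of_ne h, Equiv.swap_apply_of_ne_of_ne (Fin.succ_ne_zero l)
        (fun h' => h (Fin.succ_injective _ h'))]
      rfl

theorem Al.an {v : (Fin (k + 1) → κ) → F} (h : Al v) (b : κ) : Al (an b v) := by
  intro σ z
  have h1 : (Fin.cons b (z ∘ σ) : Fin (k + 1) → κ) = (Fin.cons b z : Fin (k + 1) → κ) ∘ Equiv.Perm.decomposeFin.symm (0, σ) := by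
    funext l
    refine Fin.cases ?_ (fun l => ?_) l
    · simp
    · simp
  rw [S524.an, h1, h, Equiv.Perm.decomposeFin.symm_sign, if_pos rfl, one_mul]
  rfl

theorem cr_As {v : (Fin k → κ) → F} (h : Al v) (b : κ) :
    As (fun y : Fin (k + 1) → κ => if y 0 = b then v (Fin.tail y) else 0) = (k.factorial : F) • cr b v := by
  funext x
  rw [As, ← Equiv.sum_comp Equiv.Perm.decomposeFin.symm, Fintype.sum_prod_type, Pi.smul_apply, smul_eq_mul]
  have h1 : ∀ (p : Fin (k + 1)) (e : Equiv.Perm (Fin k)),
      ((Equiv.Perm.sign (Equiv.Perm.decomposeFin.symm (p, e)) : ℤ) : F) *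
        (if (x ∘ Equiv.Perm.decomposeFin.symm (p, e)) 0 = b then v (Fin.tail (x ∘ Equiv.Perm.decomposeFin.symm (p, e)))
          else 0) = (if p = 0 then 1 else -1) * (if x p = b then v (Fin.tail (x ∘ Equiv.swap 0 p)) else 0) := by
    intro p e
    have e1 : Fin.tail (x ∘ Equiv.Perm.decomposeFin.symm (p, e)) = Fin.tail (x ∘ Equiv.swap 0 p) ∘ e := by
      funext l
      simp [Fin.tail, Equiv.Perm.decomposeFin_symm_apply_succ]
    have e2 : (x ∘ Equiv.Perm.decomposeFin.symm (p, e)) 0 = x p := by
      simp
    rw [e1, e2, h, Equiv.Perm.decomposeFin.symm_sign]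
    have e3 : ((Equiv.Perm.sign e : ℤ) : F) * ((Equiv.Perm.sign e : ℤ) : F) = 1 := by
      rcases Int.units_eq_one_or (Equiv.Perm.sign e) with h2 | h2 <;> rw [h2] <;> simp
    by_cases hp : p = 0
    · rw [if_pos hp, if_pos hp]
      split_ifs
      · push_cast
        linear_combination v (Fin.tail (x ∘ ⇑(Equiv.swap 0 p))) * e3
      · simp
    · rw [if_neg hp, if_neg hp]
      split_ifs
      · push_cast
        linear_combination -v (Fin.tail (x ∘ ⇑(Equiv.swap 0 p))) * e3
      · simp
  simp only [h1, Finset.sum_const, Finset.card_univ, Fintype.card_perm, Fintype.card_fin, nsmul_eq_mul]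
  have e4 : (∑ j : Fin k, (if j.succ = (0 : Fin (k + 1)) then (1 : F) else -1) *
      (if x j.succ = b then v (Fin.tail (x ∘ Equiv.swap 0 j.succ)) else 0)) =
      -∑ j : Fin k, if x j.succ = b then v (Function.update (Fin.tail x) j (x 0)) else 0 := by
    rw [← Finset.sum_neg_distrib]
    refine Finset.sum_congr rfl fun j _ => ?_
    rw [if_neg (Fin.succ_ne_zero j), cons_comp_swap, Fin.tail_cons]
    split_ifs <;> simp
  rw [← Finset.mul_sum, Fin.sum_univ_succ, if_pos rfl, one_mul, cr, e4, Equiv.swap_self, sub_eq_add_neg]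
  rfl

theorem Al.cr {v : (Fin k → κ) → F} (h : Al v) (b : κ) : Al (cr b v) := by
  have h1 : S524.cr b v = ((k.factorial : F)⁻¹) • As (fun y : Fin (k + 1) → κ => if y 0 = b then v (Fin.tail y) else 0) := by
    rw [cr_As h, smul_smul, inv_mul_cancel₀ (by exact_mod_cast k.factorial_ne_zero), one_smul]
  rw [h1]
  exact (al_As _).smul _

/-- the canonical anticommutation relation -/
theorem car {v : (Fin (k + 1) → κ) → F} (h : Al v) (b c : κ) :
    an c (cr b v) = (if c = b then v else 0) - cr b (an c v) := by
  funext z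
  rw [Pi.sub_apply, S524.an, S524.cr, S524.cr, Fin.cons_zero, Fin.tail_cons]
  have h1 : (∑ j : Fin (k + 1), if (Fin.cons c z : Fin (k + 2) → κ) j.succ = b then v (Function.update z j c) else 0) =
      (if z 0 = b then v (Fin.cons c (Fin.tail z)) else 0) -
        ∑ j : Fin k, if z j.succ = b then v (Fin.cons c (Function.update (Fin.tail z) j (z 0))) else 0 := by
    rw [Fin.sum_univ_succ, sub_eq_add_neg, ← Finset.sum_neg_distrib]
    congr 1
    · rw [Fin.cons_succ]
      have e1 : Function.update z 0 c = Fin.cons c (Fin.tail z) := by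
        conv_lhs => rw [← Fin.cons_self_tail z]
        rw [Fin.update_cons_zero]
      rw [e1]
    · refine Finset.sum_congr rfl fun j _ => ?_
      rw [Fin.cons_succ]
      have e2 : (Fin.cons c (Function.update (Fin.tail z) j (z 0)) : Fin (k + 1) → κ) =
          Function.update z j.succ c ∘ Equiv.swap 0 j.succ := by
        rw [cons_comp_swap]
        congr 1
        · rw [Function.update_self]
        · rw [Function.update_of_ne (Fin.succ_ne_zero j).symm]
          funext l
          by_cases hl : l = j
          · subst hl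
            rw [Function.update_self, Function.update_self]
          · rw [Function.update_of_ne hl, Function.update_of_ne hl]
            simp only [Fin.tail]
            rw [Function.update_of_ne (fun h' => hl (Fin.succ_injective _ h'))]
      rw [e2, h.swap (Fin.succ_ne_zero j).symm]
      split_ifs <;> simp
  rw [h1]
  simp only [S524.an]
  by_cases hcb : c = b
  · rw [if_pos hcb, if_pos hcb]
  · rw [if_neg hcb, if_neg hcb, Pi.zero_apply]

/-- the number operator -/
theorem num {v : (Fin (k + 1) → κ) → F} (h : Al v) : ∑ b, cr b (an b v) = ((k : F) + 1) • v := by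
  funext z
  rw [Finset.sum_apply, Pi.smul_apply, smul_eq_mul]
  simp only [S524.cr, S524.an, Finset.sum_sub_distrib]
  rw [Finset.sum_comm]
  simp only [Finset.sum_ite_eq, Finset.mem_univ, if_true]
  rw [Fin.cons_self_tail]
  have h1 : ∀ j : Fin k, v (Fin.cons (z j.succ) (Function.update (Fin.tail z) j (z 0))) = -v z := by
    intro j
    rw [← cons_comp_swap, h.swap (Fin.succ_ne_zero j).symm]
  simp only [h1, Finset.sum_const, Finset.card_univ, Fintype.card_fin, nsmul_eq_mul]
  ring

/-- the adjoint of the creation -/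
theorem adj (v : (Fin k → κ) → F) {u : (Fin (k + 1) → κ) → F} (h : Al u) (b : κ) :
    cr b v ⬝ᵥ u = ((k : F) + 1) * (v ⬝ᵥ an b u) := by
  have h0 : (∑ x : Fin (k + 1) → κ, (if x 0 = b then v (Fin.tail x) else 0) * u x) = v ⬝ᵥ an b u := by
    rw [← Equiv.sum_comp (Fin.consEquiv fun _ : Fin (k + 1) => κ), Fintype.sum_prod_type, Finset.sum_comm, dotProduct]
    refine Finset.sum_congr rfl fun z _ => ?_
    rw [Finset.sum_eq_single b]
    · simp [Fin.consEquiv, S524.an]
    · intro c _ hc
      simp [Fin.consEquiv, hc]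
    · intro hb
      exact absurd (Finset.mem_univ b) hb
  rw [← h0]
  simp only [dotProduct, S524.cr, sub_mul, Finset.sum_sub_distrib]
  have h1 : (∑ x : Fin (k + 1) → κ, (∑ j : Fin k, if x j.succ = b then v (Function.update (Fin.tail x) j (x 0)) else 0) * u x) =
      -((k : F) * ∑ x : Fin (k + 1) → κ, (if x 0 = b then v (Fin.tail x) else 0) * u x) := by
    simp only [Finset.sum_mul]
    rw [Finset.sum_comm]
    have h2 : ∀ j : Fin k, (∑ x : Fin (k + 1) → κ, (if x j.succ = b then v (Function.update (Fin.tail x) j (x 0)) else 0) * u x) =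
        -∑ x : Fin (k + 1) → κ, (if x 0 = b then v (Fin.tail x) else 0) * u x := by
      intro j
      rw [← Equiv.sum_comp (Equiv.arrowCongr (Equiv.swap (0 : Fin (k + 1)) j.succ) (Equiv.refl κ)), ← Finset.sum_neg_distrib]
      refine Finset.sum_congr rfl fun x _ => ?_
      have e1 : (Equiv.arrowCongr (Equiv.swap (0 : Fin (k + 1)) j.succ) (Equiv.refl κ)) x = x ∘ Equiv.swap 0 j.succ := by
        funext l
        simp [Equiv.arrowCongr]
      rw [e1, h.swap (Fin.succ_ne_zero j).symm, cons_comp_swap, Fin.cons_succ, Fin.tail_cons, Fin.cons_zero,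
        Function.update_self, Function.update_idem]
      have e2 : Function.update (Fin.tail x) j (x j.succ) = Fin.tail x := by
        funext l
        by_cases hl : l = j
        · subst hl
          rw [Function.update_self]
          rfl
        · rw [Function.update_of_ne hl]
      rw [e2]
      ring
    rw [Finset.sum_congr rfl fun j _ => h2 j, Finset.sum_const, Finset.card_univ, Fintype.card_fin, nsmul_eq_mul]
    ring
  rw [h1]
  ring

end S524
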