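import Pool.Agent.Helper24.S5.Pi
import Pool.Agent.Helper94.QS.Tw

/-!
Sharpness of the list of exceptional Hodge numbers (MP_b8862a_ag), primitive exterior powers of the quaternionic type:
the base point.
-/

set_option linter.unusedSectionVars false

open Matrix Module MH MH.QS94

namespace S524

section tw

variable {n : Type*} [Fintype n] [DecidableEq n] {T e : Matrix n n ℚ}

theorem Lt_comm {X : Matrix n n ℂ} (h : X * toC T = toC T * X) : X * Lt T = Lt T * X := by
  rw [Lt, mul_add, add_mul, mul_smul_comm, mul_smul_comm, smul_mul_assoc, smul_mul_assoc, mul_one, one_mul, h]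

theorem Li_comm {X : Matrix n n ℂ} (h : X * toC T = toC T * X) : X * Li T = Li T * X := by
  rw [Li, mul_add, add_mul, mul_smul_comm, mul_smul_comm, smul_mul_assoc, smul_mul_assoc, mul_one, one_mul, h]

theorem tw_mul_e (h : toC e * toC T = toC T * toC e) (X : Matrix n n ℂ) : tw T (X * toC e) = tw T X * toC e := by
  rw [tw, tw, Matrix.mul_assoc (Li T * X), ← Lt_comm h]
  simp only [Matrix.mul_assoc]

theorem e_mul_tw (h : toC e * toC T = toC T * toC e) (X : Matrix n n ℂ) : tw T (toC e * X) = toC e * tw T X := by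
  rw [tw, tw, ← Matrix.mul_assoc, ← Li_comm h]
  simp only [Matrix.mul_assoc]

theorem ut_mul_e (h : toC e * toC T = toC T * toC e) (X : Matrix n n ℂ) : ut T (X * toC e) = ut T X * toC e := by
  rw [ut, ut, Matrix.mul_assoc (Lt T * X), ← Li_comm h]
  simp only [Matrix.mul_assoc]

theorem e_mul_ut (h : toC e * toC T = toC T * toC e) (X : Matrix n n ℂ) : ut T (toC e * X) = toC e * ut T X := by
  rw [ut, ut, ← Matrix.mul_assoc, ← Lt_comm h]
  simp only [Matrix.mul_assoc]

end tw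

variable {ι : Type*} [Fintype ι] [DecidableEq ι] {k : ℕ}

/-- the signs -/
def eo (o : ι) (a : ι) : ℤ := if a = o then -1 else 1

theorem eo_sq (o : ι) : ∀ a, eo o a * eo o a = 1 := by
  intro a
  by_cases h : a = o <;> simp [eo, h]

variable (k) in
/-- the projection to a level -/
def El (F : Type*) [Field F] (o : ι) (l : ℤ) : Matrix (Fin k → ι × Bool) (Fin k → ι × Bool) F :=
  diagonal fun x => if lev (h0 o) x = l then 1 else 0

section

variable {F : Type*} [Field F] [CharZero F]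

theorem El_mul (o : ι) (a b : ℤ) : El k F o a * El k F o b = if a = b then El k F o a else 0 := by
  rw [El, El, diagonal_mul_diagonal]
  by_cases h : a = b
  · rw [if_pos h, h]
    congr 1
    funext x
    split_ifs <;> simp
  · rw [if_neg h]
    ext x y
    rw [diagonal_apply]
    split_ifs with h1 h2 h3
    · exact absurd (h2.symm.trans h3) h
    all_goals simp

theorem El_transpose (o : ι) (a : ℤ) : (El k F o a)ᵀ = El k F o a := by rw [El, diagonal_transpose]

theorem El_map {F' : Type*} [Field F'] [CharZero F'] (f : F →+* F') (o : ι) (a : ℤ) :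
    (El k F o a).map f = El k F' o a := by
  rw [El, El, Matrix.diagonal_map (map_zero f)]
  congr 1
  funext x
  split_ifs <;> simp

theorem Tg_El {g : Matrix (ι × Bool) (ι × Bool) F} (hg : ∀ s t, g s t ≠ 0 → t = bar s) (o : ι) (a : ℤ) :
    (Tg g : Matrix (Fin k → ι × Bool) (Fin k → ι × Bool) F) * El k F o a = El k F o (-a) * Tg g := by
  ext x y
  rw [El, mul_diagonal, El, diagonal_mul]
  by_cases h : (Tg g : Matrix (Fin k → ι × Bool) (Fin k → ι × Bool) F) x y = 0
  · rw [h, zero_mul, mul_zero]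
  · have h1 : ∀ i, y i = bar (x i) := by
      intro i
      apply hg
      intro h2
      exact h (Finset.prod_eq_zero (Finset.mem_univ i) h2)
    have h2 : lev (h0 o) y = -lev (h0 o) x := by
      rw [lev, lev, ← Finset.sum_neg_distrib]
      refine Finset.sum_congr rfl fun i _ => ?_
      rw [h1, h0_bar]
    rw [h2]
    have h3 : (-lev (h0 o) x = a) ↔ (lev (h0 o) x = -a) := ⟨fun h => by rw [← h, neg_neg], fun h => by rw [h, neg_neg]⟩
    simp only [h3]
    ring

theorem pm_supp {s t : ι × Bool} (h : pm F s t ≠ 0) : t = bar s := by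
  rw [pm] at h
  by_cases h1 : s = bar t
  · rw [h1, bar_bar]
  · rw [if_neg h1] at h
    exact absurd rfl h

theorem Om_supp {ε : ι → ℤ} {s t : ι × Bool} (h : Om F ε s t ≠ 0) : t = bar s := by
  rw [Om] at h
  by_contra h1
  rw [if_neg h1] at h
  exact h rfl

theorem lev_inj (o : ι) {x : Fin k → ι × Bool} (hx : Function.Injective x) :
    lev (h0 o) x = (if (o, false) ∈ Finset.univ.image x then 1 else 0) - (if (o, true) ∈ Finset.univ.image x then 1 else 0) := by
  rw [← h0_sum, Finset.sum_image fun i _ j _ hij => hx hij]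
  rfl

theorem lev_cases (o : ι) {x : Fin k → ι × Bool} (hx : Function.Injective x) :
    lev (h0 o) x = -1 ∨ lev (h0 o) x = 0 ∨ lev (h0 o) x = 1 := by
  rw [lev_inj o hx]
  split_ifs <;> simp

theorem prod_eo (o : ι) {x : Fin k → ι × Bool} (hx : Function.Injective x) :
    ∏ i, eo o (x i).1 = 1 - 2 * lev (h0 o) x ^ 2 := by
  have h1 : ∀ p : ι × Bool, eo o p.1 = (if p = (o, false) then -1 else 1) * (if p = (o, true) then -1 else 1) := by
    rintro ⟨a, b⟩
    by_cases h : a = o <;> cases b <;> simp [eo, h]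
  have h2 : ∏ i, eo o (x i).1 = ∏ p ∈ Finset.univ.image x, eo o p.1 := by
    rw [Finset.prod_image fun i _ j _ hij => hx hij]
  rw [h2, Finset.prod_congr rfl fun p _ => h1 p, Finset.prod_mul_distrib, Finset.prod_ite_eq', Finset.prod_ite_eq',
    lev_inj o hx]
  split_ifs <;> simp

end

section

variable {m : ℕ} {B : Matrix (Fin m) (Fin (k + 2) → ι × Bool) ℚ} {C : Matrix (Fin (k + 2) → ι × Bool) (Fin m) ℚ}

section

variable {ε : ι → ℤ} (J : Pj ε B C)

include J

theorem Pj.inj {x y : Fin (k + 2) → ι × Bool} (h : toC (C * B) x y ≠ 0) : Function.Injective x := by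
  obtain ⟨u, hu⟩ : ∃ u, u = rcc (C * B) *ᵥ Pi.single y 1 := ⟨_, rfl⟩
  have h3 : rcc (C * B) *ᵥ u = u := by rw [hu, Matrix.mulVec_mulVec, J.ee]
  have h4 := ((J.memC u).2 h3).1
  have h5 : u x = toC (C * B) x y := by
    rw [hu, Matrix.mulVec_single_one]
    rfl
  rw [← h5] at h
  exact h4.inj h

theorem Pj.comm_El (o : ι) (a : ℤ) : toC (C * B) * El (k + 2) ℂ o a = El (k + 2) ℂ o a * toC (C * B) := by
  have h1 : ∀ v : (Fin (k + 2) → ι × Bool) → ℂ, Al v → ct ε v = 0 → Al (El (k + 2) ℂ o a *ᵥ v) ∧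
      ct ε (El (k + 2) ℂ o a *ᵥ v) = 0 := by
    intro v hv hc
    have h2 : El (k + 2) ℂ o a *ᵥ v = fun x => if lev (h0 o) x = a then v x else 0 := by
      funext x
      rw [El, mulVec_diagonal]
      split_ifs <;> simp
    rw [h2]
    constructor
    · intro σ x
      change (if lev (h0 o) (x ∘ σ) = a then v (x ∘ σ) else 0) = _ * (if lev (h0 o) x = a then v x else 0)
      rw [lev_perm, hv]
      split_ifs <;> simp
    · funext z
      have h3 := congrFun hc z
      rw [ct] at h3 ⊢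
      simp only [lev_cons, h0_bar]
      have h4 : ∀ p, h0 o p + (-h0 o p + lev (h0 o) z) = lev (h0 o) z := fun p => by ring
      simp only [h4]
      by_cases h5 : lev (h0 o) z = a
      · simp only [h5, if_true]
        exact h3
      · simp only [h5, if_false, mul_zero, Finset.sum_const_zero]
        rfl
  exact J.comm h1 (by rw [El_transpose]; exact h1)

end

variable (k) in
/-- the involution -/
def TT (ι : Type*) [Fintype ι] [DecidableEq ι] : Matrix (Fin k → ι × Bool) (Fin k → ι × Bool) ℚ := Tg (pm ℚ)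

variable (k) in
/-- the polarisation -/
def QQ (o : ι) : Matrix (Fin k → ι × Bool) (Fin k → ι × Bool) ℚ := Tg (De ℚ (eo o))

theorem toC_TT : toC (TT k ι) = Tg (pm ℂ) := by
  have h1 : (pm ℚ : Matrix (ι × Bool) (ι × Bool) ℚ).map (algebraMap ℚ ℂ) = pm ℂ := by
    ext s t
    rw [Matrix.map_apply, pm, pm]
    split_ifs <;> simp
  rw [toC, TT, Tg_map, h1]

theorem toC_QQ (o : ι) : toC (QQ k o) = Tg (De ℂ (eo o)) := by
  have h1 : (De ℚ (eo o)).map (algebraMap ℚ ℂ) = De ℂ (eo o) := by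
    ext s t
    rw [Matrix.map_apply, De, De, Matrix.diagonal_apply, Matrix.diagonal_apply]
    split_ifs <;> simp
  rw [toC, QQ, Tg_map, h1]

theorem QQ_symm (o : ι) : (QQ k o)ᵀ = QQ k o := by rw [QQ, Tg_transpose, De_transpose]

theorem QQ_det (o : ι) : IsUnit (QQ k o).det := by
  rw [← Matrix.isUnit_iff_isUnit_det]
  refine IsUnit.of_mul_eq_one (QQ k o) ?_
  rw [QQ, Tg_mul, De_sq (eo_sq o), Tg_one]

theorem TT_sq (hk : Even k) : TT k ι * TT k ι = 1 := Tg_pm_sq hk

theorem TT_symm (hk : Even k) : (TT k ι)ᵀ = TT k ι := Tg_pm_transpose hk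

theorem TT_Om (ε : ι → ℤ) : toC (TT k ι) * Tg (Om ℂ ε) = Tg (De ℂ ε) := by rw [toC_TT, Tg_mul, pm_Om]

theorem Om_TT (ε : ι → ℤ) : Tg (Om ℂ ε) * toC (TT k ι) = Tg (De ℂ ε) := by rw [toC_TT, Tg_mul, Om_pm]

theorem Lt_Om_Lt (hk : Even k) (o : ι) : Lt (TT k ι) * Tg (Om ℂ (eo o)) * Lt (TT k ι) = toC (QQ k o) := by
  rw [← Lt_comm (by rw [Om_TT, TT_Om]), Matrix.mul_assoc, Lt_sq (TT_sq hk), Om_TT, toC_QQ]

/-- the matrices of the Lie algebra are skew -/
theorem skew_tw (hk : Even k) (o : ι) {A : Matrix (ι × Bool) (ι × Bool) ℂ} (hA : Sp (eo o) A) :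
    (tw (TT k ι) (Dk A))ᵀ * toC (QQ k o) = -(toC (QQ k o) * tw (TT k ι) (Dk A)) := by
  have h1 : (Dk A : Matrix (Fin k → ι × Bool) (Fin k → ι × Bool) ℂ)ᵀ * Tg (Om ℂ (eo o)) = -(Tg (Om ℂ (eo o)) * Dk A) := by
    have h2 := Tg_Dk (k := k) (g := Om ℂ (eo o)) (gi := -Om ℂ (eo o)) (by rw [neg_mul, Om_sq (eo_sq o), neg_neg]) A
    have h3 : Om ℂ (eo o) * A * -Om ℂ (eo o) = -Aᵀ := by
      have h4 := hA.om (eo_sq o)
      have h5 : Om ℂ (eo o) * A = -(Aᵀ * Om ℂ (eo o)) := by rw [h4, neg_neg]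
      rw [h5, neg_mul_neg, Matrix.mul_assoc, Om_sq (eo_sq o), mul_neg, mul_one]
    rw [h2, h3, Dk_neg, neg_mul, neg_neg, Dk_transpose]
  have hT := TT_sq (ι := ι) hk
  rw [← Lt_Om_Lt hk, tw, Matrix.transpose_mul, Matrix.transpose_mul, Lt_transpose (TT_symm hk), Li_transpose (TT_symm hk)]
  calc Lt (TT k ι) * ((Dk A)ᵀ * Li (TT k ι)) * (Lt (TT k ι) * Tg (Om ℂ (eo o)) * Lt (TT k ι)) =
        Lt (TT k ι) * ((Dk A)ᵀ * (Li (TT k ι) * Lt (TT k ι)) * Tg (Om ℂ (eo o))) * Lt (TT k ι) := by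
        simp only [Matrix.mul_assoc]
    _ = -(Lt (TT k ι) * Tg (Om ℂ (eo o)) * (Lt (TT k ι) * Li (TT k ι)) * Dk A * Lt (TT k ι)) := by
        rw [Li_mul_Lt hT, Lt_mul_Li hT, mul_one, mul_one, h1]
        simp only [Matrix.mul_assoc, Matrix.mul_neg, Matrix.neg_mul]
    _ = _ := by simp only [Matrix.mul_assoc]

section

variable {o : ι} (J : Pj (eo o) B C) (hk : Even k)

include J

theorem Pj.eT : toC (C * B) * toC (TT (k + 2) ι) = toC (TT (k + 2) ι) * toC (C * B) := by
  rw [toC_TT]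
  exact J.comm_Tg pr_pm

theorem Pj.eQ : toC (C * B) * toC (QQ (k + 2) o) = toC (QQ (k + 2) o) * toC (C * B) := by
  rw [toC_QQ]
  exact J.comm_Tg (pr_De (eo_sq o))

theorem Pj.ee' : toC (C * B) * toC (C * B) = toC (C * B) := J.ee

theorem Pj.es : (toC (C * B))ᵀ = toC (C * B) := by
  conv_rhs => rw [← J.sym]
  rfl

theorem Pj.eDk {A : Matrix (ι × Bool) (ι × Bool) ℂ} (hA : Sp (eo o) A) :
    toC (C * B) * Dk A = Dk A * toC (C * B) := J.comm_Dk (eo_sq o) hA

end

variable (B C) in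
/-- the projections of the Hodge structure -/
noncomputable def PB (o : ι) (p : ℤ) : Matrix (Fin (k + 2) → ι × Bool) (Fin (k + 2) → ι × Bool) ℂ :=
  tw (TT (k + 2) ι) (El (k + 2) ℂ o (p - 1) * toC (C * B))

variable {o : ι} (J : Pj (eo o) B C)

include J in
theorem El_e_zero {a : ℤ} (h1 : a ≠ -1) (h2 : a ≠ 0) (h3 : a ≠ 1) : El (k + 2) ℂ o a * toC (C * B) = 0 := by
  ext x y
  rw [El, diagonal_mul, Matrix.zero_apply]
  by_cases h : toC (C * B) x y = 0
  · rw [h, mul_zero]
  · have h4 := lev_cases o (J.inj h)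
    rw [if_neg, zero_mul]
    rintro rfl
    rcases h4 with h4 | h4 | h4
    · exact h1 h4
    · exact h2 h4
    · exact h3 h4

include J in
theorem El_e_sum : (El (k + 2) ℂ o (-1) + El (k + 2) ℂ o 0 + El (k + 2) ℂ o 1) * toC (C * B) = toC (C * B) := by
  ext x y
  rw [Matrix.add_mul, Matrix.add_mul, Matrix.add_apply, Matrix.add_apply, El, El, El, diagonal_mul, diagonal_mul, diagonal_mul]
  by_cases h : toC (C * B) x y = 0
  · rw [h]
    simp
  · rcases lev_cases o (J.inj h) with h4 | h4 | h4 <;> rw [h4] <;> simp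

include J in
theorem El_e_sub : (El (k + 2) ℂ o 1 - El (k + 2) ℂ o (-1)) * toC (C * B) = Dk (Hm ℂ o) * toC (C * B) := by
  ext x y
  rw [Matrix.sub_mul, Matrix.sub_apply, El, El, diagonal_mul, diagonal_mul, Hm, Dk_diagonal, diagonal_mul]
  have h1 : ∑ i, ((h0 o (x i) : ℤ) : ℂ) = ((lev (h0 o) x : ℤ) : ℂ) := by
    rw [lev]
    push_cast
    rfl
  rw [h1]
  by_cases h : toC (C * B) x y = 0
  · rw [h]
    simp
  · rcases lev_cases o (J.inj h) with h4 | h4 | h4 <;> rw [h4] <;> simp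

include J in
theorem El_e_mul (a b : ℤ) : (El (k + 2) ℂ o a * toC (C * B)) * (El (k + 2) ℂ o b * toC (C * B)) =
    if a = b then El (k + 2) ℂ o a * toC (C * B) else 0 := by
  have h1 : (El (k + 2) ℂ o a * toC (C * B)) * (El (k + 2) ℂ o b * toC (C * B)) =
      (El (k + 2) ℂ o a * El (k + 2) ℂ o b) * toC (C * B) := by
    calc _ = El (k + 2) ℂ o a * (toC (C * B) * El (k + 2) ℂ o b) * toC (C * B) := by simp only [Matrix.mul_assoc]
      _ = (El (k + 2) ℂ o a * El (k + 2) ℂ o b) * (toC (C * B) * toC (C * B)) := by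
        rw [J.comm_El]
        simp only [Matrix.mul_assoc]
      _ = _ := by rw [J.ee']
  rw [h1, El_mul]
  split_ifs
  · rfl
  · rw [Matrix.zero_mul]

include J in
/-- **The base point.** -/
theorem big (hk : Even (k + 2)) : BigHW27 (QQ (k + 2) o) (C * B) (PB B C o) := by
  have hT := TT_sq (ι := ι) hk
  have hTs := TT_symm (ι := ι) hk
  refine ⟨fun p q => ?_, fun p hp => ?_, ?_, fun p => ?_, QQ_symm o, fun p q hpq => ?_, fun p v hv hv0 => ?_⟩
  · rw [PB, PB, tw_mul hT, El_e_mul J]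
    by_cases h : p = q
    · rw [if_pos h, if_pos (by rw [h])]
    · rw [if_neg h, if_neg (fun hh => h (sub_left_injective hh)), tw_zero]
  · rw [PB, El_e_zero J, tw_zero]
    · intro h
      exact hp (by rw [show p = 0 by omega]; simp)
    · intro h
      exact hp (by rw [show p = 1 by omega]; simp)
    · intro h
      exact hp (by rw [show p = 2 by omega]; simp)
  · rw [Finset.sum_insert (by simp), Finset.sum_insert (by simp), Finset.sum_singleton, PB, PB, PB, ← tw_add, ← tw_add,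
      ← Matrix.add_mul, ← Matrix.add_mul]
    have h1 : El (k + 2) ℂ o (0 - 1) + (El (k + 2) ℂ o (1 - 1) + El (k + 2) ℂ o (2 - 1)) =
        El (k + 2) ℂ o (-1) + El (k + 2) ℂ o 0 + El (k + 2) ℂ o 1 := by
      norm_num
      abel
    rw [h1, El_e_sum J, tw_of_comm hT J.eT.symm]
  · rw [PB, tw_conj hT, Matrix.map_mul, toC_conj', El_map]
    rw [PB]
    congr 1
    have h1 : toC (TT (k + 2) ι) * El (k + 2) ℂ o (p - 1) = El (k + 2) ℂ o (-(p - 1)) * toC (TT (k + 2) ι) := by
      rw [toC_TT]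
      exact Tg_El (fun s t => pm_supp) o _
    rw [← Matrix.mul_assoc, h1, Matrix.mul_assoc, Matrix.mul_assoc, J.eT, ← Matrix.mul_assoc (toC (TT (k + 2) ι)),
      tT hT, Matrix.one_mul]
    congr 2
    ring
  · rw [← Lt_Om_Lt hk, PB, PB, tw, tw, Matrix.transpose_mul, Matrix.transpose_mul, Matrix.transpose_mul, Lt_transpose hTs,
      Li_transpose hTs, El_transpose, J.es]
    have h1 : Tg (Om ℂ (eo o)) * El (k + 2) ℂ o (q - 1) = El (k + 2) ℂ o (-(q - 1)) * Tg (Om ℂ (eo o)) :=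
      Tg_El (fun s t => Om_supp) o _
    have h2 : El (k + 2) ℂ o (p - 1) * El (k + 2) ℂ o (-(q - 1)) = 0 := by
      rw [El_mul, if_neg]
      intro h
      apply hpq
      linarith
    calc Lt (TT (k + 2) ι) * (toC (C * B) * El (k + 2) ℂ o (p - 1) * Li (TT (k + 2) ι)) *
          (Lt (TT (k + 2) ι) * Tg (Om ℂ (eo o)) * Lt (TT (k + 2) ι)) *
          (Li (TT (k + 2) ι) * (El (k + 2) ℂ o (q - 1) * toC (C * B)) * Lt (TT (k + 2) ι)) =
        Lt (TT (k + 2) ι) * toC (C * B) * El (k + 2) ℂ o (p - 1) * (Li (TT (k + 2) ι) * Lt (TT (k + 2) ι)) *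
          Tg (Om ℂ (eo o)) * (Lt (TT (k + 2) ι) * Li (TT (k + 2) ι)) * El (k + 2) ℂ o (q - 1) * toC (C * B) *
          Lt (TT (k + 2) ι) := by simp only [Matrix.mul_assoc]
      _ = Lt (TT (k + 2) ι) * toC (C * B) * (El (k + 2) ℂ o (p - 1) * (Tg (Om ℂ (eo o)) * El (k + 2) ℂ o (q - 1))) *
          toC (C * B) * Lt (TT (k + 2) ι) := by
          rw [Li_mul_Lt hT, Lt_mul_Li hT, mul_one, mul_one]
          simp only [Matrix.mul_assoc]
      _ = 0 := by
          rw [h1, ← Matrix.mul_assoc (El (k + 2) ℂ o (p - 1)), h2]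
          simp only [Matrix.zero_mul, Matrix.mul_zero]
  · -- the positivity
    obtain ⟨u, hu⟩ : ∃ u, u = Lt (TT (k + 2) ι) *ᵥ v := ⟨_, rfl⟩
    have hvu : v = Li (TT (k + 2) ι) *ᵥ u := by
      rw [hu, Matrix.mulVec_mulVec, Li_mul_Lt hT, Matrix.one_mulVec]
    have hu1 : (El (k + 2) ℂ o (p - 1) * toC (C * B)) *ᵥ u = u := by
      have h1 : Lt (TT (k + 2) ι) *ᵥ (PB B C o p *ᵥ v) = Lt (TT (k + 2) ι) *ᵥ v := by rw [hv]
      rw [← hu, Matrix.mulVec_mulVec, PB, tw, ← Matrix.mul_assoc, ← Matrix.mul_assoc, Lt_mul_Li hT, Matrix.one_mul,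
        ← Matrix.mulVec_mulVec, ← hu] at h1
      exact h1
    have hu2 : toC (C * B) *ᵥ u = u := by
      conv_rhs => rw [← hu1]
      conv_lhs => rw [← hu1]
      rw [Matrix.mulVec_mulVec, ← Matrix.mul_assoc, J.comm_El, Matrix.mul_assoc, J.ee']
    have hu3 : ∀ x, u x ≠ 0 → lev (h0 o) x = p - 1 := by
      intro x hx
      by_contra h
      apply hx
      have h1 := congrFun hu1 x
      rw [← Matrix.mulVec_mulVec, hu2, El, mulVec_diagonal, if_neg h, zero_mul] at h1
      exact h1.symm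
    have hal : Al u := ((J.memC u).2 hu2).1
    have hu0 : u ≠ 0 := by
      intro h
      rw [h, Matrix.mulVec_zero] at hvu
      exact hv0 hvu
    have hp : p = 0 ∨ p = 1 ∨ p = 2 := by
      obtain ⟨x, hx⟩ := Function.ne_iff.1 hu0
      have h1 := hu3 x hx
      rcases lev_cases o (hal.inj hx) with h2 | h2 | h2
      · left; omega
      · right; left; omega
      · right; right; omega
    have hform : v ⬝ᵥ (toC (QQ (k + 2) o) *ᵥ star v) = (((1 : ℤ) - 2 * (p - 1) ^ 2 : ℤ) : ℂ) * (u ⬝ᵥ star u) := by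
      have h1 : star v = Lt (TT (k + 2) ι) *ᵥ star u := by
        rw [hvu]
        funext x
        have h2 : ∀ x y, star (Li (TT (k + 2) ι) x y) = Lt (TT (k + 2) ι) x y := by
          intro x y
          have := congrFun (congrFun (Li_conj (T := TT (k + 2) ι)) x) y
          rw [Matrix.map_apply] at this
          exact this
        simp only [Pi.star_apply, Matrix.mulVec, dotProduct, star_sum, star_mul', h2]
      have h2 : v ⬝ᵥ (toC (QQ (k + 2) o) *ᵥ star v) = u ⬝ᵥ (toC (QQ (k + 2) o) *ᵥ star u) := by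
        rw [h1]
        conv_lhs => rw [hvu]
        rw [← Matrix.vecMul_transpose, Li_transpose hTs, ← Matrix.dotProduct_mulVec, Matrix.mulVec_mulVec, Matrix.mulVec_mulVec]
        congr 2
        conv_lhs => rw [← Lt_Om_Lt hk]
        calc Li (TT (k + 2) ι) * (Lt (TT (k + 2) ι) * Tg (Om ℂ (eo o)) * Lt (TT (k + 2) ι)) * Lt (TT (k + 2) ι) =
              (Li (TT (k + 2) ι) * Lt (TT (k + 2) ι)) * Tg (Om ℂ (eo o)) * (Lt (TT (k + 2) ι) * Lt (TT (k + 2) ι)) := by
              simp only [Matrix.mul_assoc]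
          _ = _ := by rw [Li_mul_Lt hT, Lt_sq hT, Matrix.one_mul, Om_TT, toC_QQ]
      rw [h2, toC_QQ, De, Tg_diagonal, dotProduct, dotProduct, Finset.mul_sum]
      refine Finset.sum_congr rfl fun x _ => ?_
      rw [mulVec_diagonal]
      by_cases hx : u x = 0
      · rw [hx]
        ring
      · have h3 := prod_eo o (hal.inj hx)
        rw [hu3 x hx] at h3
        have h4 : ∏ i, ((eo o (x i).1 : ℤ) : ℂ) = (((1 : ℤ) - 2 * (p - 1) ^ 2 : ℤ) : ℂ) := by
          rw [← h3]
          push_cast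
          rfl
        rw [h4]
        ring
    have hpos : 0 < (u ⬝ᵥ star u).re ∧ (u ⬝ᵥ star u).im = 0 := by
      have h1 : u ⬝ᵥ star u = ((∑ x, Complex.normSq (u x) : ℝ) : ℂ) := by
        rw [dotProduct]
        push_cast
        refine Finset.sum_congr rfl fun x _ => ?_
        rw [Pi.star_apply]
        exact Complex.mul_conj (u x)
      rw [h1, Complex.ofReal_re, Complex.ofReal_im]
      refine ⟨?_, rfl⟩
      obtain ⟨x, hx⟩ := Function.ne_iff.1 hu0
      exact Finset.sum_pos' (fun y _ => Complex.normSq_nonneg _) ⟨x, Finset.mem_univ x, Complex.normSq_pos.2 hx⟩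
    rw [hform]
    rcases hp with rfl | rfl | rfl
    · have h1 : Complex.I ^ (2 * (0 : ℤ) - 2) = -1 := by
        rw [show 2 * (0 : ℤ) - 2 = -2 by norm_num, _root_.zpow_neg, show ((2 : ℤ)) = ((2 : ℕ) : ℤ) by norm_num, _root_.zpow_natCast,
          Complex.I_sq]
        norm_num
      rw [h1]
      norm_num
      exact hpos.1
    · norm_num
      exact hpos.1
    · have h1 : Complex.I ^ (2 * (2 : ℤ) - 2) = -1 := by
        rw [show 2 * (2 : ℤ) - 2 = ((2 : ℕ) : ℤ) by norm_num, _root_.zpow_natCast, Complex.I_sq]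
      rw [h1]
      norm_num
      exact hpos.1

end

end S524
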