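import Pool.Agent.Helper24.S5.Dim

/-!
Sharpness of the list of exceptional Hodge numbers (MP_b8862a_ag), primitive exterior powers of the quaternionic type:
numbers.
-/

set_option linter.unusedSectionVars false

open Matrix Module

namespace S524

variable {κ : Type*} [Fintype κ] [DecidableEq κ]

theorem card_FS_univ (h : κ → ℤ) (k : ℕ) : (FS h k Set.univ).card = (Fintype.card κ).choose k := by
  classical
  have h1 : FS h k Set.univ = Finset.powersetCard k Finset.univ := by
    ext S
    rw [mem_FS, Finset.mem_powersetCard]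
    simp
  rw [h1, Finset.card_powersetCard, Finset.card_univ]

theorem count24 {p q : κ} (hpq : p ≠ q) (k : ℕ) :
    ((Finset.powersetCard (k + 1) (Finset.univ : Finset κ)).filter fun S => p ∈ S ∧ q ∉ S).card =
      (Fintype.card κ - 2).choose k := by
  classical
  have h1 : ((Finset.univ.erase p).erase q : Finset κ).card = Fintype.card κ - 2 := by
    rw [Finset.card_erase_of_mem (Finset.mem_erase.2 ⟨hpq.symm, Finset.mem_univ q⟩),
      Finset.card_erase_of_mem (Finset.mem_univ p), Finset.card_univ]
    omega
  rw [← h1, ← Finset.card_powersetCard]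
  refine Finset.card_nbij' (fun S => S.erase p) (fun S => insert p S) ?_ ?_ ?_ ?_
  · intro S hS
    rw [Finset.mem_coe, Finset.mem_filter, Finset.mem_powersetCard] at hS
    rw [Finset.mem_coe, Finset.mem_powersetCard]
    refine ⟨fun x hx => ?_, by rw [Finset.card_erase_of_mem hS.2.1, hS.1.2]; rfl⟩
    have h2 := Finset.mem_of_mem_erase hx
    refine Finset.mem_erase.2 ⟨?_, Finset.mem_erase.2 ⟨Finset.ne_of_mem_erase hx, Finset.mem_univ x⟩⟩
    rintro rfl
    exact hS.2.2 h2
  · intro S hS
    rw [Finset.mem_coe, Finset.mem_powersetCard] at hS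
    rw [Finset.mem_coe, Finset.mem_filter, Finset.mem_powersetCard]
    have hp : p ∉ S := by
      intro h2
      have h3 := hS.1 h2
      simp at h3
    have hq : q ∉ S := by
      intro h2
      have h3 := hS.1 h2
      simp at h3
    refine ⟨⟨Finset.subset_univ _, by rw [Finset.card_insert_of_notMem hp, hS.2]⟩, Finset.mem_insert_self p S, ?_⟩
    rw [Finset.mem_insert, not_or]
    exact ⟨hpq.symm, hq⟩
  · intro S hS
    rw [Finset.mem_coe, Finset.mem_filter] at hS
    exact Finset.insert_erase hS.2.1
  · intro S hS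
    rw [Finset.mem_coe, Finset.mem_powersetCard] at hS
    refine Finset.erase_insert ?_
    intro h2
    have h3 := hS.1 h2
    simp at h3

variable {ι : Type*} [Fintype ι] [DecidableEq ι]

/-- the operator of the base point -/
def h0 (a : ι) (p : ι × Bool) : ℤ := if p.1 = a then (if p.2 then -1 else 1) else 0

theorem h0_bar (a : ι) (p : ι × Bool) : h0 a (bar p) = -h0 a p := by
  obtain ⟨c, b⟩ := p
  by_cases h : c = a <;> cases b <;> simp [h0, bar, h]

theorem h0_sum (a : ι) (S : Finset (ι × Bool)) :
    ∑ p ∈ S, h0 a p = (if (a, false) ∈ S then 1 else 0) - (if (a, true) ∈ S then 1 else 0) := by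
  classical
  have h1 : ∀ p : ι × Bool, h0 a p = (if p = (a, false) then (1 : ℤ) else 0) - if p = (a, true) then 1 else 0 := by
    rintro ⟨c, b⟩
    by_cases h : c = a <;> cases b <;> simp [h0, h]
  simp only [h1, Finset.sum_sub_distrib, Finset.sum_ite_eq']

theorem card_FS_one (a : ι) (k : ℕ) : (FS (h0 a) (k + 1) {1, -1}).card = 2 * (Fintype.card (ι × Bool) - 2).choose k := by
  classical
  have h1 : FS (h0 a) (k + 1) {1, -1} =
      ((Finset.powersetCard (k + 1) (Finset.univ : Finset (ι × Bool))).filter fun S => (a, false) ∈ S ∧ (a, true) ∉ S) ∪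
      ((Finset.powersetCard (k + 1) (Finset.univ : Finset (ι × Bool))).filter fun S => (a, true) ∈ S ∧ (a, false) ∉ S) := by
    ext S
    rw [mem_FS, Finset.mem_union, Finset.mem_filter, Finset.mem_filter, Finset.mem_powersetCard, h0_sum]
    by_cases h2 : (a, false) ∈ S <;> by_cases h3 : (a, true) ∈ S <;> simp [h2, h3]
  rw [h1, Finset.card_union_of_disjoint, count24, count24]
  · ring
  · simp
  · simp
  · rw [Finset.disjoint_left]
    intro S h2 h3
    rw [Finset.mem_filter] at h2 h3
    exact h2.2.2 h3.2.1

end S524
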