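import Pool.Agent.Helper24.S5.Cnt

/-!
Sharpness of the list of exceptional Hodge numbers (MP_b8862a_ag), primitive exterior powers of the quaternionic type:
the commutant of the symplectic Lie algebra.
-/

set_option linter.unusedSectionVars false

open Matrix Module

namespace S524

variable {F : Type*} [Field F] [CharZero F] {ι : Type*} [Fintype ι] [DecidableEq ι] {k : ℕ} {ε : ι → ℤ}

/-- the torus -/
def Hm (F : Type*) [Field F] (e : ι) : Matrix (ι × Bool) (ι × Bool) F := diagonal fun p => (h0 e p : F)

variable (ε) in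
/-- the root vectors -/
def Ue (F : Type*) [Field F] (p q : ι × Bool) : Matrix (ι × Bool) (ι × Bool) F := fun s t =>
  (if s = p ∧ t = q then 1 else 0) - (wz ε p : F) * (wz ε q : F) * (if s = bar q ∧ t = bar p then 1 else 0)

theorem sp_Hm (hε : ∀ a, ε a * ε a = 1) (e : ι) : Sp ε (Hm F e) := by
  intro p q
  rw [Hm, diagonal_apply, diagonal_apply]
  by_cases h : p = q
  · subst h
    rw [if_pos rfl, if_pos rfl, h0_bar, wzF_sq hε]
    push_cast
    ring
  · rw [if_neg h, if_neg (fun hh => h (bar_inj hh).symm)]
    ring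

theorem sp_Ue (hε : ∀ a, ε a * ε a = 1) (p q : ι × Bool) : Sp ε (Ue ε F p q) := by
  intro s t
  have h1 : (bar t = p ∧ bar s = q) ↔ (s = bar q ∧ t = bar p) := by
    constructor
    · rintro ⟨rfl, rfl⟩
      exact ⟨(bar_bar s).symm, (bar_bar t).symm⟩
    · rintro ⟨rfl, rfl⟩
      exact ⟨bar_bar p, bar_bar q⟩
  have h2 : (bar t = bar q ∧ bar s = bar p) ↔ (s = p ∧ t = q) :=
    ⟨fun h => ⟨bar_inj h.2, bar_inj h.1⟩, fun h => by rw [h.1, h.2]; exact ⟨rfl, rfl⟩⟩
  simp only [Ue, h1, h2]
  by_cases h3 : s = bar q ∧ t = bar p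
  · obtain ⟨rfl, rfl⟩ := h3
    rw [wz_bar, wz_bar]
    by_cases h4 : bar q = p ∧ bar p = q
    · obtain ⟨rfl, -⟩ := h4
      simp only [bar_bar, and_self, if_true]
      rw [wz_bar]
      push_cast
      linear_combination -(1 + (wz ε q : F) * (wz ε q : F)) * wzF_sq (F := F) hε q
    · simp only [h4, if_false, and_self, if_true]
      push_cast
      ring
  · by_cases h4 : s = p ∧ t = q
    · obtain ⟨rfl, rfl⟩ := h4
      simp only [h3, if_false, and_self, if_true]
      linear_combination -(wz ε t : F) * (wz ε t : F) * wzF_sq (F := F) hε s - wzF_sq (F := F) hε t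
    · simp only [h3, h4, if_false]
      ring

theorem Hm_Ue (e : ι) (p q : ι × Bool) : Hm F e * Ue ε F p q - Ue ε F p q * Hm F e =
    ((h0 e p : F) - (h0 e q : F)) • Ue ε F p q := by
  ext s t
  rw [Matrix.sub_apply, Hm, diagonal_mul, mul_diagonal, Matrix.smul_apply, smul_eq_mul]
  simp only [Ue]
  by_cases h1 : s = p ∧ t = q
  · obtain ⟨rfl, rfl⟩ := h1
    ring
  · by_cases h2 : s = bar q ∧ t = bar p
    · obtain ⟨rfl, rfl⟩ := h2
      simp only [h1, if_false, and_self, if_true, h0_bar]
      push_cast
      ring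
    · simp only [h1, h2, if_false]
      ring

theorem Hm_mulVec (e : ι) (v : (Fin k → ι × Bool) → F) (x : Fin k → ι × Bool) :
    ((Dk (Hm F e) : Matrix (Fin k → ι × Bool) (Fin k → ι × Bool) F) *ᵥ v) x = (lev (h0 e) x : F) * v x := by
  rw [Hm, Dk_diagonal, mulVec_diagonal, lev]
  push_cast
  rfl

/-- the weights of a tensor -/
def Wt (μ : ι → ℤ) (v : (Fin k → ι × Bool) → F) : Prop := ∀ x, v x ≠ 0 → ∀ e, lev (h0 e) x = μ e

theorem wt_iff (μ : ι → ℤ) (v : (Fin k → ι × Bool) → F) :
    Wt μ v ↔ ∀ e, (Dk (Hm F e) : Matrix (Fin k → ι × Bool) (Fin k → ι × Bool) F) *ᵥ v = (μ e : F) • v := by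
  constructor
  · intro h e
    funext x
    rw [Hm_mulVec, Pi.smul_apply, smul_eq_mul]
    by_cases hx : v x = 0
    · rw [hx, mul_zero, mul_zero]
    · rw [h x hx e]
  · intro h x hx e
    have h1 := congrFun (h e) x
    rw [Hm_mulVec, Pi.smul_apply, smul_eq_mul] at h1
    have h2 := mul_right_cancel₀ hx h1
    exact_mod_cast h2

theorem Wt.Ue {μ : ι → ℤ} {v : (Fin k → ι × Bool) → F} (h : Wt μ v) (p q : ι × Bool) :
    Wt (fun e => μ e + h0 e p - h0 e q) ((Dk (Ue ε F p q) : Matrix (Fin k → ι × Bool) (Fin k → ι × Bool) F) *ᵥ v) := by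
  rw [wt_iff] at h ⊢
  intro e
  have h1 := Dk_bracket (k := k) (Hm F e) (S524.Ue ε F p q)
  rw [Hm_Ue, Dk_smul] at h1
  have h2 : (Dk (Hm F e) : Matrix (Fin k → ι × Bool) (Fin k → ι × Bool) F) * Dk (S524.Ue ε F p q) =
      ((h0 e p : F) - (h0 e q : F)) • Dk (S524.Ue ε F p q) + Dk (S524.Ue ε F p q) * Dk (Hm F e) := by
    rw [← h1]
    abel
  rw [Matrix.mulVec_mulVec, h2, Matrix.add_mulVec, Matrix.smul_mulVec, ← Matrix.mulVec_mulVec, h, Matrix.mulVec_smul]
  push_cast
  module

/-- the weights of an isotropic tuple determine it -/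
theorem perm_of_wt {x y : Fin k → ι × Bool} (hx : Function.Injective fun i => (x i).1)
    (h : ∀ e, lev (h0 e) y = lev (h0 e) x) : ∃ σ : Equiv.Perm (Fin k), y ∘ σ = x := by
  have h1 : ∀ i, lev (h0 (x i).1) x = h0 (x i).1 (x i) := by
    intro i
    rw [lev, Finset.sum_eq_single i]
    · intro j _ hj
      rw [h0, if_neg]
      intro h2
      exact hj (hx h2)
    · intro h2
      exact absurd (Finset.mem_univ i) h2
  have h2 : ∀ i, ∃ j, (y j).1 = (x i).1 := by
    intro i
    by_contra hcon
    push Not at hcon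
    have h3 : lev (h0 (x i).1) y = 0 := by
      rw [lev]
      refine Finset.sum_eq_zero fun j _ => ?_
      rw [h0, if_neg (hcon j)]
    rw [h, h1, h0, if_pos rfl] at h3
    split_ifs at h3
    simp at h3
  choose f hf using h2
  have hfi : Function.Injective f := by
    intro i j hij
    apply hx
    change (x i).1 = (x j).1
    rw [← hf i, ← hf j, hij]
  have hfb := Finite.injective_iff_bijective.1 hfi
  have hy : ∀ i, lev (h0 (x i).1) y = h0 (x i).1 (y (f i)) := by
    intro i
    rw [lev, Finset.sum_eq_single (f i)]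
    · intro j _ hj
      rw [h0, if_neg]
      intro h3
      obtain ⟨l, rfl⟩ := hfb.2 j
      apply hj
      rw [hf] at h3
      rw [hx h3]
    · intro h3
      exact absurd (Finset.mem_univ _) h3
  refine ⟨Equiv.ofBijective f hfb, funext fun i => ?_⟩
  change y (f i) = x i
  have h3 := hy i
  rw [h, h1, h0, h0, if_pos rfl, if_pos (hf i)] at h3
  refine Prod.ext (hf i) ?_
  by_cases h4 : (x i).2 = true <;> by_cases h5 : (y (f i)).2 = true
  · rw [h4, h5]
  · rw [if_pos h4, if_neg h5] at h3
    norm_num at h3
  · rw [if_neg h4, if_pos h5] at h3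
    norm_num at h3
  · rw [Bool.not_eq_true] at h4 h5
    rw [h4, h5]

/-- the tensor of an isotropic tuple is primitive -/
theorem ct_Es {x : Fin (k + 2) → ι × Bool} (hx : Function.Injective fun i => (x i).1) : ct ε (Es (F := F) x) = 0 := by
  funext z
  rw [ct, Pi.zero_apply]
  refine Finset.sum_eq_zero fun p _ => ?_
  by_cases h : Es (F := F) x (Fin.cons p (Fin.cons (bar p) z)) = 0
  · rw [h, mul_zero]
  · exfalso
    obtain ⟨σ, hσ⟩ := Es_ne h
    have h1 : (x (σ.symm 0)).1 = (x (σ.symm 1)).1 := by
      rw [← hσ]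
      simp only [Function.comp_apply, Equiv.apply_symm_apply]
      rfl
    have h2 := hx h1
    have h3 := σ.symm.injective h2
    simp at h3

theorem wt_Es {x : Fin k → ι × Bool} : Wt (fun e => lev (h0 e) x) (Es (F := F) x) := by
  intro y hy e
  obtain ⟨σ, hσ⟩ := Es_ne hy
  change lev (h0 e) y = lev (h0 e) x
  rw [← hσ, lev_perm]

theorem lev_update (h : ι × Bool → ℤ) (x : Fin k → ι × Bool) (i : Fin k) (q : ι × Bool) :
    lev h (Function.update x i q) = lev h x + h q - h (x i) := by
  rw [lev, lev, ← Finset.add_sum_erase _ _ (Finset.mem_univ i), ← Finset.add_sum_erase _ (fun i => h (x i)) (Finset.mem_univ i),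
    Function.update_self]
  have h1 : ∑ j ∈ Finset.univ.erase i, h (Function.update x i q j) = ∑ j ∈ Finset.univ.erase i, h (x j) := by
    refine Finset.sum_congr rfl fun j hj => ?_
    rw [Function.update_of_ne (Finset.ne_of_mem_erase hj)]
  rw [h1]
  ring

section comm

variable {b : ((Fin (k + 2) → ι × Bool) → F) →ₗ[F] ((Fin (k + 2) → ι × Bool) → F)}

variable (ε b) in
/-- `b` commutes with the Lie algebra on the primitive tensors -/
structure Cm : Prop where
  al : ∀ v, Al v → ct ε v = 0 → Al (b v)
  pr : ∀ v, Al v → ct ε v = 0 → ct ε (b v) = 0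
  cm : ∀ A : Matrix (ι × Bool) (ι × Bool) F, Sp ε A → ∀ v, Al v → ct ε v = 0 →
    b ((Dk A : Matrix (Fin (k + 2) → ι × Bool) (Fin (k + 2) → ι × Bool) F) *ᵥ v) =
      (Dk A : Matrix (Fin (k + 2) → ι × Bool) (Fin (k + 2) → ι × Bool) F) *ᵥ b v

variable (hε : ∀ a, ε a * ε a = 1) (H : Cm ε b)

include hε H

theorem Cm.wt {μ : ι → ℤ} {v : (Fin (k + 2) → ι × Bool) → F} (hv : Al v) (hc : ct ε v = 0) (h : Wt μ v) : Wt μ (b v) := by
  rw [wt_iff] at h ⊢
  intro e
  rw [← H.cm _ (sp_Hm hε e) v hv hc, h, map_smul]

theorem Cm.Es {x : Fin (k + 2) → ι × Bool} (hx : Function.Injective fun i => (x i).1) : b (Es x) = b (Es x) x • Es x := by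
  refine eq_Es (H.al _ (al_Es x) (ct_Es hx)) (fun i j hij => hx (congrArg Prod.fst hij)) fun y hy => ?_
  exact perm_of_wt hx fun e => H.wt hε (al_Es x) (ct_Es hx) wt_Es y hy e

theorem Cm.perm {x : Fin (k + 2) → ι × Bool} (hx : Function.Injective fun i => (x i).1) (σ : Equiv.Perm (Fin (k + 2))) :
    b (S524.Es (x ∘ σ)) (x ∘ σ) = b (S524.Es x) x := by
  have hx' : Function.Injective fun i => ((x ∘ σ) i).1 := hx.comp σ.injective
  have hi : Function.Injective x := fun i j hij => hx (congrArg Prod.fst hij)
  have h1 : S524.Es (F := F) (x ∘ σ) = S524.Es (F := F) (x ∘ σ) x • S524.Es x := by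
    refine eq_Es (al_Es _) hi fun y hy => ?_
    obtain ⟨τ, hτ⟩ := Es_ne hy
    refine ⟨τ * σ⁻¹, ?_⟩
    funext i
    have := congrFun hτ (σ⁻¹ i)
    simpa using this
  have h2 : S524.Es (F := F) (x ∘ σ) x ≠ 0 := by
    intro h3
    rw [h3, zero_smul] at h1
    have h4 := Es_self (F := F) (hi.comp σ.injective)
    rw [h1] at h4
    exact zero_ne_one h4
  have h3 := H.Es hε hx'
  have h4 := H.Es hε hx
  have h5 : b (S524.Es (x ∘ σ)) = b (S524.Es x) x • S524.Es (x ∘ σ) := by
    conv_lhs => rw [h1, map_smul, h4]
    conv_rhs => rw [h1]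
    rw [smul_comm]
  rw [h5, Pi.smul_apply, Es_self (hi.comp σ.injective), smul_eq_mul, mul_one]

theorem Cm.move {x : Fin (k + 2) → ι × Bool} (hx : Function.Injective fun i => (x i).1) (i : Fin (k + 2)) (q : ι × Bool)
    (hq : ∀ j, j ≠ i → (x j).1 ≠ q.1) :
    b (S524.Es (Function.update x i q)) (Function.update x i q) = b (S524.Es x) x := by
  by_cases hqp : q = x i
  · rw [hqp, Function.update_eq_self]
  obtain ⟨x', hx'⟩ : ∃ x', x' = Function.update x i q := ⟨_, rfl⟩
  have hxi : x' i = q := by rw [hx', Function.update_self]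
  have hxj : ∀ j, j ≠ i → x' j = x j := fun j hj => by rw [hx', Function.update_of_ne hj]
  have hfst : Function.Injective fun i => (x' i).1 := by
    intro j l hjl
    change (x' j).1 = (x' l).1 at hjl
    by_cases h1 : j = i <;> by_cases h2 : l = i
    · rw [h1, h2]
    · exfalso
      rw [h1, hxi, hxj l h2] at hjl
      exact hq l h2 hjl.symm
    · exfalso
      rw [h2, hxi, hxj j h1] at hjl
      exact hq j h1 hjl
    · rw [hxj j h1, hxj l h2] at hjl
      exact hx hjl
  have hi : Function.Injective x := fun i j hij => hx (congrArg Prod.fst hij)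
  have hi' : Function.Injective x' := fun i j hij => hfst (congrArg Prod.fst hij)
  rw [← hx']
  obtain ⟨D, hD⟩ : ∃ D : Matrix (Fin (k + 2) → ι × Bool) (Fin (k + 2) → ι × Bool) F, D = Dk (Ue ε F q (x i)) := ⟨_, rfl⟩
  -- the image of the tensor of `x`
  have hDal : Al (D *ᵥ S524.Es (F := F) x) := by
    rw [hD]
    exact (al_Es x).Dk _
  have hDwt : Wt (fun e => lev (h0 e) x') (D *ᵥ S524.Es (F := F) x) := by
    have h1 := (wt_Es (F := F) (x := x)).Ue (ε := ε) q (x i)
    rw [← hD] at h1
    intro y hy e
    rw [h1 y hy e, hx']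
    change _ = lev (h0 e) (Function.update x i q)
    rw [lev_update]
  have h1 : D *ᵥ S524.Es (F := F) x = (D *ᵥ S524.Es (F := F) x) x' • S524.Es x' :=
    eq_Es hDal hi' fun y hy => perm_of_wt hfst fun e => hDwt y hy e
  have h2 : (D *ᵥ S524.Es (F := F) x) x' ≠ 0 := by
    rw [hD, Dk_mulVec]
    have h3 : ∀ j, j ≠ i → ∑ t, Ue ε F q (x i) (x' j) t * S524.Es (F := F) x (Function.update x' j t) = 0 := by
      intro j hj
      refine Finset.sum_eq_zero fun t _ => ?_
      have e1 : ¬ (x' j = q ∧ t = x i) := by
        rintro ⟨h4, -⟩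
        rw [hxj j hj] at h4
        exact hq j hj (by rw [h4])
      have e2 : ¬ (x' j = bar (x i) ∧ t = bar q) := by
        rintro ⟨h4, -⟩
        rw [hxj j hj] at h4
        exact hj (hx (by change (x j).1 = (x i).1; rw [h4]; rfl))
      rw [Ue, if_neg e1, if_neg e2]
      ring
    rw [Finset.sum_eq_single i (fun j _ hj => h3 j hj) (fun h => absurd (Finset.mem_univ i) h),
      Finset.sum_eq_single (x i)]
    · have e3 : Function.update x' i (x i) = x := by
        rw [hx', Function.update_idem, Function.update_eq_self]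
      rw [e3, Es_self hi, mul_one, hxi, Ue, if_pos ⟨rfl, rfl⟩]
      by_cases h4 : q = bar (x i) ∧ x i = bar q
      · rw [if_pos h4, mul_one]
        have h5 : (wz ε q : F) * (wz ε (x i) : F) = -1 := by
          have h6 : wz ε q = -wz ε (x i) := by rw [h4.1, wz_bar]
          rw [h6]
          push_cast
          linear_combination -wzF_sq (F := F) hε (x i)
        rw [h5]
        norm_num
      · rw [if_neg h4, mul_zero, sub_zero]
        exact one_ne_zero
    · intro t _ ht
      have e1 : ¬ (x' i = q ∧ t = x i) := fun h4 => ht h4.2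
      by_cases h4 : x' i = bar (x i) ∧ t = bar q
      · exfalso
        apply ht
        rw [h4.2, ← hxi, h4.1, bar_bar]
      · rw [Ue, if_neg e1, if_neg h4]
        ring
    · intro h4
      exact absurd (Finset.mem_univ _) h4
  have h3 : b (D *ᵥ S524.Es (F := F) x) = D *ᵥ b (S524.Es x) := by
    rw [hD]
    exact H.cm _ (sp_Ue hε _ _) _ (al_Es x) (ct_Es hx)
  have h4 := H.Es hε hx
  rw [h4, Matrix.mulVec_smul, h1, map_smul] at h3
  have h5 := congrFun h3 x'
  rw [Pi.smul_apply, Pi.smul_apply, Pi.smul_apply, Es_self hi', smul_eq_mul, smul_eq_mul, smul_eq_mul, mul_one, mul_comm] at h5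
  exact mul_right_cancel₀ h2 h5

theorem Cm.same {x y : Fin (k + 2) → ι × Bool} (hx : Function.Injective fun i => (x i).1)
    (hy : Function.Injective fun i => (y i).1) : b (S524.Es x) x = b (S524.Es y) y := by
  obtain ⟨N, hN⟩ : ∃ N, N = (Finset.univ.filter fun i => x i ≠ y i).card := ⟨_, rfl⟩
  induction N using Nat.strong_induction_on generalizing x with
  | _ N ih =>
    by_cases hxy : x = y
    · rw [hxy]
    obtain ⟨i, hi⟩ := Function.ne_iff.1 hxy
    have step : ∀ z : Fin (k + 2) → ι × Bool, (Function.Injective fun i => (z i).1) → b (S524.Es z) z = b (S524.Es x) x →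
        (∀ j, j ≠ i → (z j).1 ≠ (y i).1) → (∀ j, j ≠ i → x j = y j → z j = y j) → b (S524.Es x) x = b (S524.Es y) y := by
      intro z hz h1 h2 h3
      rw [← h1, ← H.move hε hz i (y i) h2]
      have h4 : Function.Injective fun j => (Function.update z i (y i) j).1 := by
        intro j l hjl
        change (Function.update z i (y i) j).1 = (Function.update z i (y i) l).1 at hjl
        by_cases e1 : j = i <;> by_cases e2 : l = i
        · rw [e1, e2]
        · exfalso
          rw [e1, Function.update_self, Function.update_of_ne e2] at hjl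
          exact h2 l e2 hjl.symm
        · exfalso
          rw [e2, Function.update_self, Function.update_of_ne e1] at hjl
          exact h2 j e1 hjl
        · rw [Function.update_of_ne e1, Function.update_of_ne e2] at hjl
          exact hz hjl
      refine ih _ ?_ h4 rfl
      rw [hN]
      apply Finset.card_lt_card
      rw [Finset.ssubset_iff_of_subset]
      · refine ⟨i, Finset.mem_filter.2 ⟨Finset.mem_univ i, hi⟩, ?_⟩
        rw [Finset.mem_filter, Function.update_self]
        exact fun h => h.2 rfl
      · intro j hj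
        rw [Finset.mem_filter] at hj ⊢
        refine ⟨Finset.mem_univ j, fun h5 => hj.2 ?_⟩
        by_cases e1 : j = i
        · rw [e1, Function.update_self]
        · rw [Function.update_of_ne e1]
          exact h3 j e1 h5
    by_cases hcase : ∀ j, j ≠ i → (x j).1 ≠ (y i).1
    · exact step x hx rfl hcase fun j _ h => h
    · push Not at hcase
      obtain ⟨j, hj, hji⟩ := hcase
      refine step (x ∘ Equiv.swap i j) (hx.comp (Equiv.swap i j).injective) (H.perm hε hx _) ?_ ?_
      · intro l hl
        rw [Function.comp_apply]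
        by_cases e1 : l = j
        · rw [e1, Equiv.swap_apply_right, ← hji]
          intro e2
          exact hj (hx e2).symm
        · rw [Equiv.swap_apply_of_ne_of_ne hl e1, ← hji]
          intro e2
          exact e1 (hx e2)
      · intro l hl h1
        rw [Function.comp_apply]
        by_cases e1 : l = j
        · exfalso
          rw [e1] at h1
          rw [h1] at hji
          exact hj (hy hji)
        · rw [Equiv.swap_apply_of_ne_of_ne hl e1, h1]

/-- `b` is a scalar on the tensors of one weight -/
theorem Cm.main {c : F} (hc : ∀ x : Fin (k + 2) → ι × Bool, (Function.Injective fun i => (x i).1) → b (S524.Es x) x = c)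
    {μ : ι → ℤ} {v : (Fin (k + 2) → ι × Bool) → F} (hv : Al v) (hv0 : ct ε v = 0) (hw : Wt μ v) : b v = c • v := by
  classical
  obtain ⟨N, hN⟩ : ∃ N, N = (Finset.univ.filter fun e => μ e = 0).card := ⟨_, rfl⟩
  induction N using Nat.strong_induction_on generalizing μ v with
  | _ N ih =>
    obtain ⟨y, hy⟩ : ∃ y, y = b v - c • v := ⟨_, rfl⟩
    have hya : Al y := by rw [hy]; exact (H.al v hv hv0).sub (hv.smul c)
    have hyc : ct ε y = 0 := by
      rw [hy, ← ctL_apply, map_sub, map_smul, ctL_apply, ctL_apply, H.pr v hv hv0, hv0, smul_zero, sub_zero]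
    have hyw : Wt μ y := by
      have h1 := (wt_iff μ (b v)).1 (H.wt hε hv hv0 hw)
      have h2 := (wt_iff μ v).1 hw
      rw [wt_iff]
      intro e
      rw [hy, Matrix.mulVec_sub, Matrix.mulVec_smul, h1, h2, smul_sub, smul_comm]
    suffices h : y = 0 by
      rw [hy, sub_eq_zero] at h
      exact h
    by_contra hy0
    obtain ⟨x, hx⟩ := Function.ne_iff.1 hy0
    rw [Pi.zero_apply] at hx
    have hxi := hya.inj hx
    by_cases hiso : Function.Injective fun i => (x i).1
    · -- isotropic tuples
      have h1 : v = v x • S524.Es x := eq_Es hv hxi fun z hz => perm_of_wt hiso fun e => by rw [hw z hz e, hyw x hx e]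
      have h2 : y = 0 := by
        rw [hy, h1, map_smul, H.Es hε hiso, hc x hiso, smul_comm, sub_self]
      exact hy0 h2
    · -- a pair
      have h1 : ∃ i j, i ≠ j ∧ (x i).1 = (x j).1 := by
        by_contra hcon
        push Not at hcon
        apply hiso
        intro i j hij
        by_contra hne
        exact hcon i j hne hij
      obtain ⟨i, j, hij, hfst⟩ := h1
      have hbar : x j = bar (x i) := eq_bar hfst.symm fun h => hij (hxi h).symm
      -- move the pair to the front
      obtain ⟨p, z, hpz⟩ : ∃ (p : ι × Bool) (z : Fin k → ι × Bool), y (Fin.cons p (Fin.cons (bar p) z)) ≠ 0 := by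
        obtain ⟨σ, hσ0, hσ1⟩ : ∃ σ : Equiv.Perm (Fin (k + 2)), σ 0 = i ∧ σ 1 = j := by
          obtain ⟨j', hj'⟩ : ∃ j', j' = Equiv.swap 0 i j := ⟨_, rfl⟩
          have h2 : j' ≠ 0 := by
            intro h3
            rw [hj'] at h3
            have h4 := congrArg (Equiv.swap 0 i) h3
            rw [Equiv.swap_apply_self, Equiv.swap_apply_left] at h4
            exact hij h4.symm
          refine ⟨Equiv.swap 0 i * Equiv.swap 1 j', ?_, ?_⟩
          · rw [Equiv.Perm.mul_apply, Equiv.swap_apply_of_ne_of_ne (by simp) (Ne.symm h2), Equiv.swap_apply_left]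
          · rw [Equiv.Perm.mul_apply, Equiv.swap_apply_left, hj', Equiv.swap_apply_self]
        refine ⟨x i, Fin.tail (Fin.tail (x ∘ σ)), ?_⟩
        have h2 : (Fin.cons (x i) (Fin.cons (bar (x i)) (Fin.tail (Fin.tail (x ∘ σ)))) : Fin (k + 2) → ι × Bool) = x ∘ σ := by
          have e1 : (x ∘ σ) 0 = x i := by rw [Function.comp_apply, hσ0]
          have e2 : Fin.tail (x ∘ σ) 0 = bar (x i) := by
            rw [← hbar, ← hσ1]
            rfl
          rw [← e1, show bar ((x ∘ σ) 0) = Fin.tail (x ∘ σ) 0 by rw [e2, e1], Fin.cons_self_tail, Fin.cons_self_tail]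
        rw [h2, hya]
        refine mul_ne_zero ?_ hx
        rcases Int.units_eq_one_or (Equiv.Perm.sign σ) with h3 | h3 <;> rw [h3] <;> simp
      obtain ⟨f, hf⟩ : ∃ f : ι × Bool → F, f = fun q => (wz ε q : F) * y (Fin.cons q (Fin.cons (bar q) z)) := ⟨_, rfl⟩
      have hsum : ∑ q, f q = 0 := by
        have := congrFun hyc z
        rw [hf]
        exact this
      have hyf : ∀ q, y (Fin.cons q (Fin.cons (bar q) z)) = (wz ε q : F) * f q := by
        intro q
        rw [hf]
        linear_combination -y (Fin.cons q (Fin.cons (bar q) z)) * wzF_sq (F := F) hε q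
      have hfp : f p ≠ 0 := by
        intro h2
        apply hpz
        rw [hyf, h2, mul_zero]
      have hswap : ∀ (a a' : ι × Bool), y (Fin.cons a (Fin.cons a' z)) = -y (Fin.cons a' (Fin.cons a z)) := by
        intro a a'
        have h2 := hya.swap (i := 0) (j := 1) (by simp) (Fin.cons a' (Fin.cons a z))
        have h3 := cons_comp_swap (Fin.cons a' (Fin.cons a z) : Fin (k + 2) → ι × Bool) 0
        have h4 : ((0 : Fin (k + 1)).succ) = (1 : Fin (k + 2)) := rfl
        rw [h4] at h3
        rw [h3] at h2
        rw [← h2]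
        congr 1
        rw [Fin.tail_cons, Fin.update_cons_zero]
        rfl
      have hfb : f (bar p) = f p := by
        rw [hf]
        simp only [bar_bar]
        rw [wz_bar, hswap (bar p) p]
        push_cast
        ring
      have hμ : ∀ q, y (Fin.cons q (Fin.cons (bar q) z)) ≠ 0 → μ q.1 = 0 := by
        intro q hq
        have h2 := hya.inj hq
        have h3 : ∀ l, (z l).1 ≠ q.1 := by
          intro l hl
          by_cases h4 : z l = q
          · have h5 : (Fin.cons q (Fin.cons (bar q) z) : Fin (k + 2) → ι × Bool) 0 =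
                (Fin.cons q (Fin.cons (bar q) z) : Fin (k + 2) → ι × Bool) l.succ.succ := by
              rw [Fin.cons_zero, Fin.cons_succ, Fin.cons_succ, h4]
            exact absurd (h2 h5) (Fin.succ_ne_zero _).symm
          · have h5 : (Fin.cons q (Fin.cons (bar q) z) : Fin (k + 2) → ι × Bool) (0 : Fin (k + 1)).succ =
                (Fin.cons q (Fin.cons (bar q) z) : Fin (k + 2) → ι × Bool) l.succ.succ := by
              rw [Fin.cons_succ, Fin.cons_succ, Fin.cons_zero, Fin.cons_succ, eq_bar hl h4]
            exact absurd (Fin.succ_injective _ (h2 h5)) (Fin.succ_ne_zero _).symm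
        have h4 := hyw _ hq q.1
        rw [lev_cons, lev_cons, h0_bar, lev, Finset.sum_eq_zero] at h4
        · rw [← h4]
          ring
        · intro l _
          rw [h0, if_neg (h3 l)]
      have key : ∀ q, f q ≠ 0 → f q = f p := by
        intro q hfq
        by_cases hqp : q.1 = p.1
        · by_cases h2 : q = p
          · rw [h2]
          · rw [eq_bar hqp h2, hfb]
        -- the two tuples
        have hypne : y (Fin.cons p (Fin.cons (bar p) z)) ≠ 0 := hpz
        have hyqne : y (Fin.cons q (Fin.cons (bar q) z)) ≠ 0 := by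
          intro h2
          apply hfq
          rw [hf]
          change (wz ε q : F) * y (Fin.cons q (Fin.cons (bar q) z)) = 0
          rw [h2, mul_zero]
        have hpz' : ∀ l, z l ≠ p := by
          intro l hl
          have h2 := hya.inj hypne
          have h3 : (Fin.cons p (Fin.cons (bar p) z) : Fin (k + 2) → ι × Bool) 0 =
              (Fin.cons p (Fin.cons (bar p) z) : Fin (k + 2) → ι × Bool) l.succ.succ := by
            rw [Fin.cons_zero, Fin.cons_succ, Fin.cons_succ, hl]
          have h4 := h2 h3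
          exact absurd h4 (Fin.succ_ne_zero _).symm
        have hqz' : ∀ l, z l ≠ q := by
          intro l hl
          have h2 := hya.inj hyqne
          have h3 : (Fin.cons q (Fin.cons (bar q) z) : Fin (k + 2) → ι × Bool) 0 =
              (Fin.cons q (Fin.cons (bar q) z) : Fin (k + 2) → ι × Bool) l.succ.succ := by
            rw [Fin.cons_zero, Fin.cons_succ, Fin.cons_succ, hl]
          have h4 := h2 h3
          exact absurd h4 (Fin.succ_ne_zero _).symm
        have hμp : μ p.1 = 0 := hμ p hypne
        have hμq : μ q.1 = 0 := hμ q hyqne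
        obtain ⟨D, hD⟩ : ∃ D : Matrix (Fin (k + 2) → ι × Bool) (Fin (k + 2) → ι × Bool) F,
          D = Dk (Ue ε F p (bar q)) := ⟨_, rfl⟩
        have hDv : b (D *ᵥ v) = c • (D *ᵥ v) := by
          have h2 := hw.Ue (ε := ε) p (bar q)
          rw [← hD] at h2
          refine ih _ ?_ (by rw [hD]; exact hv.Dk _) (by rw [hD, ct_Dk hε (sp_Ue hε _ _), hv0, Matrix.mulVec_zero]) h2 rfl
          rw [hN]
          apply Finset.card_lt_card
          rw [Finset.ssubset_iff_of_subset]
          · refine ⟨p.1, Finset.mem_filter.2 ⟨Finset.mem_univ _, hμp⟩, ?_⟩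
            rw [Finset.mem_filter, hμp, h0_bar, h0, h0, if_pos rfl, if_neg hqp]
            rintro ⟨-, h3⟩
            split_ifs at h3 <;> simp at h3
          · intro e he
            rw [Finset.mem_filter] at he ⊢
            refine ⟨Finset.mem_univ e, ?_⟩
            have h3 := he.2
            rw [h0_bar] at h3
            by_cases h4 : p.1 = e
            · rw [← h4, hμp]
            · by_cases h5 : q.1 = e
              · rw [← h5, hμq]
              · rw [h0, h0, if_neg h4, if_neg h5] at h3
                simpa using h3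
        have hDy : D *ᵥ y = 0 := by
          rw [hy, Matrix.mulVec_sub, Matrix.mulVec_smul, ← hDv, hD, H.cm _ (sp_Ue hε _ _) v hv hv0, sub_self]
        have h2 := congrFun hDy (Fin.cons p (Fin.cons q z))
        rw [hD, Dk_mulVec, Pi.zero_apply, Fin.sum_univ_succ, Fin.sum_univ_succ] at h2
        simp only [Fin.cons_zero, Fin.cons_succ, Fin.update_cons_zero, ← Fin.cons_update] at h2
        have h3 : ∑ l : Fin k, ∑ t, Ue ε F p (bar q) (z l) t * y (Fin.cons p (Fin.cons q (Function.update z l t))) = 0 := by
          refine Finset.sum_eq_zero fun l _ => Finset.sum_eq_zero fun t _ => ?_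
          rw [Ue, if_neg (fun h => hpz' l h.1), if_neg (fun h => hqz' l (by rw [h.1, bar_bar]))]
          ring
        have h4 : ∑ t, Ue ε F p (bar q) p t * y (Fin.cons t (Fin.cons q z)) = y (Fin.cons (bar q) (Fin.cons q z)) := by
          rw [Finset.sum_eq_single (bar q)]
          · rw [Ue, if_pos ⟨rfl, rfl⟩, if_neg]
            · ring
            · rintro ⟨h5, -⟩
              rw [bar_bar] at h5
              exact hqp (by rw [h5])
          · intro t _ ht
            rw [Ue, if_neg (fun h => ht h.2), if_neg]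
            · ring
            · rintro ⟨h5, -⟩
              rw [bar_bar] at h5
              exact hqp (by rw [h5])
          · intro h5
            exact absurd (Finset.mem_univ _) h5
        have h5 : ∑ t, Ue ε F p (bar q) q t * y (Fin.cons p (Fin.cons t z)) =
            (wz ε p : F) * (wz ε q : F) * y (Fin.cons p (Fin.cons (bar p) z)) := by
          rw [Finset.sum_eq_single (bar p)]
          · rw [Ue, if_neg (fun h => hqp (by rw [h.1])), if_pos ⟨(bar_bar q).symm, rfl⟩, wz_bar]
            push_cast
            ring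
          · intro t _ ht
            rw [Ue, if_neg (fun h => hqp (by rw [h.1])), if_neg (fun h => ht h.2)]
            ring
          · intro h6
            exact absurd (Finset.mem_univ _) h6
        rw [h3, h4, h5, add_zero, hswap, hyf, hyf] at h2
        have h6 : (wz ε q : F) * (f p - f q) = 0 := by
          linear_combination h2 - (wz ε q : F) * f p * wzF_sq (F := F) hε p
        have h7 : (wz ε q : F) ≠ 0 := by
          intro h8
          have h9 := wzF_sq (F := F) hε q
          rw [h8, mul_zero] at h9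
          exact zero_ne_one h9
        exact (sub_eq_zero.1 ((mul_eq_zero.1 h6).resolve_left h7)).symm
      have hsum2 : ∑ q, f q = ((Finset.univ.filter fun q => f q ≠ 0).card : F) * f p := by
        rw [← Finset.sum_filter_ne_zero, Finset.sum_congr rfl (g := fun _ => f p), Finset.sum_const, nsmul_eq_mul]
        intro q hq
        exact key q (Finset.mem_filter.1 hq).2
      rw [hsum2] at hsum
      rcases mul_eq_zero.1 hsum with h2 | h2
      · have h3 : (Finset.univ.filter fun q => f q ≠ 0).card = 0 := by exact_mod_cast h2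
        rw [Finset.card_eq_zero] at h3
        have h4 : p ∈ Finset.univ.filter fun q => f q ≠ 0 := Finset.mem_filter.2 ⟨Finset.mem_univ p, hfp⟩
        rw [h3] at h4
        simp at h4
      · exact hfp h2

end comm

end S524
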