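import Pool.Agent.Helper24.S5.Lef

/-!
Sharpness of the list of exceptional Hodge numbers (MP_b8862a_ag), primitive exterior powers of the quaternionic type:
dimensions.
-/

set_option linter.unusedSectionVars false

open Matrix Module

namespace S524

section

variable {F : Type*} [Field F] [CharZero F] {κ : Type*} [Fintype κ] [DecidableEq κ] {k : ℕ}

theorem perm_of_image {x y : Fin k → κ} (hx : Function.Injective x)
    (h : ∀ i, ∃ j, y j = x i) : ∃ σ : Equiv.Perm (Fin k), y ∘ σ = x := by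
  choose f hf using h
  have h1 : Function.Injective f := fun i j hij => hx (by rw [← hf i, ← hf j, hij])
  exact ⟨Equiv.ofBijective f (Finite.injective_iff_bijective.1 h1), funext fun i => hf i⟩

/-- the alternating tensor of the tuple `x` -/
noncomputable def Es (x : Fin k → κ) : (Fin k → κ) → F := As fun y => if y = x then 1 else 0

theorem al_Es (x : Fin k → κ) : Al (Es (F := F) x) := al_As _

theorem Es_self {x : Fin k → κ} (hx : Function.Injective x) : Es (F := F) x x = 1 := by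
  rw [Es, As, Finset.sum_eq_single 1]
  · simp
  · intro σ _ hσ
    rw [if_neg, mul_zero]
    intro h
    apply hσ
    ext i
    exact congrArg Fin.val (hx (congrFun h i))
  · intro h
    exact absurd (Finset.mem_univ _) h

theorem Es_ne {x y : Fin k → κ} (h : Es (F := F) x y ≠ 0) : ∃ σ : Equiv.Perm (Fin k), y ∘ σ = x := by
  by_contra hcon
  push Not at hcon
  apply h
  rw [Es, As]
  refine Finset.sum_eq_zero fun σ _ => ?_
  rw [if_neg (hcon σ), mul_zero]

/-- an alternating tensor which is supported on the permutations of `x` -/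
theorem eq_Es {v : (Fin k → κ) → F} (hv : Al v) {x : Fin k → κ} (hx : Function.Injective x)
    (h : ∀ y, v y ≠ 0 → ∃ σ : Equiv.Perm (Fin k), y ∘ σ = x) : v = v x • Es x := by
  funext y
  rw [Pi.smul_apply, smul_eq_mul]
  by_cases hy : ∃ σ : Equiv.Perm (Fin k), y ∘ σ = x
  · obtain ⟨σ, rfl⟩ := hy
    have h1 : Es (F := F) (y ∘ σ) y * ((Equiv.Perm.sign σ : ℤ) : F) = 1 := by
      rw [mul_comm, ← al_Es (F := F) (y ∘ σ) σ y, Es_self hx]
    rw [hv]
    linear_combination -(v y) * h1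
  · have h1 : v y = 0 := by
      by_contra h2
      exact hy (h y h2)
    have h2 : Es (F := F) x y = 0 := by
      by_contra h3
      exact hy (Es_ne h3)
    rw [h1, h2, mul_zero]

variable (h : κ → ℤ)

/-- the level -/
def lev (x : Fin k → κ) : ℤ := ∑ i, h (x i)

theorem lev_perm (σ : Equiv.Perm (Fin k)) (x : Fin k → κ) : lev h (x ∘ σ) = lev h x :=
  Equiv.sum_comp σ fun i => h (x i)

theorem lev_cons (p : κ) (z : Fin k → κ) : lev h (Fin.cons p z : Fin (k + 1) → κ) = h p + lev h z := by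
  rw [lev, Fin.sum_univ_succ, Fin.cons_zero]
  rfl

variable (F k) in
/-- the alternating tensors with levels in `Λ` -/
def AQ (Λ : Set ℤ) : Submodule F ((Fin k → κ) → F) where
  carrier := {v | Al v ∧ ∀ x, lev h x ∉ Λ → v x = 0}
  add_mem' := fun {v u} hv hu => ⟨hv.1.add hu.1, fun x hx => by rw [Pi.add_apply, hv.2 x hx, hu.2 x hx, add_zero]⟩
  zero_mem' := ⟨al_zero, fun _ _ => rfl⟩
  smul_mem' := fun c v hv => ⟨hv.1.smul c, fun x hx => by rw [Pi.smul_apply, hv.2 x hx, smul_zero]⟩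

theorem mem_AQ {Λ : Set ℤ} {v : (Fin k → κ) → F} : v ∈ AQ F k h Λ ↔ Al v ∧ ∀ x, lev h x ∉ Λ → v x = 0 := Iff.rfl

open scoped Classical in
/-- the sets of levels in `Λ` -/
noncomputable def FS (k : ℕ) (Λ : Set ℤ) : Finset (Finset κ) :=
  (Finset.powersetCard k Finset.univ).filter fun S => ∑ p ∈ S, h p ∈ Λ

variable (k) in
theorem mem_FS {Λ : Set ℤ} {S : Finset κ} : S ∈ FS h k Λ ↔ S.card = k ∧ ∑ p ∈ S, h p ∈ Λ := by
  classical
  rw [FS, Finset.mem_filter, Finset.mem_powersetCard]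
  simp

/-- an enumeration of the set `S` -/
noncomputable def en {Λ : Set ℤ} (S : {S : Finset κ // S ∈ FS h k Λ}) : Fin k → κ := fun i =>
  ((Finset.equivFinOfCardEq ((mem_FS k h).1 S.2).1).symm i).1

theorem en_inj {Λ : Set ℤ} (S : {S : Finset κ // S ∈ FS h k Λ}) : Function.Injective (en h S) := by
  intro i j hij
  exact (Finset.equivFinOfCardEq _).symm.injective (Subtype.ext hij)

theorem en_mem {Λ : Set ℤ} (S : {S : Finset κ // S ∈ FS h k Λ}) (i : Fin k) : en h S i ∈ S.1 :=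
  ((Finset.equivFinOfCardEq ((mem_FS k h).1 S.2).1).symm i).2

theorem en_surj {Λ : Set ℤ} (S : {S : Finset κ // S ∈ FS h k Λ}) {p : κ} (hp : p ∈ S.1) : ∃ i, en h S i = p := by
  refine ⟨Finset.equivFinOfCardEq ((mem_FS k h).1 S.2).1 ⟨p, hp⟩, ?_⟩
  rw [en, Equiv.symm_apply_apply]

theorem lev_en {Λ : Set ℤ} (S : {S : Finset κ // S ∈ FS h k Λ}) : lev h (en h S) = ∑ p ∈ S.1, h p := by
  rw [lev, ← Finset.sum_coe_sort S.1]
  exact Equiv.sum_comp (Finset.equivFinOfCardEq ((mem_FS k h).1 S.2).1).symm fun p => h p.1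

theorem finrank_AQ (Λ : Set ℤ) : finrank F (AQ F k h Λ) = (FS h k Λ).card := by
  classical
  let Φ : AQ F k h Λ →ₗ[F] ({S : Finset κ // S ∈ FS h k Λ} → F) :=
    { toFun := fun v S => v.1 (en h S)
      map_add' := fun _ _ => rfl
      map_smul' := fun _ _ => rfl }
  have h1 : Function.Injective Φ := by
    rw [injective_iff_map_eq_zero]
    intro v hv
    apply Subtype.ext
    funext x
    by_contra hx
    have hx1 : v.1 x ≠ 0 := hx
    have hx2 := v.2.1.inj hx1
    have hx3 : lev h x ∈ Λ := by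
      by_contra h3
      exact hx1 (v.2.2 x h3)
    have hS : (Finset.univ.image x) ∈ FS h k Λ := by
      rw [mem_FS]
      refine ⟨by rw [Finset.card_image_of_injective _ hx2, Finset.card_univ, Fintype.card_fin], ?_⟩
      rw [Finset.sum_image fun i _ j _ hij => hx2 hij]
      exact hx3
    obtain ⟨σ, hσ⟩ := perm_of_image (x := x) (y := en h ⟨_, hS⟩) hx2 fun i =>
      en_surj h ⟨_, hS⟩ (Finset.mem_image_of_mem x (Finset.mem_univ i))
    have h3 : v.1 (en h ⟨_, hS⟩) = 0 := congrFun hv ⟨_, hS⟩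
    rw [← hσ, v.2.1, h3, mul_zero] at hx1
    exact hx1 rfl
  have h2 : Function.Surjective Φ := by
    intro g
    have hval : ∀ S S' : {S : Finset κ // S ∈ FS h k Λ}, Es (F := F) (en h S) (en h S') = if S = S' then 1 else 0 := by
      intro S S'
      by_cases hSS : S = S'
      · rw [if_pos hSS, hSS, Es_self (en_inj h S')]
      · rw [if_neg hSS]
        by_contra h3
        obtain ⟨σ, hσ⟩ := Es_ne h3
        apply hSS
        apply Subtype.ext
        apply Finset.eq_of_subset_of_card_le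
        · intro p hp
          obtain ⟨i, rfl⟩ := en_surj h S hp
          rw [← hσ]
          exact en_mem h S' _
        · rw [((mem_FS k h).1 S.2).1, ((mem_FS k h).1 S'.2).1]
    refine ⟨⟨∑ S, g S • Es (en h S), ?_, ?_⟩, ?_⟩
    · exact al_sum _ _ fun S _ => (al_Es _).smul _
    · intro x hx
      rw [Finset.sum_apply]
      refine Finset.sum_eq_zero fun S _ => ?_
      rw [Pi.smul_apply, smul_eq_mul]
      by_cases h3 : Es (F := F) (en h S) x = 0
      · rw [h3, mul_zero]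
      · exfalso
        obtain ⟨σ, hσ⟩ := Es_ne h3
        apply hx
        rw [← lev_perm h σ, hσ, lev_en]
        exact ((mem_FS k h).1 S.2).2
    · funext S'
      change (∑ S, g S • Es (en h S)) (en h S') = g S'
      rw [Finset.sum_apply, Finset.sum_eq_single S']
      · rw [Pi.smul_apply, hval, if_pos rfl, smul_eq_mul, mul_one]
      · intro S _ hS
        rw [Pi.smul_apply, hval, if_neg hS, smul_zero]
      · intro hh
        exact absurd (Finset.mem_univ _) hh
  rw [LinearEquiv.finrank_eq (LinearEquiv.ofBijective Φ ⟨h1, h2⟩), finrank_fintype_fun_eq_card, Fintype.card_coe]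

end

section

variable {ι : Type*} [Fintype ι] [DecidableEq ι] {k : ℕ} {ε : ι → ℤ} {h : ι × Bool → ℤ}

theorem ct_mem {F : Type*} [Field F] [CharZero F] (hb : ∀ p, h (bar p) = -h p) {Λ : Set ℤ}
    {v : (Fin (k + 2) → ι × Bool) → F} (hv : v ∈ AQ F (k + 2) h Λ) : ct ε v ∈ AQ F k h Λ := by
  refine ⟨hv.1.ct, fun z hz => ?_⟩
  rw [ct]
  refine Finset.sum_eq_zero fun p _ => ?_
  rw [hv.2, mul_zero]
  rw [lev_cons, lev_cons, hb]
  simpa using hz

theorem cr_supp {F : Type*} [Field F] [CharZero F] {Λ Λ' : Set ℤ} {b : ι × Bool}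
    (hl : ∀ l, l ∈ Λ → l + h b ∈ Λ') {u : (Fin k → ι × Bool) → F} (hu : ∀ z, lev h z ∉ Λ → u z = 0) (x : Fin (k + 1) → ι × Bool)
    (hx : lev h x ∉ Λ') : cr b u x = 0 := by
  have h1 : ∀ z : Fin k → ι × Bool, lev h z + h b = lev h x → u z = 0 := by
    intro z hz
    apply hu
    intro h2
    apply hx
    rw [← hz]
    exact hl _ h2
  rw [cr]
  have h2 : (if x 0 = b then u (Fin.tail x) else 0) = 0 := by
    split_ifs with h3
    · apply h1
      conv_rhs => rw [← Fin.cons_self_tail x, lev_cons]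
      rw [h3, add_comm]
    · rfl
  rw [h2, zero_sub, neg_eq_zero]
  refine Finset.sum_eq_zero fun j _ => ?_
  split_ifs with h3
  · apply h1
    have h4 := lev_perm h (Equiv.swap 0 j.succ) x
    rw [cons_comp_swap, lev_cons, h3] at h4
    rw [← h4, add_comm]
  · rfl

theorem Lf_mem {F : Type*} [Field F] [CharZero F] (hb : ∀ p, h (bar p) = -h p) {Λ : Set ℤ}
    {v : (Fin k → ι × Bool) → F} (hv : v ∈ AQ F k h Λ) : Lf ε v ∈ AQ F (k + 2) h Λ := by
  refine ⟨hv.1.Lf, fun x hx => ?_⟩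
  rw [Lf, Finset.sum_apply]
  refine Finset.sum_eq_zero fun p _ => ?_
  rw [Pi.smul_apply]
  have h1 : cr p (cr (bar p) v) x = 0 := by
    refine cr_supp (Λ := {l | l + h p ∈ Λ}) (Λ' := Λ) (fun l hl => hl) ?_ x hx
    intro z hz
    refine cr_supp (Λ := Λ) (Λ' := {l | l + h p ∈ Λ}) (fun l hl => ?_) hv.2 z hz
    change l + h (bar p) + h p ∈ Λ
    rw [hb]
    simpa using hl
  rw [h1, smul_zero]

/-- the contraction is surjective -/
theorem ct_surj (hε : ∀ a, ε a * ε a = 1) (hb : ∀ p, h (bar p) = -h p) (hk : k + 2 < Fintype.card ι) {Λ : Set ℤ}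
    {v : (Fin (k + 2) → ι × Bool) → ℚ} (hv : v ∈ AQ ℚ (k + 2) h Λ) : ∃ u ∈ AQ ℚ (k + 2 + 2) h Λ, ct ε u = v := by
  let T : AQ ℚ (k + 2) h Λ →ₗ[ℚ] AQ ℚ (k + 2) h Λ := (ctL ε ∘ₗ LfL ε).restrict (fun v hv => by
    rw [LinearMap.comp_apply, LfL_apply, ctL_apply]
    exact ct_mem hb (Lf_mem hb hv))
  have hT : Function.Injective T := by
    rw [injective_iff_map_eq_zero]
    intro v hv
    have h1 : ct ε (Lf ε v.1) = 0 := by
      have := congrArg Subtype.val hv
      simpa [T, LinearMap.restrict_apply, LfL_apply, ctL_apply] using this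
    rw [ct_Lf hε v.2.1] at h1
    have h2 := congrArg (fun X => X ⬝ᵥ v.1) h1
    simp only [add_dotProduct, smul_dotProduct, zero_dotProduct, smul_eq_mul] at h2
    rw [adj_Lf _ v.2.1] at h2
    have h3 : (0 : ℚ) ≤ ct ε v.1 ⬝ᵥ ct ε v.1 := Finset.sum_nonneg fun i _ => mul_self_nonneg _
    have h4 : (0 : ℚ) ≤ v.1 ⬝ᵥ v.1 := Finset.sum_nonneg fun i _ => mul_self_nonneg _
    have h5 : (0 : ℚ) < 4 * ((Fintype.card ι : ℚ) - (k + 2)) := by
      have : ((k + 2 : ℕ) : ℚ) < (Fintype.card ι : ℚ) := by exact_mod_cast hk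
      push_cast at this
      linarith
    have h6 : v.1 ⬝ᵥ v.1 = 0 := by
      have h7 : (0 : ℚ) ≤ ((k : ℚ) + 1) * (k + 2) * (ct ε v.1 ⬝ᵥ ct ε v.1) := by positivity
      have h8 : 4 * ((Fintype.card ι : ℚ) - (k + 2)) * (v.1 ⬝ᵥ v.1) ≤ 0 := by linarith
      by_contra h9
      have h10 : 0 < v.1 ⬝ᵥ v.1 := lt_of_le_of_ne h4 (Ne.symm h9)
      have := mul_pos h5 h10
      linarith
    apply Subtype.ext
    exact dotProduct_self_eq_zero.1 h6
  obtain ⟨w, hw⟩ := LinearMap.injective_iff_surjective.1 hT ⟨v, hv⟩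
  refine ⟨Lf ε w.1, Lf_mem hb w.2, ?_⟩
  have := congrArg Subtype.val hw
  simpa [T, LinearMap.restrict_apply, LfL_apply, ctL_apply] using this

variable (F : Type*) [Field F] [CharZero F]

variable (k ε h) in
/-- the primitive alternating tensors with levels in `Λ` -/
def VQ (Λ : Set ℤ) : Submodule F ((Fin (k + 2) → ι × Bool) → F) := AQ F (k + 2) h Λ ⊓ LinearMap.ker (ctL ε)

variable {F} in
theorem mem_VQ {Λ : Set ℤ} {v : (Fin (k + 2) → ι × Bool) → F} :
    v ∈ VQ k ε h F Λ ↔ (Al v ∧ ∀ x, lev h x ∉ Λ → v x = 0) ∧ ct ε v = 0 := by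
  rw [VQ, Submodule.mem_inf, LinearMap.mem_ker, ctL_apply]
  rfl

theorem finrank_VQ (hε : ∀ a, ε a * ε a = 1) (hb : ∀ p, h (bar p) = -h p) (hk : k + 2 < Fintype.card ι) (Λ : Set ℤ) :
    finrank ℚ (VQ (k + 2) ε h ℚ Λ) + (FS h (k + 2) Λ).card = (FS h (k + 2 + 2) Λ).card := by
  let T : AQ ℚ (k + 2 + 2) h Λ →ₗ[ℚ] AQ ℚ (k + 2) h Λ := (ctL ε).restrict (fun v hv => by
    rw [ctL_apply]
    exact ct_mem hb hv)
  have hT : LinearMap.range T = ⊤ := by
    rw [LinearMap.range_eq_top]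
    intro v
    obtain ⟨u, hu, h1⟩ := ct_surj hε hb hk v.2
    refine ⟨⟨u, hu⟩, Subtype.ext ?_⟩
    rw [LinearMap.coe_restrict_apply, ctL_apply]
    exact h1
  have h1 := LinearMap.finrank_range_add_finrank_ker T
  rw [hT, finrank_top, finrank_AQ, finrank_AQ] at h1
  have h2 : finrank ℚ (LinearMap.ker T) = finrank ℚ (VQ (k + 2) ε h ℚ Λ) := by
    refine LinearEquiv.finrank_eq (LinearEquiv.ofBijective (LinearMap.codRestrict (VQ (k + 2) ε h ℚ Λ)
      ((AQ ℚ (k + 2 + 2) h Λ).subtype ∘ₗ (LinearMap.ker T).subtype) ?_) ⟨?_, ?_⟩)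
    · intro v
      refine ⟨v.1.2, ?_⟩
      have h3 := congrArg Subtype.val (LinearMap.mem_ker.1 v.2)
      rw [LinearMap.coe_restrict_apply] at h3
      exact h3
    · intro v u hvu
      have h3 := congrArg Subtype.val hvu
      exact Subtype.ext (Subtype.ext h3)
    · intro v
      refine ⟨⟨⟨v.1, v.2.1⟩, ?_⟩, rfl⟩
      rw [LinearMap.mem_ker]
      apply Subtype.ext
      rw [LinearMap.coe_restrict_apply]
      exact v.2.2
  rw [h2] at h1
  omega

end

end S524
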