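import Pool.Agent.Helper24.S5.Bas
import Pool.Agent.Helper2.C9.Eng

/-!
Sharpness of the list of exceptional Hodge numbers (MP_b8862a_ag), primitive exterior powers of the quaternionic type:
the linear map of the engine.
-/

set_option linter.unusedSectionVars false

open Matrix Module MH MH.QS94

namespace S524

section

variable {n : Type*} [Fintype n] [DecidableEq n] {T : Matrix n n ℚ}

theorem ut_add (X Y : Matrix n n ℂ) : ut T (X + Y) = ut T X + ut T Y := by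
  simp only [ut, mul_add, add_mul]

theorem ut_sub (X Y : Matrix n n ℂ) : ut T (X - Y) = ut T X - ut T Y := by
  simp only [ut, mul_sub, sub_mul]

theorem ut_smul (c : ℂ) (X : Matrix n n ℂ) : ut T (c • X) = c • ut T X := by
  simp only [ut, mul_smul_comm, smul_mul_assoc]

end

variable {ι : Type*} [Fintype ι] [DecidableEq ι] {k m : ℕ}
  {B : Matrix (Fin m) (Fin (k + 2) → ι × Bool) ℚ} {C : Matrix (Fin (k + 2) → ι × Bool) (Fin m) ℚ}

variable (B C) in
/-- the second factor of the linear map -/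
noncomputable def G2 : Matrix (ι × Bool) (ι × Bool) ℂ →ₗ[ℂ] Matrix (Fin (k + 2) → ι × Bool) (Fin (k + 2) → ι × Bool) ℂ where
  toFun A := tw (TT (k + 2) ι) (Dk A) * toC (C * B)
  map_add' X Y := by rw [Dk_add, tw_add, Matrix.add_mul]
  map_smul' c X := by rw [Dk_smul, tw_smul, Matrix.smul_mul, RingHom.id_apply]

variable (B C) in
/-- the first factor of the linear map -/
noncomputable def G1 (o : ι) :
    Matrix (Fin (k + 2) → ι × Bool) (Fin (k + 2) → ι × Bool) ℂ →ₗ[ℂ] Matrix (ι × Bool) (ι × Bool) ℂ where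
  toFun X := Pi ℂ (k + 2) (eo o) (ut (TT (k + 2) ι) (toC (C * B) * X * toC (C * B)))
  map_add' X Y := by rw [Matrix.mul_add, Matrix.add_mul, ut_add, map_add]
  map_smul' c X := by rw [Matrix.mul_smul, Matrix.smul_mul, ut_smul, map_smul, RingHom.id_apply]

variable (B C) in
/-- the linear map -/
noncomputable def FL (o : ι) : Matrix (Fin (k + 2) → ι × Bool) (Fin (k + 2) → ι × Bool) ℂ →ₗ[ℂ]
    Matrix (Fin (k + 2) → ι × Bool) (Fin (k + 2) → ι × Bool) ℂ := (G2 B C) ∘ₗ (G1 B C o)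

theorem G2_apply (A : Matrix (ι × Bool) (ι × Bool) ℂ) :
    G2 B C A = tw (TT (k + 2) ι) (Dk A) * toC (C * B) := rfl

theorem FL_apply (o : ι) (X : Matrix (Fin (k + 2) → ι × Bool) (Fin (k + 2) → ι × Bool) ℂ) :
    FL B C o X = tw (TT (k + 2) ι) (Dk (Pi ℂ (k + 2) (eo o) (ut (TT (k + 2) ι) (toC (C * B) * X * toC (C * B))))) * toC (C * B) :=
  rfl

theorem FL_rank (o : ι) : finrank ℂ (LinearMap.range (FL B C o)) ≤ (Fintype.card (ι × Bool)) ^ 2 := by
  have h1 : LinearMap.range (FL B C o) ≤ LinearMap.range (G2 B C) := LinearMap.range_comp_le_range _ _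
  refine (Submodule.finrank_mono h1).trans ((LinearMap.finrank_range_le _).trans ?_)
  rw [Module.finrank_matrix, Module.finrank_self, mul_one, sq]

variable {o : ι} (J : Pj (eo o) B C)

theorem PiDk_QI {Y : Matrix (Fin k → ι × Bool) (Fin k → ι × Bool) ℂ} (h : QI Y) :
    QI (Dk (Pi ℂ k (eo o) Y) : Matrix (Fin k → ι × Bool) (Fin k → ι × Bool) ℂ) := by
  obtain ⟨A1, A2, rfl⟩ := h
  have h1 : ∀ A : Matrix (Fin k → ι × Bool) (Fin k → ι × Bool) ℚ,
      (Dk (Pi ℂ k (eo o) (toC A)) : Matrix (Fin k → ι × Bool) (Fin k → ι × Bool) ℂ) = toC (Dk (Pi ℚ k (eo o) A)) := by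
    intro A
    rw [toC, toC, Dk_map, Pi_map]
  refine ⟨Dk (Pi ℚ k (eo o) A1), Dk (Pi ℚ k (eo o) A2), ?_⟩
  rw [map_add, map_smul, Dk_add, Dk_smul, h1, h1]

theorem PiDk_Tr (hk : Even k) {Y : Matrix (Fin k → ι × Bool) (Fin k → ι × Bool) ℂ} (h : Tr (TT k ι) Y) :
    Tr (TT k ι) (Dk (Pi ℂ k (eo o) Y)) := by
  have h1 : (Dk (Pi ℂ k (eo o) Y) : Matrix (Fin k → ι × Bool) (Fin k → ι × Bool) ℂ).map (starRingEnd ℂ) =
      Dk (Pi ℂ k (eo o) (Y.map (starRingEnd ℂ))) := by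
    rw [Dk_map, Pi_map]
  rw [Tr] at h ⊢
  rw [h1, toC_TT, Dk_pm hk, ← Pi_pm hk, ← toC_TT, h]

include J

theorem FL_rat (hk : Even (k + 2)) (A : Matrix (Fin (k + 2) → ι × Bool) (Fin (k + 2) → ι × Bool) ℚ) :
    ∃ D : Matrix (Fin (k + 2) → ι × Bool) (Fin (k + 2) → ι × Bool) ℚ, FL B C o (toC A) = toC D := by
  have hT := TT_sq (ι := ι) hk
  obtain ⟨Y, hY⟩ : ∃ Y, Y = ut (TT (k + 2) ι) (toC (C * B) * toC A * toC (C * B)) := ⟨_, rfl⟩
  have h1 : QI Y := by
    rw [hY]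
    exact (((QI.of_rat _).mul (QI.of_rat _)).mul (QI.of_rat _)).ut
  have h2 : Tr (TT (k + 2) ι) Y := by
    rw [hY]
    apply ut_real hT
    rw [Matrix.map_mul, Matrix.map_mul, toC_conj', toC_conj']
  have h3 : QI (FL B C o (toC A)) := by
    rw [FL_apply, ← hY]
    exact (PiDk_QI h1).tw.mul (QI.of_rat _)
  exact h3.rat (by rw [FL_apply, ← hY, Matrix.map_mul, (PiDk_Tr hk h2).tw_conj hT, toC_conj'])

theorem e_tw {A : Matrix (ι × Bool) (ι × Bool) ℂ} (hA : Sp (eo o) A) :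
    toC (C * B) * tw (TT (k + 2) ι) (Dk A) = tw (TT (k + 2) ι) (Dk A) * toC (C * B) := by
  rw [← e_mul_tw J.eT, ← tw_mul_e J.eT, J.eDk hA]

theorem good_tw (hk : Even (k + 2)) {A : Matrix (ι × Bool) (ι × Bool) ℂ} (hA : Sp (eo o) A) :
    C9.Good (QQ (k + 2) o) (C * B) (FL B C o) (tw (TT (k + 2) ι) (Dk A) * toC (C * B)) := by
  have hT := TT_sq (ι := ι) hk
  obtain ⟨X, hX⟩ : ∃ X, X = tw (TT (k + 2) ι) (Dk A) := ⟨_, rfl⟩
  obtain ⟨e, he⟩ : ∃ e, e = toC (C * B) := ⟨_, rfl⟩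
  have h1 : e * X = X * e := by
    rw [hX, he]
    exact e_tw J hA
  have h2 : e * e = e := by
    rw [he]
    exact J.ee'
  have h3 : e * X * e = X * e := by rw [h1, Matrix.mul_assoc, h2]
  rw [← hX]
  refine ⟨?_, ?_, fun Y => ?_⟩
  · rw [← he, Matrix.mul_assoc, h2, ← Matrix.mul_assoc, h3]
  · rw [Matrix.transpose_mul, J.es, Matrix.mul_assoc, hX, skew_tw hk o hA, ← hX, ← he, Matrix.mul_neg, ← Matrix.mul_assoc e,
      he, J.eQ, ← he, Matrix.mul_assoc, h1]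
    simp
  · rw [← he, FL_apply, FL_apply, ← he]
    obtain ⟨W, hW⟩ : ∃ W, W = ut (TT (k + 2) ι) (e * Y * e) := ⟨_, rfl⟩
    have h4 : ut (TT (k + 2) ι) (e * (X * e * Y - Y * (X * e)) * e) = Dk A * W - W * Dk A := by
      have h5 : e * (X * e * Y - Y * (X * e)) * e = X * (e * Y * e) - (e * Y * e) * X := by
        rw [Matrix.mul_sub, Matrix.sub_mul]
        congr 1
        · calc e * (X * e * Y) * e = (e * X * e) * Y * e := by simp only [Matrix.mul_assoc]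
            _ = _ := by rw [h3]; simp only [Matrix.mul_assoc]
        · calc e * (Y * (X * e)) * e = e * Y * (X * (e * e)) := by simp only [Matrix.mul_assoc]
            _ = _ := by rw [h2, ← h1]; simp only [Matrix.mul_assoc]
      rw [h5, ut_sub, ← ut_mul hT X (e * Y * e), ← ut_mul hT (e * Y * e) X, ← hW, hX, ut_tw hT]
    rw [h4, Pi_bracket (eo_sq o) hA, ← Dk_bracket, tw_sub, ← tw_mul hT, ← tw_mul hT, ← hX, ← hW]
    have h6 := e_tw J (sp_Pi (eo_sq o) W)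
    obtain ⟨Z, hZ⟩ : ∃ Z, Z = tw (TT (k + 2) ι) (Dk (Pi ℂ (k + 2) (eo o) W)) := ⟨_, rfl⟩
    rw [← hZ, ← he] at h6
    rw [← hZ, Matrix.sub_mul]
    congr 1
    · calc X * Z * e = X * (Z * e * e) := by rw [Matrix.mul_assoc Z, h2, Matrix.mul_assoc]
        _ = X * (e * Z * e) := by rw [h6]
        _ = _ := by simp only [Matrix.mul_assoc]
    · calc Z * X * e = Z * (e * X * e) := by rw [h3, Matrix.mul_assoc]
        _ = _ := by simp only [Matrix.mul_assoc]

theorem PB_sub : PB B C o 2 - PB B C o 0 = tw (TT (k + 2) ι) (Dk (Hm ℂ o)) * toC (C * B) := by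
  rw [PB, PB, ← tw_sub, ← Matrix.sub_mul]
  have h1 := El_e_sub J
  norm_num
  rw [h1, tw_mul_e J.eT]

theorem PB_add_sq (hk : Even (k + 2)) : (PB B C o 2 + PB B C o 0).trace =
    ((Dk (Hm ℂ o) : Matrix (Fin (k + 2) → ι × Bool) (Fin (k + 2) → ι × Bool) ℂ) * (Dk (Hm ℂ o) * toC (C * B))).trace := by
  have hT := TT_sq (ι := ι) hk
  rw [PB, PB, ← tw_add, tw_trace hT, ← Matrix.add_mul]
  congr 1
  norm_num
  ext x y
  rw [Matrix.add_mul, Matrix.add_apply, El, El, diagonal_mul, diagonal_mul, Hm, Dk_diagonal, diagonal_mul, diagonal_mul]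
  have h1 : ∑ i, ((h0 o (x i) : ℤ) : ℂ) = ((lev (h0 o) x : ℤ) : ℂ) := by
    rw [lev]
    push_cast
    rfl
  rw [h1]
  by_cases h : toC (C * B) x y = 0
  · rw [h]
    simp
  · rcases lev_cases o (J.inj h) with h4 | h4 | h4 <;> rw [h4] <;> simp

theorem FL_H (hk : Even (k + 2)) (h2 : PB B C o 2 ≠ 0) :
    ∃ c : ℂ, c ≠ 0 ∧ FL B C o (PB B C o 2 - PB B C o 0) = c • (PB B C o 2 - PB B C o 0) := by
  have hT := TT_sq (ι := ι) hk
  have hH := sp_Hm (F := ℂ) (eo_sq o) o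
  obtain ⟨D, hD⟩ : ∃ D : Matrix (Fin (k + 2) → ι × Bool) (Fin (k + 2) → ι × Bool) ℂ, D = Dk (Hm ℂ o) := ⟨_, rfl⟩
  have hDe : toC (C * B) * D = D * toC (C * B) := by
    rw [hD]
    exact J.eDk hH
  obtain ⟨G, hG⟩ : ∃ G, G = Pi ℂ (k + 2) (eo o) (D * toC (C * B)) := ⟨_, rfl⟩
  have h3 : G = G (o, false) (o, false) • Hm ℂ o := by
    refine center_Hm (eo_sq o) o (by rw [hG]; exact sp_Pi (eo_sq o) _) fun A hA hAH => ?_
    have h4 := Pi_bracket (k := k + 2) (eo_sq o) hA (D * toC (C * B))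
    have h5 : (Dk A : Matrix (Fin (k + 2) → ι × Bool) (Fin (k + 2) → ι × Bool) ℂ) * (D * toC (C * B)) -
        D * toC (C * B) * Dk A = 0 := by
      have h6 := Dk_bracket (k := k + 2) A (Hm ℂ o)
      rw [hAH, sub_self, Dk_zero, sub_eq_zero, ← hD] at h6
      rw [← Matrix.mul_assoc, h6, Matrix.mul_assoc D (toC (C * B)), J.eDk hA, Matrix.mul_assoc, sub_self]
    rw [h5, map_zero, ← hG] at h4
    exact (sub_eq_zero.1 h4.symm)
  obtain ⟨c, hc⟩ : ∃ c, c = G (o, false) (o, false) := ⟨_, rfl⟩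
  rw [← hc] at h3
  refine ⟨c, ?_, ?_⟩
  · intro h0
    rw [h0, zero_smul] at h3
    have h4 := Pi_sp (k := k + 2) hH (D * toC (C * B))
    rw [← hG, h3, Matrix.mul_zero, Matrix.trace_zero, hD, ← PB_add_sq J hk] at h4
    have h5 : (PB B C o 2 + PB B C o 0).trace = 0 := by
      have h6 := h4.symm
      exact (mul_eq_zero.1 h6).resolve_left two_ne_zero
    have hb := big J hk
    have h6 : (PB B C o 2 + PB B C o 0) * (PB B C o 2 + PB B C o 0) = PB B C o 2 + PB B C o 0 := by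
      rw [Matrix.add_mul, Matrix.mul_add, Matrix.mul_add, hb.mul, hb.mul, hb.mul, hb.mul]
      norm_num
    have h7 : IsIdempotentElem (Matrix.toLin' (PB B C o 2 + PB B C o 0)) := by
      rw [IsIdempotentElem, Module.End.mul_eq_comp, ← Matrix.toLin'_mul, h6]
    have h8 := (LinearMap.IsIdempotentElem.trace_eq_zero_iff h7).1 (by rw [Matrix.trace_toLin'_eq, h5])
    have h9 : PB B C o 2 + PB B C o 0 = 0 := by
      have := congrArg LinearMap.toMatrix' h8
      simpa using this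
    apply h2
    have h10 : PB B C o 2 * (PB B C o 2 + PB B C o 0) = PB B C o 2 := by
      rw [Matrix.mul_add, hb.mul, hb.mul]
      norm_num
    rw [← h10, h9, Matrix.mul_zero]
  · rw [PB_sub J, FL_apply, ← hD]
    have h4 : toC (C * B) * (tw (TT (k + 2) ι) D * toC (C * B)) * toC (C * B) = tw (TT (k + 2) ι) D * toC (C * B) := by
      rw [Matrix.mul_assoc, Matrix.mul_assoc, J.ee', hD, ← Matrix.mul_assoc, e_tw J hH, Matrix.mul_assoc, J.ee']
    rw [h4, ut_mul_e J.eT, ut_tw hT, ← hG, h3, Dk_smul, tw_smul, Matrix.smul_mul, hD]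

end S524
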