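import Pool.Agent.Helper24.S5.FL

/-!
Sharpness of the list of exceptional Hodge numbers (MP_b8862a_ag), primitive exterior powers of the quaternionic type:
the commutant of the base point and the Lie algebra.
-/

set_option linter.unusedSectionVars false

open Matrix Module MH MH.QS94

namespace S524

section

variable {F : Type*} [Field F] [CharZero F] {ι : Type*} [Fintype ι] [DecidableEq ι] {ε : ι → ℤ}

theorem single_mul_apply' {κ : Type*} [Fintype κ] [DecidableEq κ] (M : Matrix κ κ F) (p r s t : κ) :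
    (Matrix.single p r (1 : F) * M) s t = if s = p then M r t else 0 := by
  rw [Matrix.mul_apply, Finset.sum_eq_single r]
  · rw [Matrix.single_apply]
    by_cases h : s = p
    · rw [if_pos h, if_pos ⟨h.symm, rfl⟩, one_mul]
    · rw [if_neg h, if_neg (fun hh => h hh.1.symm), zero_mul]
  · intro u _ hu
    rw [Matrix.single_apply, if_neg (fun hh => hu hh.2.symm), zero_mul]
  · intro h
    exact absurd (Finset.mem_univ _) h

theorem mul_single_apply' {κ : Type*} [Fintype κ] [DecidableEq κ] (M : Matrix κ κ F) (p r s t : κ) :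
    (M * Matrix.single p r (1 : F)) s t = if t = r then M s p else 0 := by
  rw [Matrix.mul_apply, Finset.sum_eq_single p]
  · rw [Matrix.single_apply]
    by_cases h : t = r
    · rw [if_pos h, if_pos ⟨rfl, h.symm⟩, mul_one]
    · rw [if_neg h, if_neg (fun hh => h hh.2.symm), mul_zero]
  · intro u _ hu
    rw [Matrix.single_apply, if_neg (fun hh => hu hh.1.symm), mul_zero]
  · intro h
    exact absurd (Finset.mem_univ _) h

/-- the root vectors as brackets -/
theorem Ue_bracket (hε : ∀ a, ε a * ε a = 1) {p q r : ι × Bool} (hp : p.1 ≠ r.1) (hq : q.1 ≠ r.1) :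
    Ue ε F p r * Ue ε F r q - Ue ε F r q * Ue ε F p r = Ue ε F p q - (if p = q then Ue ε F r r else 0) := by
  have h1 : th ε (Ue ε F r q) = Ue ε F r q := sp_iff.1 (sp_Ue hε r q)
  obtain ⟨M, hM⟩ : ∃ M, M = Ue ε F r q := ⟨_, rfl⟩
  have h2 : Matrix.single p r (1 : F) * M - M * Matrix.single p r (1 : F) =
      Matrix.single p q (1 : F) - (if p = q then Matrix.single r r (1 : F) else 0) := by
    ext s t
    rw [Matrix.sub_apply, single_mul_apply', mul_single_apply', hM, Matrix.sub_apply, Matrix.single_apply]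
    have e1 : Ue ε F r q r t = if t = q then 1 else 0 := by
      rw [Ue, if_neg (c := r = bar q ∧ t = bar r) (fun hh => hq (by rw [hh.1]; rfl))]
      simp
    have e2 : Ue ε F r q s p = if s = r ∧ p = q then 1 else 0 := by
      rw [Ue, if_neg (c := s = bar q ∧ p = bar r) (fun hh => hp (by rw [hh.2]; rfl))]
      ring
    rw [e1, e2]
    have c1 : (p = s ∧ q = t) ↔ (s = p ∧ t = q) := ⟨fun h => ⟨h.1.symm, h.2.symm⟩, fun h => ⟨h.1.symm, h.2.symm⟩⟩
    have c2 : (r = s ∧ r = t) ↔ (t = r ∧ s = r) := ⟨fun h => ⟨h.2.symm, h.1.symm⟩, fun h => ⟨h.2.symm, h.1.symm⟩⟩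
    by_cases hpq : p = q
    · rw [if_pos hpq, Matrix.single_apply]
      simp only [c1, c2, ite_and, if_pos hpq]
    · rw [if_neg hpq, Matrix.zero_apply]
      simp only [c1, ite_and, if_neg hpq, ite_self]
  rw [← hM] at h1 ⊢
  have h3 : th ε (Matrix.single p r (1 : F) * M - M * Matrix.single p r (1 : F)) =
      th ε (Matrix.single p r (1 : F)) * M - M * th ε (Matrix.single p r (1 : F)) := by
    rw [th_bracket hε, h1]
  have h4 : Ue ε F p r * M - M * Ue ε F p r = (Matrix.single p r (1 : F) * M - M * Matrix.single p r (1 : F)) +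
      th ε (Matrix.single p r (1 : F) * M - M * Matrix.single p r (1 : F)) := by
    rw [h3, Ue_eq, add_mul, mul_add]
    abel
  have th_sub : ∀ X Y : Matrix (ι × Bool) (ι × Bool) F, th ε (X - Y) = th ε X - th ε Y := by
    intro X Y
    rw [sub_eq_add_neg, ← neg_one_smul F, th_add, th_smul, neg_one_smul, ← sub_eq_add_neg]
  rw [h4, h2, th_sub, Ue_eq p q]
  by_cases hpq : p = q
  · rw [if_pos hpq, if_pos hpq, Ue_eq r r]
    abel
  · rw [if_neg hpq, if_neg hpq]
    have h5 : th ε (0 : Matrix (ι × Bool) (ι × Bool) F) = 0 := by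
      have := th_smul (ε := ε) (0 : F) (0 : Matrix (ι × Bool) (ι × Bool) F)
      rwa [zero_smul, zero_smul] at this
    rw [h5]
    abel

theorem Ue_diag (hε : ∀ a, ε a * ε a = 1) (p : ι × Bool) : Ue ε F p p = (h0 p.1 p : F) • Hm F p.1 := by
  ext s t
  rw [Ue, wzF_sq hε, Matrix.smul_apply, Hm, diagonal_apply, smul_eq_mul]
  by_cases h1 : s = t
  · subst h1
    rw [if_pos rfl]
    simp only [and_self]
    by_cases h2 : s = p
    · subst h2
      rw [if_pos rfl, if_neg (bar_ne s).symm]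
      have h3 : h0 s.1 s * h0 s.1 s = 1 := by
        rw [h0, if_pos rfl]
        split_ifs <;> norm_num
      have h4 : ((h0 s.1 s : ℤ) : F) * ((h0 s.1 s : ℤ) : F) = 1 := by exact_mod_cast congrArg (Int.cast : ℤ → F) h3
      rw [h4]
      ring
    · rw [if_neg h2]
      by_cases h3 : s = bar p
      · subst h3
        rw [if_pos rfl, h0_bar]
        have h3 : h0 p.1 p * h0 p.1 p = 1 := by
          rw [h0, if_pos rfl]
          split_ifs <;> norm_num
        have h4 : ((h0 p.1 p : ℤ) : F) * ((h0 p.1 p : ℤ) : F) = 1 := by exact_mod_cast congrArg (Int.cast : ℤ → F) h3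
        push_cast
        linear_combination h4
      · rw [if_neg h3]
        have h4 : h0 p.1 s = 0 := by
          rw [h0, if_neg]
          intro h5
          exact h3 (eq_bar h5 h2)
        rw [h4]
        push_cast
        ring
  · rw [if_neg h1, if_neg (fun hh => h1 (by rw [hh.1, hh.2])), if_neg (fun hh => h1 (by rw [hh.1, hh.2]))]
    ring

end

variable {ι : Type*} [Fintype ι] [DecidableEq ι] {k m : ℕ}
  {B : Matrix (Fin m) (Fin (k + 2) → ι × Bool) ℚ} {C : Matrix (Fin (k + 2) → ι × Bool) (Fin m) ℚ} {o : ι}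
  (J : Pj (eo o) B C)

section

variable {b : Matrix (Fin (k + 2) → ι × Bool) (Fin (k + 2) → ι × Bool) ℂ}

variable (b) in
/-- `b` commutes with the action of `A` -/
def Cc (A : Matrix (ι × Bool) (ι × Bool) ℂ) : Prop := b * Dk A = Dk A * b

theorem Cc.smul {A : Matrix (ι × Bool) (ι × Bool) ℂ} (h : Cc b A) (c : ℂ) : Cc b (c • A) := by
  rw [Cc, Dk_smul, Matrix.mul_smul, Matrix.smul_mul, h]

theorem Cc.add {A A' : Matrix (ι × Bool) (ι × Bool) ℂ} (h : Cc b A) (h' : Cc b A') : Cc b (A + A') := by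
  rw [Cc, Dk_add, Matrix.mul_add, Matrix.add_mul, h, h']

theorem Cc.sum {α : Type*} (s : Finset α) (f : α → Matrix (ι × Bool) (ι × Bool) ℂ) (h : ∀ a ∈ s, Cc b (f a)) :
    Cc b (∑ a ∈ s, f a) := by
  rw [Cc, Dk_sum, Finset.mul_sum, Finset.sum_mul]
  exact Finset.sum_congr rfl fun a ha => h a ha

theorem Cc.bracket {A A' : Matrix (ι × Bool) (ι × Bool) ℂ} (h : Cc b A) (h' : Cc b A') : Cc b (A * A' - A' * A) := by
  rw [Cc] at h h' ⊢
  rw [← Dk_bracket, Matrix.mul_sub, Matrix.sub_mul]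
  congr 1
  · rw [← Matrix.mul_assoc, h, Matrix.mul_assoc, h', Matrix.mul_assoc]
  · rw [← Matrix.mul_assoc, h', Matrix.mul_assoc, h, Matrix.mul_assoc]

theorem Cc.of_smul {A : Matrix (ι × Bool) (ι × Bool) ℂ} {c : ℂ} (hc : c ≠ 0) (h : Cc b (c • A)) : Cc b A := by
  have h1 := h.smul c⁻¹
  rwa [smul_smul, inv_mul_cancel₀ hc, one_smul] at h1

theorem Cc.all (h1 : Cc b (Hm ℂ o)) (h2 : ∀ A, Sp (eo o) A → Cc b (A * Hm ℂ o - Hm ℂ o * A))
    {A : Matrix (ι × Bool) (ι × Bool) ℂ} (hA : Sp (eo o) A) : Cc b A := by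
  have h3 : ∀ p q : ι × Bool, h0 o p ≠ h0 o q → Cc b (Ue (eo o) ℂ p q) := by
    intro p q hpq
    have h4 := h2 _ (sp_Ue (F := ℂ) (eo_sq o) p q)
    have h5 : Ue (eo o) ℂ p q * Hm ℂ o - Hm ℂ o * Ue (eo o) ℂ p q = ((h0 o q : ℂ) - (h0 o p : ℂ)) • Ue (eo o) ℂ p q := by
      have h6 := Hm_Ue (F := ℂ) (ε := eo o) o p q
      rw [← neg_sub, h6, ← neg_smul, neg_sub]
    rw [h5] at h4
    refine Cc.of_smul ?_ h4
    rw [sub_ne_zero]
    exact_mod_cast hpq.symm
  have h4 : ∀ p q : ι × Bool, Cc b (Ue (eo o) ℂ p q) := by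
    intro p q
    by_cases hpq : h0 o p = h0 o q
    · by_cases hp : p.1 = o
      · have hq : p = q := by
          obtain ⟨a, c⟩ := p
          obtain ⟨a', c'⟩ := q
          simp only at hp
          subst hp
          by_cases h5 : a' = a
          · subst h5
            cases c <;> cases c' <;> simp [h0] at hpq ⊢
          · exfalso
            cases c <;> simp [h0, h5] at hpq
        rw [← hq, Ue_diag (eo_sq o), hp]
        exact h1.smul _
      · have hq : q.1 ≠ o := by
          intro h5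
          rw [h0, if_neg hp, h0, if_pos h5] at hpq
          split_ifs at hpq
          simp at hpq
        have h5 := Ue_bracket (F := ℂ) (eo_sq o) (p := p) (q := q) (r := (o, false)) hp hq
        have h6 : h0 o p = 0 := by rw [h0, if_neg hp]
        have h7 : h0 o q = 0 := by rw [h0, if_neg hq]
        have h8 : h0 o (o, false) = 1 := by simp [h0]
        have h9 := (h3 p (o, false) (by rw [h6, h8]; norm_num)).bracket (h3 (o, false) q (by rw [h7, h8]; norm_num))
        rw [h5] at h9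
        by_cases h10 : p = q
        · rw [if_pos h10] at h9
          have h11 : Cc b (Ue (eo o) ℂ (o, false) (o, false)) := by
            rw [Ue_diag (eo_sq o)]
            exact h1.smul _
          have h12 := h9.add h11
          rwa [sub_add_cancel] at h12
        · rwa [if_neg h10, sub_zero] at h9
    · exact h3 p q hpq
  have h5 : Cc b (A + th (eo o) A) := by
    rw [← sum_Ue]
    exact Cc.sum _ _ fun p _ => Cc.sum _ _ fun q _ => (h4 p q).smul _
  rw [sp_iff.1 hA, ← two_smul ℂ] at h5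
  exact Cc.of_smul two_ne_zero h5

end

include J in
/-- **The commutant.** -/
theorem hcom (hk : Even (k + 2)) (hc : k + 2 ≤ Fintype.card ι) (b : Matrix (Fin (k + 2) → ι × Bool) (Fin (k + 2) → ι × Bool) ℂ)
    (he : toC (C * B) * b * toC (C * B) = b) (hP : ∀ p, b * PB B C o p = PB B C o p * b)
    (hX : ∀ X, C9.Good (QQ (k + 2) o) (C * B) (FL B C o) X →
      ∀ p, b * (X * PB B C o p - PB B C o p * X) = (X * PB B C o p - PB B C o p * X) * b) :
    ∃ c : ℂ, b = c • toC (C * B) := by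
  have hT := TT_sq (ι := ι) hk
  have hH := sp_Hm (F := ℂ) (eo_sq o) o
  obtain ⟨e, hee⟩ : ∃ e, e = toC (C * B) := ⟨_, rfl⟩
  rw [← hee] at he
  have e2 : e * e = e := by rw [hee]; exact J.ee'
  obtain ⟨b', hb'⟩ : ∃ b', b' = ut (TT (k + 2) ι) b := ⟨_, rfl⟩
  have hb : b = tw (TT (k + 2) ι) b' := by rw [hb', tw_ut hT]
  have eb : e * b = b := by
    rw [← he, ← Matrix.mul_assoc, ← Matrix.mul_assoc, e2]
  have be : b * e = b := by
    conv_lhs => rw [← he]
    rw [Matrix.mul_assoc, e2, he]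
  have eb' : e * b' = b' := by
    rw [hb', hee, ← e_mul_ut J.eT, ← hee, eb]
  have be' : b' * e = b' := by
    rw [hb', hee, ← ut_mul_e J.eT, ← hee, be]
  -- from commutation of `b` to commutation of `b'`
  have key : ∀ A, Sp (eo o) A → b * (tw (TT (k + 2) ι) (Dk A) * e) = (tw (TT (k + 2) ι) (Dk A) * e) * b → Cc b' A := by
    intro A hA h
    have h1 : tw (TT (k + 2) ι) (Dk A) * e = e * tw (TT (k + 2) ι) (Dk A) := by
      rw [hee]
      exact (e_tw J hA).symm
    have h2 : b * tw (TT (k + 2) ι) (Dk A) = tw (TT (k + 2) ι) (Dk A) * b := by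
      calc b * tw (TT (k + 2) ι) (Dk A) = (b * e) * tw (TT (k + 2) ι) (Dk A) := by rw [be]
        _ = b * (tw (TT (k + 2) ι) (Dk A) * e) := by rw [h1, Matrix.mul_assoc]
        _ = tw (TT (k + 2) ι) (Dk A) * (e * b) := by rw [h, Matrix.mul_assoc]
        _ = _ := by rw [eb]
    have h3 := congrArg (ut (TT (k + 2) ι)) h2
    rw [← ut_mul hT, ← ut_mul hT, ut_tw hT, ← hb'] at h3
    exact h3
  have h1 : Cc b' (Hm ℂ o) := by
    apply key _ hH
    have h2 := PB_sub J
    rw [← hee] at h2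
    rw [← h2, Matrix.mul_sub, Matrix.sub_mul, hP, hP]
  have h2 : ∀ A, Sp (eo o) A → Cc b' (A * Hm ℂ o - Hm ℂ o * A) := by
    intro A hA
    have h3 : Sp (eo o) (A * Hm ℂ o - Hm ℂ o * A) := by
      rw [sp_iff, th_bracket (eo_sq o), sp_iff.1 hA, sp_iff.1 hH]
    apply key _ h3
    have h4 := good_tw J hk hA
    obtain ⟨X, hX'⟩ : ∃ X, X = tw (TT (k + 2) ι) (Dk A) * toC (C * B) := ⟨_, rfl⟩
    rw [← hX'] at h4
    have h5 : X * (PB B C o 2 - PB B C o 0) - (PB B C o 2 - PB B C o 0) * X =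
        tw (TT (k + 2) ι) (Dk (A * Hm ℂ o - Hm ℂ o * A)) * e := by
      rw [PB_sub J, hX', ← hee, ← Dk_bracket, tw_sub, ← tw_mul hT, ← tw_mul hT, Matrix.sub_mul]
      have h6 := e_tw J hA
      have h7 := e_tw J hH
      rw [← hee] at h6 h7
      obtain ⟨Y, hY⟩ : ∃ Y, Y = tw (TT (k + 2) ι) (Dk A) := ⟨_, rfl⟩
      obtain ⟨Z, hZ⟩ : ∃ Z, Z = tw (TT (k + 2) ι) (Dk (Hm ℂ o)) := ⟨_, rfl⟩
      rw [← hY] at h6 ⊢
      rw [← hZ] at h7 ⊢
      congr 1
      · calc Y * e * (Z * e) = Y * (e * Z) * e := by simp only [Matrix.mul_assoc]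
          _ = Y * Z * (e * e) := by rw [h7]; simp only [Matrix.mul_assoc]
          _ = _ := by rw [e2]
      · calc Z * e * (Y * e) = Z * (e * Y) * e := by simp only [Matrix.mul_assoc]
          _ = Z * Y * (e * e) := by rw [h6]; simp only [Matrix.mul_assoc]
          _ = _ := by rw [e2]
    rw [← h5]
    have h6 : X * (PB B C o 2 - PB B C o 0) - (PB B C o 2 - PB B C o 0) * X =
        (X * PB B C o 2 - PB B C o 2 * X) - (X * PB B C o 0 - PB B C o 0 * X) := by
      rw [Matrix.mul_sub, Matrix.sub_mul]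
      abel
    rw [h6, Matrix.mul_sub, Matrix.sub_mul, hX X h4 2, hX X h4 0]
  have hCm : Cm (eo o) (Matrix.mulVecLin b') := by
    have h3 : ∀ v, Al (Matrix.mulVecLin b' v) ∧ ct (eo o) (Matrix.mulVecLin b' v) = 0 := by
      intro v
      rw [Matrix.mulVecLin_apply, J.memC]
      change toC (C * B) *ᵥ (b' *ᵥ v) = b' *ᵥ v
      rw [← hee, Matrix.mulVec_mulVec, eb']
    refine ⟨fun v _ _ => (h3 v).1, fun v _ _ => (h3 v).2, fun A hA v _ _ => ?_⟩
    rw [Matrix.mulVecLin_apply, Matrix.mulVecLin_apply, Matrix.mulVec_mulVec, Matrix.mulVec_mulVec, Cc.all h1 h2 hA]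
  obtain ⟨c, hc'⟩ := hCm.scalar (eo_sq o) hc
  refine ⟨c, ?_⟩
  have h3 : b' = c • e := by
    rw [← be']
    apply Matrix.toLin'.injective
    ext1 i
    ext1
    simp only [LinearMap.comp_apply, LinearMap.single_apply, Matrix.toLin'_apply]
    obtain ⟨u, hu⟩ : ∃ u, u = e *ᵥ (Pi.single i (1 : ℂ)) := ⟨_, rfl⟩
    have h4 : e *ᵥ u = u := by rw [hu, Matrix.mulVec_mulVec, e2]
    have h5 := (J.memC u).2 (by rw [hee] at h4; exact h4)
    have h6 := hc' u h5.1 h5.2
    rw [Matrix.mulVecLin_apply] at h6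
    rw [← Matrix.mulVec_mulVec, Matrix.smul_mulVec, ← hu, h6]
  rw [hb, h3, tw_smul, hee, tw_of_comm hT J.eT.symm]

end S524
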