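import Pool.Agent.Helper24.S5.Mat

/-!
Sharpness of the list of exceptional Hodge numbers (MP_b8862a_ag), primitive exterior powers of the quaternionic type:
the quaternionic structure, the polarisation; matrices that preserve the primitive tensors.
-/

set_option linter.unusedSectionVars false

open Matrix Module

namespace S524

variable {F : Type*} [Field F] [CharZero F] {ι : Type*} [Fintype ι] [DecidableEq ι] {k : ℕ} {ε : ι → ℤ}

/-- the sign -/
def sg (p : ι × Bool) : ℤ := if p.2 then -1 else 1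

theorem sg_bar (p : ι × Bool) : sg (bar p) = -sg p := by
  obtain ⟨a, b⟩ := p
  cases b <;> simp [sg, bar]

theorem sg_sq (p : ι × Bool) : sg p * sg p = 1 := by
  obtain ⟨a, b⟩ := p
  cases b <;> simp [sg]

theorem wz_sg (p : ι × Bool) : wz ε p * sg p = ε p.1 := by
  obtain ⟨a, b⟩ := p
  cases b <;> simp [wz, sg]

variable (F) in
/-- the quaternionic structure -/
def pm : Matrix (ι × Bool) (ι × Bool) F := fun s t => if s = bar t then (sg t : F) else 0

variable (F ε) in
/-- the symplectic form -/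
def Om : Matrix (ι × Bool) (ι × Bool) F := fun s t => if t = bar s then (wz ε s : F) else 0

variable (F ε) in
/-- the signs of the polarisation -/
def De : Matrix (ι × Bool) (ι × Bool) F := diagonal fun p => (ε p.1 : F)

theorem mul_pm (M : Matrix (ι × Bool) (ι × Bool) F) (s t : ι × Bool) : (M * pm F : Matrix (ι × Bool) (ι × Bool) F) s t = M s (bar t) * (sg t : F) := by
  rw [Matrix.mul_apply, Finset.sum_eq_single (bar t)]
  · rw [pm, if_pos rfl]
  · intro u _ hu
    rw [pm, if_neg hu, mul_zero]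
  · intro h
    exact absurd (Finset.mem_univ _) h

theorem pm_mul (M : Matrix (ι × Bool) (ι × Bool) F) (s t : ι × Bool) : (pm F * M : Matrix (ι × Bool) (ι × Bool) F) s t = -((sg s : F) * M (bar s) t) := by
  rw [Matrix.mul_apply, Finset.sum_eq_single (bar s)]
  · rw [pm, if_pos (bar_bar s).symm, sg_bar]
    push_cast
    ring
  · intro u _ hu
    rw [pm, if_neg (fun h => hu (by rw [h, bar_bar])), zero_mul]
  · intro h
    exact absurd (Finset.mem_univ _) h

theorem mul_Om (M : Matrix (ι × Bool) (ι × Bool) F) (s t : ι × Bool) :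
    (M * Om F ε : Matrix (ι × Bool) (ι × Bool) F) s t = -(M s (bar t) * (wz ε t : F)) := by
  rw [Matrix.mul_apply, Finset.sum_eq_single (bar t)]
  · rw [Om, if_pos (bar_bar t).symm, wz_bar]
    push_cast
    ring
  · intro u _ hu
    rw [Om, if_neg (fun h => hu (by rw [h, bar_bar])), mul_zero]
  · intro h
    exact absurd (Finset.mem_univ _) h

theorem Om_mul (M : Matrix (ι × Bool) (ι × Bool) F) (s t : ι × Bool) : (Om F ε * M : Matrix (ι × Bool) (ι × Bool) F) s t = (wz ε s : F) * M (bar s) t := by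
  rw [Matrix.mul_apply, Finset.sum_eq_single (bar s)]
  · rw [Om, if_pos rfl]
  · intro u _ hu
    rw [Om, if_neg hu, zero_mul]
  · intro h
    exact absurd (Finset.mem_univ _) h

theorem pm_sq : pm F * pm F = (-1 : Matrix (ι × Bool) (ι × Bool) F) := by
  ext s t
  rw [mul_pm, Matrix.neg_apply, Matrix.one_apply, pm]
  have h1 : (sg t : F) * (sg t : F) = 1 := by exact_mod_cast congrArg (Int.cast : ℤ → F) (sg_sq t)
  by_cases h : s = t
  · rw [if_pos h, if_pos (by rw [h, bar_bar]), sg_bar]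
    push_cast
    linear_combination -h1
  · rw [if_neg h, if_neg (fun hh => h (by rw [hh, bar_bar]))]
    ring

theorem pm_transpose : (pm F)ᵀ = -(pm F : Matrix (ι × Bool) (ι × Bool) F) := by
  ext s t
  rw [Matrix.transpose_apply, Matrix.neg_apply, pm, pm]
  by_cases h : t = bar s
  · rw [if_pos h, if_pos (by rw [h, bar_bar]), h, sg_bar]
    push_cast
    ring
  · rw [if_neg h, if_neg (fun hh => h (by rw [hh, bar_bar])), neg_zero]

theorem Om_transpose : (Om F ε)ᵀ = -Om F ε := by
  ext s t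
  rw [Matrix.transpose_apply, Matrix.neg_apply, Om, Om]
  by_cases h : s = bar t
  · rw [if_pos h, if_pos (by rw [h, bar_bar]), h, wz_bar]
    push_cast
    ring
  · rw [if_neg h, if_neg (fun hh => h (by rw [hh, bar_bar])), neg_zero]

theorem De_transpose : (De F ε)ᵀ = De F ε := by rw [De, Matrix.diagonal_transpose]

theorem Om_sq (hε : ∀ a, ε a * ε a = 1) : Om F ε * Om F ε = -1 := by
  ext s t
  rw [mul_Om, Matrix.neg_apply, Matrix.one_apply, Om]
  by_cases h : s = t
  · rw [if_pos h, if_pos (by rw [h]), h, wzF_sq hε]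
  · rw [if_neg h, if_neg (fun hh => h (bar_inj hh).symm)]
    ring

theorem Om_pm : Om F ε * pm F = De F ε := by
  ext s t
  rw [mul_pm, De, Matrix.diagonal_apply, Om]
  by_cases h : s = t
  · rw [if_pos h, if_pos (by rw [h]), h, ← wz_sg (ε := ε) t]
    push_cast
    ring
  · rw [if_neg h, if_neg (fun hh => h (bar_inj hh).symm), zero_mul]

theorem pm_Om : pm F * Om F ε = De F ε := by
  have h1 := congrArg Matrix.transpose (Om_pm (F := F) (ε := ε))
  rw [Matrix.transpose_mul, Om_transpose, pm_transpose, De_transpose, neg_mul_neg] at h1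
  exact h1

theorem De_sq (hε : ∀ a, ε a * ε a = 1) : De F ε * De F ε = 1 := by
  rw [De, Matrix.diagonal_mul_diagonal, ← Matrix.diagonal_one]
  congr 1
  funext p
  exact_mod_cast congrArg (Int.cast : ℤ → F) (hε p.1)

theorem De_pm : De F ε * pm F = -Om F ε := by
  rw [← Om_pm, Matrix.mul_assoc, pm_sq, mul_neg, mul_one]

theorem pm_De : pm F * De F ε = -Om F ε := by
  rw [← pm_Om, ← Matrix.mul_assoc, pm_sq, neg_mul, one_mul]

/-- the matrices that preserve the symplectic form -/
structure Pr (ε : ι → ℤ) (g : Matrix (ι × Bool) (ι × Bool) F) : Prop where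
  l : gᵀ * Om F ε * g = Om F ε
  r : g * Om F ε * gᵀ = Om F ε

theorem pr_pm : Pr ε (pm F) := by
  constructor
  · rw [pm_transpose, Matrix.mul_assoc, Om_pm, neg_mul, pm_De, neg_neg]
  · rw [pm_transpose, pm_Om, mul_neg, De_pm, neg_neg]

theorem pr_De (hε : ∀ a, ε a * ε a = 1) : Pr ε (De F ε) := by
  have h1 : De F ε * Om F ε * De F ε = Om F ε := by
    calc De F ε * Om F ε * De F ε = pm F * Om F ε * Om F ε * (pm F * Om F ε) := by rw [pm_Om]
      _ = pm F * (Om F ε * Om F ε) * pm F * Om F ε := by simp only [Matrix.mul_assoc]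
      _ = _ := by rw [Om_sq hε, mul_neg, mul_one, neg_mul, pm_sq, neg_neg, one_mul]
  exact ⟨by rw [De_transpose, h1], by rw [De_transpose, h1]⟩

/-- the Lie algebra of the symplectic form -/
def th (ε : ι → ℤ) (M : Matrix (ι × Bool) (ι × Bool) F) : Matrix (ι × Bool) (ι × Bool) F := Om F ε * Mᵀ * Om F ε

theorem th_apply (M : Matrix (ι × Bool) (ι × Bool) F) (p q : ι × Bool) :
    th ε M p q = -((wz ε p : F) * (wz ε q : F) * M (bar q) (bar p)) := by
  rw [th, mul_Om, Om_mul, Matrix.transpose_apply]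
  ring

theorem sp_iff {A : Matrix (ι × Bool) (ι × Bool) F} : Sp ε A ↔ th ε A = A := by
  constructor
  · intro h
    ext p q
    rw [th_apply, ← h p q]
  · intro h p q
    rw [← th_apply, h]

theorem Sp.transpose {A : Matrix (ι × Bool) (ι × Bool) F} (h : Sp ε A) : Sp ε Aᵀ := by
  intro p q
  rw [Matrix.transpose_apply, Matrix.transpose_apply, h q p]
  ring

theorem Sp.om (hε : ∀ a, ε a * ε a = 1) {A : Matrix (ι × Bool) (ι × Bool) F} (h : Sp ε A) : Aᵀ * Om F ε = -(Om F ε * A) := by
  have h1 := sp_iff.1 h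
  conv_rhs => rw [← h1, th, ← Matrix.mul_assoc, ← Matrix.mul_assoc, Om_sq hε]
  rw [neg_mul, one_mul, neg_mul, neg_neg]

theorem Al.Tg {v : (Fin k → ι × Bool) → F} (h : Al v) (g : Matrix (ι × Bool) (ι × Bool) F) :
    Al ((Tg g : Matrix (Fin k → ι × Bool) (Fin k → ι × Bool) F) *ᵥ v) := by
  intro σ x
  rw [Matrix.mulVec, dotProduct, Matrix.mulVec, dotProduct, Finset.mul_sum,
    ← Equiv.sum_comp (Equiv.arrowCongr σ.symm (Equiv.refl (ι × Bool)))]
  refine Finset.sum_congr rfl fun y _ => ?_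
  have h1 : (Equiv.arrowCongr σ.symm (Equiv.refl (ι × Bool))) y = y ∘ σ := by
    funext i
    simp [Equiv.arrowCongr]
  rw [h1, h]
  have h2 : (S524.Tg g : Matrix (Fin k → ι × Bool) (Fin k → ι × Bool) F) (x ∘ σ) (y ∘ σ) = S524.Tg g x y := by
    simp only [S524.Tg, Tw, Function.comp_apply]
    exact Equiv.prod_comp σ fun i => g (x i) (y i)
  rw [h2]
  ring

theorem ct_Tg {g : Matrix (ι × Bool) (ι × Bool) F} (h : gᵀ * Om F ε * g = Om F ε) (v : (Fin (k + 2) → ι × Bool) → F) :
    ct ε ((Tg g : Matrix (Fin (k + 2) → ι × Bool) (Fin (k + 2) → ι × Bool) F) *ᵥ v) =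
      (Tg g : Matrix (Fin k → ι × Bool) (Fin k → ι × Bool) F) *ᵥ ct ε v := by
  funext z
  have h1 : ∀ p, ((Tg g : Matrix (Fin (k + 2) → ι × Bool) (Fin (k + 2) → ι × Bool) F) *ᵥ v) (Fin.cons p (Fin.cons (bar p) z)) =
      ∑ s, ∑ t, ∑ y : Fin k → ι × Bool, g p s * g (bar p) t * (Tg g : Matrix (Fin k → ι × Bool) (Fin k → ι × Bool) F) z y *
        v (Fin.cons s (Fin.cons t y)) := by
    intro p
    rw [Matrix.mulVec, dotProduct, ← Equiv.sum_comp (Fin.consEquiv fun _ : Fin (k + 2) => ι × Bool), Fintype.sum_prod_type]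
    refine Finset.sum_congr rfl fun s _ => ?_
    rw [← Equiv.sum_comp (Fin.consEquiv fun _ : Fin (k + 1) => ι × Bool), Fintype.sum_prod_type]
    refine Finset.sum_congr rfl fun t _ => Finset.sum_congr rfl fun y _ => ?_
    change (∏ i, g ((Fin.cons p (Fin.cons (bar p) z) : Fin (k + 2) → ι × Bool) i)
      ((Fin.cons s (Fin.cons t y) : Fin (k + 2) → ι × Bool) i)) * v (Fin.cons s (Fin.cons t y)) = _
    rw [Fin.prod_univ_succ, Fin.prod_univ_succ]
    simp only [Fin.cons_zero, Fin.cons_succ]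
    rw [S524.Tg, Tw]
    ring
  have h2 : ∀ s t, ∑ p, (wz ε p : F) * (g p s * g (bar p) t) = if t = bar s then (wz ε s : F) else 0 := by
    intro s t
    have h3 := congrFun (congrFun h s) t
    rw [Matrix.mul_assoc, Matrix.mul_apply] at h3
    have h4 : Om F ε s t = if t = bar s then (wz ε s : F) else 0 := rfl
    rw [← h4, ← h3]
    refine Finset.sum_congr rfl fun p _ => ?_
    rw [Om_mul, Matrix.transpose_apply]
    ring
  rw [ct]
  simp only [h1]
  calc ∑ p, (wz ε p : F) * ∑ s, ∑ t, ∑ y : Fin k → ι × Bool, g p s * g (bar p) t *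
        (Tg g : Matrix (Fin k → ι × Bool) (Fin k → ι × Bool) F) z y * v (Fin.cons s (Fin.cons t y)) =
      ∑ s, ∑ t, ∑ y : Fin k → ι × Bool, (∑ p, (wz ε p : F) * (g p s * g (bar p) t)) *
        ((Tg g : Matrix (Fin k → ι × Bool) (Fin k → ι × Bool) F) z y * v (Fin.cons s (Fin.cons t y))) := by
        simp only [Finset.mul_sum, Finset.sum_mul]
        rw [Finset.sum_comm]
        refine Finset.sum_congr rfl fun s _ => ?_
        rw [Finset.sum_comm]
        refine Finset.sum_congr rfl fun t _ => ?_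
        rw [Finset.sum_comm]
        refine Finset.sum_congr rfl fun y _ => Finset.sum_congr rfl fun p _ => ?_
        ring
    _ = ∑ s, ∑ y : Fin k → ι × Bool, (wz ε s : F) *
        ((Tg g : Matrix (Fin k → ι × Bool) (Fin k → ι × Bool) F) z y * v (Fin.cons s (Fin.cons (bar s) y))) := by
        refine Finset.sum_congr rfl fun s _ => ?_
        simp only [h2]
        rw [Finset.sum_eq_single (bar s)]
        · simp only [if_true]
        · intro t _ ht
          refine Finset.sum_eq_zero fun y _ => ?_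
          rw [if_neg ht, zero_mul]
        · intro hh
          exact absurd (Finset.mem_univ _) hh
    _ = _ := by
        rw [Finset.sum_comm, Matrix.mulVec, dotProduct]
        refine Finset.sum_congr rfl fun y _ => ?_
        rw [ct, Finset.mul_sum]
        refine Finset.sum_congr rfl fun s _ => ?_
        ring

section

variable {m : ℕ} {B : Matrix (Fin m) (Fin (k + 2) → ι × Bool) ℚ} {C : Matrix (Fin (k + 2) → ι × Bool) (Fin m) ℚ}
  (J : Pj ε B C)

include J

theorem Pj.ee : rcc (C * B) * rcc (C * B) = rcc (C * B) := by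
  rw [← rcc_mul, Matrix.mul_assoc, ← Matrix.mul_assoc B, J.bc, Matrix.one_mul]

theorem Pj.comm_Dk (hε : ∀ a, ε a * ε a = 1) {A : Matrix (ι × Bool) (ι × Bool) ℂ} (hA : Sp ε A) :
    rcc (C * B) * Dk A = Dk A * rcc (C * B) := by
  refine J.comm (fun v h1 h2 => ⟨h1.Dk _, ?_⟩) (fun v h1 h2 => ?_)
  · rw [ct_Dk hε hA, h2, Matrix.mulVec_zero]
  · rw [Dk_transpose]
    exact ⟨h1.Dk _, by rw [ct_Dk hε hA.transpose, h2, Matrix.mulVec_zero]⟩

theorem Pj.comm_Tg {g : Matrix (ι × Bool) (ι × Bool) ℂ} (hg : Pr ε g) :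
    rcc (C * B) * Tg g = Tg g * rcc (C * B) := by
  refine J.comm (fun v h1 h2 => ⟨h1.Tg _, ?_⟩) (fun v h1 h2 => ?_)
  · rw [ct_Tg hg.l, h2, Matrix.mulVec_zero]
  · rw [Tg_transpose]
    exact ⟨h1.Tg _, by rw [ct_Tg (by rw [Matrix.transpose_transpose]; exact hg.r), h2, Matrix.mulVec_zero]⟩

end

end S524
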