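import Pool.Agent.Helper24.S5.Alt

/-!
Sharpness of the list of exceptional Hodge numbers (MP_b8862a_ag), primitive exterior powers of the quaternionic type:
the contraction with the symplectic form, the Lefschetz operator.
-/

set_option linter.unusedSectionVars false

open Matrix

namespace S524

variable {F : Type*} [Field F] [CharZero F] {ι : Type*} [Fintype ι] [DecidableEq ι] {k : ℕ}

/-- the partner -/
def bar (p : ι × Bool) : ι × Bool := (p.1, !p.2)

/-- the coefficients of the symplectic form -/
def wz (ε : ι → ℤ) (p : ι × Bool) : ℤ := if p.2 then -ε p.1 else ε p.1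

theorem bar_bar (p : ι × Bool) : bar (bar p) = p := by simp [bar]

theorem bar_ne (p : ι × Bool) : bar p ≠ p := by
  intro h
  have := congrArg Prod.snd h
  simp [bar] at this

theorem bar_fst (p : ι × Bool) : (bar p).1 = p.1 := rfl

theorem bar_inj {p q : ι × Bool} (h : bar p = bar q) : p = q := by rw [← bar_bar p, h, bar_bar]

theorem eq_bar {p q : ι × Bool} (h : p.1 = q.1) (hne : p ≠ q) : p = bar q := by
  obtain ⟨a, b⟩ := p
  obtain ⟨c, d⟩ := q
  simp only at h
  subst h
  simp only [bar, Prod.mk.injEq, true_and]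
  cases b <;> cases d <;> simp_all

/-- the involution -/
def barE : (ι × Bool) ≃ (ι × Bool) := ⟨bar, bar, bar_bar, bar_bar⟩

variable {ε : ι → ℤ}

theorem wz_bar (p : ι × Bool) : wz ε (bar p) = -wz ε p := by
  obtain ⟨a, b⟩ := p
  cases b <;> simp [wz, bar]

theorem wz_sq (hε : ∀ a, ε a * ε a = 1) (p : ι × Bool) : wz ε p * wz ε p = 1 := by
  obtain ⟨a, b⟩ := p
  cases b <;> simp [wz, hε]

theorem wzF_sq (hε : ∀ a, ε a * ε a = 1) (p : ι × Bool) : (wz ε p : F) * (wz ε p : F) = 1 := by
  exact_mod_cast congrArg (Int.cast : ℤ → F) (wz_sq hε p)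

variable (ε) in
/-- the contraction with the symplectic form -/
def ct (v : (Fin (k + 2) → ι × Bool) → F) : (Fin k → ι × Bool) → F :=
  fun z => ∑ p, (wz ε p : F) * v (Fin.cons p (Fin.cons (bar p) z))

variable (ε) in
/-- the Lefschetz operator -/
def Lf (v : (Fin k → ι × Bool) → F) : (Fin (k + 2) → ι × Bool) → F := ∑ p, (wz ε p : F) • cr p (cr (bar p) v)

variable (ε) in
/-- the Lie algebra of the symplectic form -/
def Sp (A : Matrix (ι × Bool) (ι × Bool) F) : Prop :=
  ∀ p q, A p q = -((wz ε p : F) * (wz ε q : F) * A (bar q) (bar p))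

theorem ct_eq (v : (Fin (k + 2) → ι × Bool) → F) : ct ε v = ∑ p, (wz ε p : F) • an (bar p) (an p v) := by
  funext z
  rw [Finset.sum_apply]
  rfl

variable (ε) in
/-- the contraction as a linear map -/
def ctL : ((Fin (k + 2) → ι × Bool) → F) →ₗ[F] ((Fin k → ι × Bool) → F) :=
  ∑ p, (wz ε p : F) • (anL (bar p) ∘ₗ anL p)

theorem ctL_apply (v : (Fin (k + 2) → ι × Bool) → F) : ctL ε v = ct ε v := by
  rw [ctL, LinearMap.sum_apply, ct_eq]
  rfl

variable (ε) in
/-- the Lefschetz operator as a linear map -/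
def LfL : ((Fin k → ι × Bool) → F) →ₗ[F] ((Fin (k + 2) → ι × Bool) → F) :=
  ∑ p, (wz ε p : F) • (crL p ∘ₗ crL (bar p))

theorem LfL_apply (v : (Fin k → ι × Bool) → F) : LfL ε v = Lf ε v := by
  rw [LfL, LinearMap.sum_apply, Lf]
  rfl

theorem Al.ct {v : (Fin (k + 2) → ι × Bool) → F} (h : Al v) : Al (ct ε v) := by
  rw [ct_eq]
  exact al_sum _ _ fun p _ => ((h.an p).an (bar p)).smul _

theorem Al.Lf {v : (Fin k → ι × Bool) → F} (h : Al v) : Al (Lf ε v) :=
  al_sum _ _ fun p _ => ((h.cr (bar p)).cr p).smul _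

/-- the contraction commutes with the Lie algebra of the symplectic form -/
theorem ct_Dk {A : Matrix (ι × Bool) (ι × Bool) F} (hε : ∀ a, ε a * ε a = 1) (hA : Sp ε A)
    (v : (Fin (k + 2) → ι × Bool) → F) : ct ε (Dk A *ᵥ v) = Dk A *ᵥ ct ε v := by
  funext z
  rw [Dk_mulVec]
  simp only [ct, Dk_mulVec]
  have h1 : ∀ p, (∑ i : Fin (k + 2), ∑ q, A ((Fin.cons p (Fin.cons (bar p) z) : Fin (k + 2) → ι × Bool) i) q *
      v (Function.update (Fin.cons p (Fin.cons (bar p) z)) i q)) =
      (∑ q, A p q * v (Fin.cons q (Fin.cons (bar p) z)) + ∑ q, A (bar p) q * v (Fin.cons p (Fin.cons q z))) +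
        ∑ i : Fin k, ∑ q, A (z i) q * v (Fin.cons p (Fin.cons (bar p) (Function.update z i q))) := by
    intro p
    rw [Fin.sum_univ_succ, Fin.sum_univ_succ]
    simp only [Fin.cons_zero, Fin.cons_succ, Fin.update_cons_zero, ← Fin.cons_update]
    ring
  simp only [h1, mul_add, Finset.sum_add_distrib]
  have h2 : ∑ p, (wz ε p : F) * ∑ q, A p q * v (Fin.cons q (Fin.cons (bar p) z)) +
      ∑ p, (wz ε p : F) * ∑ q, A (bar p) q * v (Fin.cons p (Fin.cons q z)) = 0 := by
    simp only [Finset.mul_sum]
    rw [Finset.sum_comm, ← Finset.sum_add_distrib]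
    refine Finset.sum_eq_zero fun p _ => ?_
    rw [← Equiv.sum_comp barE, ← Finset.sum_add_distrib]
    refine Finset.sum_eq_zero fun q _ => ?_
    change (wz ε (bar q) : F) * (A (bar q) p * v (Fin.cons p (Fin.cons (bar (bar q)) z))) +
      (wz ε p : F) * (A (bar p) q * v (Fin.cons p (Fin.cons q z))) = 0
    rw [bar_bar, hA (bar p) q, bar_bar, wz_bar, wz_bar]
    push_cast
    linear_combination (wz ε q : F) * A (bar q) p * v (Fin.cons p (Fin.cons q z)) * wzF_sq (F := F) hε p
  rw [h2, zero_add]
  simp only [Finset.mul_sum]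
  rw [Finset.sum_comm]
  refine Finset.sum_congr rfl fun i _ => ?_
  rw [Finset.sum_comm]
  refine Finset.sum_congr rfl fun q _ => Finset.sum_congr rfl fun p _ => ?_
  ring

/-- the commutator of the contraction and the Lefschetz operator -/
theorem ct_Lf (hε : ∀ a, ε a * ε a = 1) {v : (Fin (k + 2) → ι × Bool) → F} (h : Al v) :
    ct ε (Lf ε v) = (4 * ((Fintype.card ι : F) - (k + 2))) • v + Lf ε (ct ε v) := by
  have hsq : ∀ p : ι × Bool, (wz ε p : F) * (wz ε p : F) = 1 := wzF_sq hε
  have anL_apply : ∀ {j : ℕ} (b : ι × Bool) (u : (Fin (j + 1) → ι × Bool) → F), anL b u = an b u := fun _ _ => rfl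
  have crL_apply : ∀ {j : ℕ} (b : ι × Bool) (u : (Fin j → ι × Bool) → F), crL b u = cr b u := fun _ _ => rfl
  -- one term
  have h1 : ∀ p q : ι × Bool, an (bar p) (an p (cr q (cr (bar q) v))) =
      (if p = q then (v - cr (bar p) (an (bar p) v) - cr p (an p v)) else 0) -
      (if p = bar q then (v - cr (bar p) (an (bar p) v) - cr p (an p v)) else 0) +
      cr q (cr (bar q) (an (bar p) (an p v))) := by
    intro p q
    have a1 := car (h.cr (bar q)) q p
    have a2 := car h (bar q) p
    have a3 : an (bar p) (cr (bar q) v) = (if bar p = bar q then v else 0) - cr (bar q) (an (bar p) v) :=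
      car h (bar q) (bar p)
    have a4 := car h q (bar p)
    have a5 := car ((h.an p).cr (bar q)) q (bar p)
    have a6 := car (h.an p) (bar q) (bar p)
    rw [a1, a2]
    have b1 : cr q ((if p = bar q then v else 0) - cr (bar q) (an p v)) =
        (if p = bar q then cr q v else 0) - cr q (cr (bar q) (an p v)) := by
      have := map_sub (crL (F := F) q) (if p = bar q then v else 0) (cr (bar q) (an p v))
      rw [crL_apply, crL_apply, crL_apply] at this
      rw [this]
      congr 1
      split_ifs
      · rfl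
      · rw [← crL_apply, map_zero]
    rw [b1]
    have b2 : ∀ (X Y Z : (Fin (k + 3) → ι × Bool) → F), an (bar p) (X - (Y - Z)) =
        an (bar p) X - an (bar p) Y + an (bar p) Z := by
      intro X Y Z
      funext z
      simp only [an, Pi.sub_apply, Pi.add_apply]
      ring
    rw [b2, a5, a6]
    have b3 : an (bar p) (if p = q then cr (bar q) v else 0) = if p = q then v - cr (bar p) (an (bar p) v) else 0 := by
      by_cases hpq : p = q
      · rw [if_pos hpq, if_pos hpq, a3, if_pos (by rw [hpq]), hpq]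
      · rw [if_neg hpq, if_neg hpq]
        rfl
    have b4 : an (bar p) (if p = bar q then cr q v else 0) = if p = bar q then v - cr (bar p) (an (bar p) v) else 0 := by
      by_cases hpq : p = bar q
      · rw [if_pos hpq, if_pos hpq, a4, if_pos (by rw [hpq, bar_bar])]
        have : q = bar p := by rw [hpq, bar_bar]
        rw [this]
      · rw [if_neg hpq, if_neg hpq]
        rfl
    rw [b3, b4]
    have b5 : cr q ((if bar p = bar q then an p v else 0) - cr (bar q) (an (bar p) (an p v))) =
        (if p = q then cr p (an p v) else 0) - cr q (cr (bar q) (an (bar p) (an p v))) := by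
      have := map_sub (crL (F := F) q) (if bar p = bar q then an p v else 0) (cr (bar q) (an (bar p) (an p v)))
      rw [crL_apply, crL_apply, crL_apply] at this
      rw [this]
      congr 1
      by_cases hpq : p = q
      · rw [if_pos (by rw [hpq]), if_pos hpq, hpq]
      · rw [if_neg (fun hh => hpq (bar_inj hh)), if_neg hpq, ← crL_apply, map_zero]
    rw [b5]
    have b6 : (if bar p = q then cr (bar q) (an p v) else 0) = if p = bar q then cr p (an p v) else 0 := by
      by_cases hpq : p = bar q
      · rw [if_pos (by rw [hpq, bar_bar]), if_pos hpq, ← hpq]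
      · rw [if_neg (fun hh => hpq (by rw [← hh, bar_bar])), if_neg hpq]
    rw [b6]
    split_ifs <;> abel
  have h2 : ct ε (Lf ε v) = ∑ p, ∑ q, ((wz ε p : F) * (wz ε q : F)) • an (bar p) (an p (cr q (cr (bar q) v))) := by
    rw [ct_eq]
    refine Finset.sum_congr rfl fun p _ => ?_
    rw [Lf, ← anL_apply p, map_sum, ← anL_apply (bar p), map_sum, Finset.smul_sum]
    refine Finset.sum_congr rfl fun q _ => ?_
    rw [map_smul, map_smul, smul_smul]
    rfl
  rw [h2]
  have h3 : ∀ p, ∑ q, ((wz ε p : F) * (wz ε q : F)) • an (bar p) (an p (cr q (cr (bar q) v))) =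
      (2 : F) • (v - cr (bar p) (an (bar p) v) - cr p (an p v)) +
        (wz ε p : F) • Lf ε (an (bar p) (an p v)) := by
    intro p
    simp only [h1, smul_add, smul_sub, Finset.sum_add_distrib, Finset.sum_sub_distrib]
    have c1 : ∀ X : (Fin (k + 2) → ι × Bool) → F, (∑ q, ((wz ε p : F) * (wz ε q : F)) • (if p = q then X else 0)) = X := by
      intro X
      rw [Finset.sum_eq_single p]
      · rw [if_pos rfl, hsq, one_smul]
      · intro q _ hq
        rw [if_neg (Ne.symm hq), smul_zero]
      · intro hh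
        exact absurd (Finset.mem_univ _) hh
    have c2 : ∀ X : (Fin (k + 2) → ι × Bool) → F, (∑ q, ((wz ε p : F) * (wz ε q : F)) • (if p = bar q then X else 0)) = -X := by
      intro X
      rw [Finset.sum_eq_single (bar p)]
      · rw [if_pos (bar_bar p).symm, wz_bar]
        push_cast
        rw [mul_neg, hsq, neg_smul, one_smul]
      · intro q _ hq
        rw [if_neg (fun hh => hq (by rw [hh, bar_bar])), smul_zero]
      · intro hh
        exact absurd (Finset.mem_univ _) hh
    rw [c1, c2]
    have c3 : ∑ q, ((wz ε p : F) * (wz ε q : F)) • cr q (cr (bar q) (an (bar p) (an p v))) =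
        (wz ε p : F) • Lf ε (an (bar p) (an p v)) := by
      rw [Lf, Finset.smul_sum]
      refine Finset.sum_congr rfl fun q _ => ?_
      rw [smul_smul]
    rw [c3, two_smul]
    module
  rw [Finset.sum_congr rfl fun p _ => h3 p, Finset.sum_add_distrib, ← Finset.smul_sum, Finset.sum_sub_distrib,
    Finset.sum_sub_distrib]
  have h4 : ∑ p : ι × Bool, cr (bar p) (an (bar p) v) = ((k + 1 : ℕ) + 1 : F) • v := by
    rw [← num h]
    exact Equiv.sum_comp barE fun p => cr p (an p v)
  have h5 : ∑ p : ι × Bool, cr p (an p v) = ((k + 1 : ℕ) + 1 : F) • v := num h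
  have h6 : ∑ p : ι × Bool, (wz ε p : F) • Lf ε (an (bar p) (an p v)) = Lf ε (ct ε v) := by
    rw [ct_eq, ← LfL_apply, map_sum]
    refine Finset.sum_congr rfl fun p _ => ?_
    rw [map_smul, LfL_apply]
  rw [h4, h5, h6, Finset.sum_const, Finset.card_univ, Fintype.card_prod, Fintype.card_bool]
  congr 1
  rw [← Nat.cast_smul_eq_nsmul F]
  push_cast
  module

/-- the Lefschetz operator is adjoint to the contraction -/
theorem adj_Lf (v : (Fin k → ι × Bool) → F) {u : (Fin (k + 2) → ι × Bool) → F} (h : Al u) :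
    Lf ε v ⬝ᵥ u = ((k : F) + 1) * (k + 2) * (v ⬝ᵥ ct ε u) := by
  rw [Lf, sum_dotProduct, ct_eq, dotProduct_sum, Finset.mul_sum]
  refine Finset.sum_congr rfl fun p _ => ?_
  rw [smul_dotProduct, adj _ h, adj _ (h.an p), dotProduct_smul]
  simp only [smul_eq_mul]
  push_cast
  ring

end S524
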