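import Mathlib

/-!
Sharpness of the list of exceptional Hodge numbers (MP_b8862a_ag), primitive exterior powers of the quaternionic type:
the rational projection on the kernel of a rational matrix.
-/

set_option linter.unusedSectionVars false

open Matrix Module

namespace S524

variable {n p : Type*} [Fintype n] [DecidableEq n] [Fintype p] [DecidableEq p]

theorem exists_factor {V W U : Type*} [AddCommGroup V] [AddCommGroup W] [AddCommGroup U] [Module ℚ V] [Module ℚ W]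
    [Module ℚ U] (f : V →ₗ[ℚ] W) (g : V →ₗ[ℚ] U) (h : ∀ v, f v = 0 → g v = 0) : ∃ r : W →ₗ[ℚ] U, r ∘ₗ f = g := by
  obtain ⟨s, hs⟩ := f.rangeRestrict.exists_rightInverse_of_surjective f.range_rangeRestrict
  obtain ⟨r, hr⟩ := LinearMap.exists_extend (g ∘ₗ s)
  refine ⟨r, ?_⟩
  ext v
  rw [LinearMap.comp_apply]
  have h1 : r (f v) = g (s (f.rangeRestrict v)) := by
    have h2 := congrArg (fun X => X (f.rangeRestrict v)) hr
    simpa using h2
  rw [h1, ← sub_eq_zero, ← map_sub]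
  apply h
  rw [map_sub]
  have h3 := congrArg (fun X => X (f.rangeRestrict v)) hs
  have h4 : f (s (f.rangeRestrict v)) = f v := congrArg Subtype.val h3
  rw [h4, sub_self]

/-- the orthogonal projection `C * B` on the kernel of the rational matrix `M` -/
theorem exists_proj (M : Matrix p n ℚ) : ∃ (B : Matrix (Fin (finrank ℚ (LinearMap.ker M.mulVecLin))) n ℚ)
    (C : Matrix n (Fin (finrank ℚ (LinearMap.ker M.mulVecLin))) ℚ) (R : Matrix n p ℚ),
    B * C = 1 ∧ M * C = 0 ∧ (C * B)ᵀ = C * B ∧ 1 - C * B = R * M := by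
  obtain ⟨K, hK⟩ : ∃ K, K = LinearMap.ker M.mulVecLin := ⟨_, rfl⟩
  rw [← hK]
  let b := finBasis ℚ K
  let C : Matrix n (Fin (finrank ℚ K)) ℚ := fun i j => (b j : n → ℚ) i
  have hCv : ∀ u : Fin (finrank ℚ K) → ℚ, C *ᵥ u = ((∑ j, u j • b j : K) : n → ℚ) := by
    intro u
    funext i
    rw [Matrix.mulVec, dotProduct, Submodule.coe_sum, Finset.sum_apply]
    refine Finset.sum_congr rfl fun j _ => ?_
    rw [Submodule.coe_smul, Pi.smul_apply, smul_eq_mul, mul_comm]
  have hMC : M * C = 0 := by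
    ext i j
    have h1 : (b j : n → ℚ) ∈ LinearMap.ker M.mulVecLin := hK ▸ (b j).2
    have h2 := congrFun (LinearMap.mem_ker.1 h1) i
    exact h2
  have hinj : ∀ u, C *ᵥ u = 0 → u = 0 := by
    intro u hu
    rw [hCv] at hu
    have h1 : (∑ j, u j • b j : K) = 0 := Subtype.ext hu
    funext j
    exact Fintype.linearIndependent_iff.1 b.linearIndependent u h1 j
  have hG : IsUnit (Cᵀ * C).det := by
    rw [isUnit_iff_ne_zero]
    intro h1
    obtain ⟨u, hu, hu0⟩ := Matrix.exists_mulVec_eq_zero_iff.2 h1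
    apply hu
    apply hinj
    apply dotProduct_self_eq_zero.1
    rw [← Matrix.mulVec_mulVec] at hu0
    rw [Matrix.dotProduct_mulVec, ← Matrix.mulVec_transpose, hu0, zero_dotProduct]
  have hGt : (Cᵀ * C)ᵀ = Cᵀ * C := by rw [Matrix.transpose_mul, Matrix.transpose_transpose]
  have hBC : (Cᵀ * C)⁻¹ * Cᵀ * C = 1 := by rw [Matrix.mul_assoc, Matrix.nonsing_inv_mul _ hG]
  have hker : ∀ v, M.mulVecLin v = 0 → (1 - C * ((Cᵀ * C)⁻¹ * Cᵀ)).mulVecLin v = 0 := by
    intro v hv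
    have h1 : v ∈ K := by rw [hK]; exact hv
    obtain ⟨u, hu⟩ : ∃ u, C *ᵥ u = v := by
      refine ⟨fun j => b.repr ⟨v, h1⟩ j, ?_⟩
      rw [hCv, b.sum_repr]
    rw [Matrix.mulVecLin_apply, ← hu, Matrix.sub_mulVec, Matrix.one_mulVec, Matrix.mulVec_mulVec, Matrix.mul_assoc C,
      hBC, Matrix.mul_one, sub_self]
  obtain ⟨r, hr⟩ := exists_factor M.mulVecLin (1 - C * ((Cᵀ * C)⁻¹ * Cᵀ)).mulVecLin hker
  refine ⟨(Cᵀ * C)⁻¹ * Cᵀ, C, LinearMap.toMatrix' r, hBC, hMC, ?_, ?_⟩
  · rw [Matrix.transpose_mul, Matrix.transpose_mul, Matrix.transpose_transpose, Matrix.transpose_nonsing_inv, hGt,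
      Matrix.mul_assoc]
  · have h1 : (LinearMap.toMatrix' r * M).mulVecLin = (1 - C * ((Cᵀ * C)⁻¹ * Cᵀ)).mulVecLin := by
      rw [Matrix.mulVecLin_mul, ← Matrix.toLin'_apply', Matrix.toLin'_toMatrix', hr]
    apply Matrix.toLin'.injective
    rw [Matrix.toLin'_apply', Matrix.toLin'_apply', h1]

end S524
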