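import Pool.Agent.Helper24.S5.Sca
import Pool.Agent.Helper24.S5.Proj

/-!
Sharpness of the list of exceptional Hodge numbers (MP_b8862a_ag), primitive exterior powers of the quaternionic type:
the rational projection on the primitive tensors.
-/

set_option linter.unusedSectionVars false

open Matrix Module

namespace S524

section

variable (F : Type*) [Field F] [CharZero F] {κ : Type*} [Fintype κ] [DecidableEq κ] {k : ℕ}

/-- the antisymmetriser -/
noncomputable def Am : Matrix (Fin k → κ) (Fin k → κ) F := fun x y =>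
  (k.factorial : F)⁻¹ * ∑ σ : Equiv.Perm (Fin k), ((Equiv.Perm.sign σ : ℤ) : F) * (if y = x ∘ σ then 1 else 0)

variable {F}

theorem Am_mulVec (v : (Fin k → κ) → F) : Am F *ᵥ v = (k.factorial : F)⁻¹ • As v := by
  funext x
  rw [Pi.smul_apply, smul_eq_mul, Matrix.mulVec, dotProduct, As, Finset.mul_sum]
  simp only [Am, mul_assoc, ← Finset.mul_sum]
  congr 1
  simp only [Finset.sum_mul]
  rw [Finset.sum_comm]
  refine Finset.sum_congr rfl fun σ _ => ?_
  rw [Finset.sum_eq_single (x ∘ σ)]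
  · rw [if_pos rfl, mul_one]
  · intro y _ hy
    rw [if_neg hy, mul_zero, zero_mul]
  · intro h
    exact absurd (Finset.mem_univ _) h

theorem As_al {v : (Fin k → κ) → F} (h : Al v) : As v = (k.factorial : F) • v := by
  funext x
  rw [As, Pi.smul_apply, smul_eq_mul]
  have h1 : ∀ σ : Equiv.Perm (Fin k), ((Equiv.Perm.sign σ : ℤ) : F) * v (x ∘ σ) = v x := by
    intro σ
    rw [h, ← mul_assoc]
    rcases Int.units_eq_one_or (Equiv.Perm.sign σ) with h2 | h2 <;> rw [h2] <;> simp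
  rw [Finset.sum_congr rfl fun σ _ => h1 σ, Finset.sum_const, Finset.card_univ, Fintype.card_perm, Fintype.card_fin,
    nsmul_eq_mul]

theorem al_iff (v : (Fin k → κ) → F) : Al v ↔ (1 - Am F) *ᵥ v = 0 := by
  have h0 : (k.factorial : F) ≠ 0 := by exact_mod_cast k.factorial_ne_zero
  rw [Matrix.sub_mulVec, Matrix.one_mulVec, Am_mulVec, sub_eq_zero]
  constructor
  · intro h
    rw [As_al h, smul_smul, inv_mul_cancel₀ h0, one_smul]
  · intro h
    rw [h]
    exact (al_As v).smul _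

theorem Am_map {F' : Type*} [Field F'] [CharZero F'] (f : F →+* F') :
    (Am F : Matrix (Fin k → κ) (Fin k → κ) F).map f = Am F' := by
  ext x y
  simp only [Matrix.map_apply, Am, map_mul, map_inv₀, map_natCast, map_sum, map_intCast]
  congr 1
  refine Finset.sum_congr rfl fun σ _ => ?_
  split_ifs <;> simp

end

section

variable (F : Type*) [Field F] [CharZero F] {ι : Type*} [Fintype ι] [DecidableEq ι] {k : ℕ} (ε : ι → ℤ)

/-- the matrix of the contraction -/
def Ctm : Matrix (Fin k → ι × Bool) (Fin (k + 2) → ι × Bool) F := fun z y =>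
  ∑ p, (wz ε p : F) * (if y = Fin.cons p (Fin.cons (bar p) z) then 1 else 0)

/-- the equations of the primitive tensors -/
noncomputable def Mx : Matrix ((Fin (k + 2) → ι × Bool) ⊕ (Fin k → ι × Bool)) (Fin (k + 2) → ι × Bool) F :=
  Matrix.fromRows (1 - Am F) (Ctm F ε)

variable {F ε}

theorem Ctm_mulVec (v : (Fin (k + 2) → ι × Bool) → F) : Ctm F ε *ᵥ v = ct ε v := by
  funext z
  rw [Matrix.mulVec, dotProduct, ct]
  simp only [Ctm, Finset.sum_mul]
  rw [Finset.sum_comm]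
  refine Finset.sum_congr rfl fun p _ => ?_
  rw [Finset.sum_eq_single (Fin.cons p (Fin.cons (bar p) z))]
  · rw [if_pos rfl, mul_one]
  · intro y _ hy
    rw [if_neg hy, mul_zero, zero_mul]
  · intro h
    exact absurd (Finset.mem_univ _) h

theorem mem_Mx (v : (Fin (k + 2) → ι × Bool) → F) : (Al v ∧ ct ε v = 0) ↔ Mx F ε *ᵥ v = 0 := by
  rw [Mx, Matrix.fromRows_mulVec, Ctm_mulVec, al_iff]
  constructor
  · rintro ⟨h1, h2⟩
    rw [h1, h2]
    funext i
    rcases i with i | i <;> rfl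
  · intro h
    exact ⟨funext fun i => congrFun h (Sum.inl i), funext fun i => congrFun h (Sum.inr i)⟩

theorem Mx_map {F' : Type*} [Field F'] [CharZero F'] (f : F →+* F') :
    (Mx F ε : Matrix ((Fin (k + 2) → ι × Bool) ⊕ (Fin k → ι × Bool)) (Fin (k + 2) → ι × Bool) F).map f = Mx F' ε := by
  have h1 := Am_map (k := k + 2) (κ := ι × Bool) f
  ext i j
  rcases i with i | i
  · have h2 := congrFun (congrFun h1 i) j
    rw [Matrix.map_apply] at h2
    simp only [Mx, Matrix.map_apply, Matrix.fromRows_apply_inl, Matrix.sub_apply, map_sub, h2, Matrix.one_apply]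
    split_ifs <;> simp
  · simp only [Mx, Matrix.map_apply, Matrix.fromRows_apply_inr, Ctm, map_sum, map_mul, map_intCast]
    refine Finset.sum_congr rfl fun p _ => ?_
    split_ifs <;> simp

end

section

variable {ι : Type*} [Fintype ι] [DecidableEq ι] {k m : ℕ}

/-- the complex matrix of a rational matrix -/
noncomputable def rcc {m n : Type*} (A : Matrix m n ℚ) : Matrix m n ℂ := A.map (algebraMap ℚ ℂ)

theorem rcc_mul {l m n : Type*} [Fintype m] (A : Matrix l m ℚ) (B : Matrix m n ℚ) : rcc (A * B) = rcc A * rcc B := by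
  unfold rcc
  rw [Matrix.map_mul]

theorem rcc_one {n : Type*} [DecidableEq n] : rcc (1 : Matrix n n ℚ) = 1 :=
  Matrix.map_one _ (map_zero _) (map_one _)

theorem rcc_transpose {m n : Type*} (A : Matrix m n ℚ) : (rcc A)ᵀ = rcc Aᵀ := rfl

theorem rcc_conj {m n : Type*} (A : Matrix m n ℚ) : (rcc A).map (starRingEnd ℂ) = rcc A := by
  ext i j
  simp [rcc]

theorem star_rcc_mulVec {m n : Type*} [Fintype n] (A : Matrix m n ℚ) (u : n → ℂ) :
    star (rcc A *ᵥ u) = rcc A *ᵥ star u := by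
  funext i
  simp only [Pi.star_apply, Matrix.mulVec, dotProduct, star_sum, star_mul', rcc, Matrix.map_apply]
  refine Finset.sum_congr rfl fun j _ => ?_
  congr 1
  simp

/-- the primitive tensors in coordinates -/
structure Pj (ε : ι → ℤ) (B : Matrix (Fin m) (Fin (k + 2) → ι × Bool) ℚ) (C : Matrix (Fin (k + 2) → ι × Bool) (Fin m) ℚ) :
    Prop where
  bc : B * C = 1
  sym : (C * B)ᵀ = C * B
  memQ : ∀ v : (Fin (k + 2) → ι × Bool) → ℚ, (Al v ∧ ct ε v = 0) ↔ (C * B) *ᵥ v = v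
  memC : ∀ v : (Fin (k + 2) → ι × Bool) → ℂ, (Al v ∧ ct ε v = 0) ↔ rcc (C * B) *ᵥ v = v

theorem exists_Pj (k : ℕ) (ε : ι → ℤ) (h : ι × Bool → ℤ) :
    ∃ (m : ℕ) (B : Matrix (Fin m) (Fin (k + 2) → ι × Bool) ℚ) (C : Matrix (Fin (k + 2) → ι × Bool) (Fin m) ℚ),
      Pj ε B C ∧ m = finrank ℚ (VQ k ε h ℚ Set.univ) := by
  have h1 : LinearMap.ker (Mx (k := k) ℚ ε).mulVecLin = VQ k ε h ℚ Set.univ := by
    ext v
    rw [LinearMap.mem_ker, Matrix.mulVecLin_apply, ← mem_Mx, mem_VQ]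
    simp
  obtain ⟨B, C, R, hBC, hMC, hsym, hR⟩ := exists_proj (Mx (k := k) ℚ ε)
  refine ⟨_, B, C, ⟨hBC, hsym, fun v => ?_, fun v => ?_⟩, by rw [h1]⟩
  · rw [mem_Mx]
    constructor
    · intro hv
      have h2 : (1 - C * B) *ᵥ v = (R * Mx (k := k) ℚ ε) *ᵥ v := by rw [hR]
      have h3 : (R * Mx (k := k) ℚ ε) *ᵥ v = 0 := by rw [← Matrix.mulVec_mulVec, hv, Matrix.mulVec_zero]
      rw [h3, Matrix.sub_mulVec, Matrix.one_mulVec, sub_eq_zero] at h2
      exact h2.symm
    · intro hv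
      rw [← hv, Matrix.mulVec_mulVec, ← Matrix.mul_assoc, hMC, Matrix.zero_mul, Matrix.zero_mulVec]
  · rw [mem_Mx]
    have hM : Mx (k := k) ℂ ε = rcc (Mx ℚ ε) := (Mx_map (algebraMap ℚ ℂ)).symm
    have hR' : 1 - rcc (C * B) = rcc R * Mx (k := k) ℂ ε := by
      rw [hM, ← rcc_mul, ← hR]
      ext i j
      simp only [rcc, Matrix.sub_apply, Matrix.map_apply, map_sub, Matrix.one_apply]
      split_ifs <;> simp
    have hMC' : Mx (k := k) ℂ ε * rcc (C * B) = 0 := by
      rw [hM, ← rcc_mul, ← Matrix.mul_assoc, hMC, Matrix.zero_mul]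
      ext i j
      simp [rcc]
    constructor
    · intro hv
      have h2 : (1 - rcc (C * B)) *ᵥ v = (rcc R * Mx (k := k) ℂ ε) *ᵥ v := by rw [hR']
      have h3 : (rcc R * Mx (k := k) ℂ ε) *ᵥ v = 0 := by rw [← Matrix.mulVec_mulVec, hv, Matrix.mulVec_zero]
      rw [h3, Matrix.sub_mulVec, Matrix.one_mulVec, sub_eq_zero] at h2
      exact h2.symm
    · intro hv
      rw [← hv, Matrix.mulVec_mulVec, hMC', Matrix.zero_mulVec]

variable {ε : ι → ℤ} {B : Matrix (Fin m) (Fin (k + 2) → ι × Bool) ℚ} {C : Matrix (Fin (k + 2) → ι × Bool) (Fin m) ℚ}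

/-- matrices which preserve the primitive tensors, with their transposes, commute with the projection -/
theorem Pj.comm (J : Pj ε B C) {X : Matrix (Fin (k + 2) → ι × Bool) (Fin (k + 2) → ι × Bool) ℂ}
    (h1 : ∀ v, Al v → ct ε v = 0 → Al (X *ᵥ v) ∧ ct ε (X *ᵥ v) = 0)
    (h2 : ∀ v, Al v → ct ε v = 0 → Al (Xᵀ *ᵥ v) ∧ ct ε (Xᵀ *ᵥ v) = 0) : rcc (C * B) * X = X * rcc (C * B) := by
  have hee : rcc (C * B) * rcc (C * B) = rcc (C * B) := by
    rw [← rcc_mul, Matrix.mul_assoc, ← Matrix.mul_assoc B, J.bc, Matrix.one_mul]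
  have key : ∀ Y : Matrix (Fin (k + 2) → ι × Bool) (Fin (k + 2) → ι × Bool) ℂ,
      (∀ v, Al v → ct ε v = 0 → Al (Y *ᵥ v) ∧ ct ε (Y *ᵥ v) = 0) → rcc (C * B) * Y * rcc (C * B) = Y * rcc (C * B) := by
    intro Y hY
    apply Matrix.toLin'.injective
    ext1
    ext1
    rename_i i
    simp only [LinearMap.comp_apply, LinearMap.single_apply, Matrix.toLin'_apply]
    obtain ⟨u, hu⟩ : ∃ u, u = rcc (C * B) *ᵥ Pi.single i 1 := ⟨_, rfl⟩
    have h3 : rcc (C * B) *ᵥ u = u := by rw [hu, Matrix.mulVec_mulVec, hee]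
    obtain ⟨h4, h5⟩ := (J.memC u).2 h3
    have h6 := (J.memC _).1 (hY u h4 h5)
    rw [← Matrix.mulVec_mulVec, ← hu, ← Matrix.mulVec_mulVec, h6, ← Matrix.mulVec_mulVec, ← hu]
  have h3 := key X h1
  have h4 := congrArg Matrix.transpose (key Xᵀ h2)
  have hs : (rcc (C * B))ᵀ = rcc (C * B) := by rw [rcc_transpose, J.sym]
  rw [Matrix.transpose_mul, Matrix.transpose_mul, Matrix.transpose_mul, Matrix.transpose_transpose, hs, ← Matrix.mul_assoc, h3] at h4
  exact h4.symm

end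

end S524
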