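import Pool.Agent.Helper24.S5.Inv

/-!
Sharpness of the list of exceptional Hodge numbers (MP_b8862a_ag), primitive exterior powers of the quaternionic type:
the equivariant projection of the matrices to the symplectic Lie algebra.
-/

set_option linter.unusedSectionVars false

open Matrix Module

namespace S524

variable {F : Type*} [Field F] [CharZero F] {ι : Type*} [Fintype ι] [DecidableEq ι] {k : ℕ} {ε : ι → ℤ}

theorem Ue_eq (p q : ι × Bool) : Ue ε F p q = Matrix.single p q 1 + th ε (Matrix.single p q (1 : F)) := by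
  ext s t
  rw [Matrix.add_apply, th_apply, Ue, Matrix.single_apply, Matrix.single_apply]
  have h1 : (p = s ∧ q = t) ↔ (s = p ∧ t = q) := ⟨fun h => ⟨h.1.symm, h.2.symm⟩, fun h => ⟨h.1.symm, h.2.symm⟩⟩
  have h2 : (p = bar t ∧ q = bar s) ↔ (s = bar q ∧ t = bar p) := by
    constructor
    · rintro ⟨rfl, rfl⟩
      exact ⟨(bar_bar s).symm, (bar_bar t).symm⟩
    · rintro ⟨rfl, rfl⟩
      exact ⟨(bar_bar p).symm, (bar_bar q).symm⟩
  simp only [h1, h2]
  by_cases h3 : s = bar q ∧ t = bar p
  · obtain ⟨rfl, rfl⟩ := h3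
    rw [wz_bar, wz_bar]
    simp only [and_self, if_true]
    push_cast
    ring
  · simp only [h3, if_false]
    ring

theorem th_add (M N : Matrix (ι × Bool) (ι × Bool) F) : th ε (M + N) = th ε M + th ε N := by
  ext p q
  rw [th_apply, Matrix.add_apply, Matrix.add_apply, th_apply, th_apply]
  ring

theorem th_smul (c : F) (M : Matrix (ι × Bool) (ι × Bool) F) : th ε (c • M) = c • th ε M := by
  ext p q
  rw [th_apply, Matrix.smul_apply, Matrix.smul_apply, th_apply, smul_eq_mul, smul_eq_mul]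
  ring

theorem th_sum {α : Type*} (s : Finset α) (f : α → Matrix (ι × Bool) (ι × Bool) F) :
    th ε (∑ a ∈ s, f a) = ∑ a ∈ s, th ε (f a) := by
  ext p q
  rw [th_apply, Matrix.sum_apply, Matrix.sum_apply, Finset.mul_sum, ← Finset.sum_neg_distrib]
  refine Finset.sum_congr rfl fun a _ => ?_
  rw [th_apply]

theorem th_th (hε : ∀ a, ε a * ε a = 1) (M : Matrix (ι × Bool) (ι × Bool) F) : th ε (th ε M) = M := by
  ext p q
  rw [th_apply, th_apply, bar_bar, bar_bar, wz_bar, wz_bar]
  push_cast
  linear_combination M p q * (wz ε q : F) * (wz ε q : F) * wzF_sq (F := F) hε p + M p q * wzF_sq (F := F) hε q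

/-- the involution is an automorphism of the Lie algebra of matrices -/
theorem th_bracket (hε : ∀ a, ε a * ε a = 1) (M N : Matrix (ι × Bool) (ι × Bool) F) :
    th ε (M * N - N * M) = th ε M * th ε N - th ε N * th ε M := by
  have h1 : ∀ X Y : Matrix (ι × Bool) (ι × Bool) F, th ε X * th ε Y = -(Om F ε * (Y * X)ᵀ * Om F ε) := by
    intro X Y
    calc th ε X * th ε Y = Om F ε * Xᵀ * (Om F ε * Om F ε) * Yᵀ * Om F ε := by simp only [th, Matrix.mul_assoc]
      _ = _ := by
        rw [Om_sq hε, mul_neg, mul_one, Matrix.transpose_mul]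
        simp only [Matrix.mul_assoc, Matrix.neg_mul]
  rw [h1, h1, th, Matrix.transpose_sub, mul_sub, sub_mul]
  abel

theorem sum_single' (M : Matrix (ι × Bool) (ι × Bool) F) : ∑ p, ∑ q, M p q • Matrix.single p q (1 : F) = M := by
  ext s t
  rw [Matrix.sum_apply]
  simp only [Matrix.sum_apply, Matrix.smul_apply, Matrix.single_apply, smul_eq_mul]
  rw [Finset.sum_eq_single s, Finset.sum_eq_single t]
  · simp
  · intro q _ hq
    rw [if_neg (fun h => hq h.2), mul_zero]
  · intro h
    exact absurd (Finset.mem_univ _) h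
  · intro p _ hp
    refine Finset.sum_eq_zero fun q _ => ?_
    rw [if_neg (fun h => hp h.1), mul_zero]
  · intro h
    exact absurd (Finset.mem_univ _) h

theorem sum_Ue (M : Matrix (ι × Bool) (ι × Bool) F) : ∑ p, ∑ q, M p q • Ue ε F p q = M + th ε M := by
  simp only [Ue_eq, smul_add, Finset.sum_add_distrib]
  rw [sum_single']
  congr 1
  have h := congrArg (th ε) (sum_single' M)
  rw [th_sum] at h
  rw [← h]
  refine Finset.sum_congr rfl fun p _ => ?_
  rw [th_sum]
  refine Finset.sum_congr rfl fun q _ => ?_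
  rw [th_smul]

variable (F ε k) in
/-- the projection to the Lie algebra -/
def Pi : Matrix (Fin k → ι × Bool) (Fin k → ι × Bool) F →ₗ[F] Matrix (ι × Bool) (ι × Bool) F where
  toFun Y := fun p q => ((Dk (Ue ε F q p) : Matrix (Fin k → ι × Bool) (Fin k → ι × Bool) F) * Y).trace
  map_add' X Y := by
    ext p q
    rw [Matrix.add_apply, Matrix.mul_add, Matrix.trace_add]
  map_smul' c X := by
    ext p q
    rw [Matrix.smul_apply, Matrix.mul_smul, Matrix.trace_smul, RingHom.id_apply]

theorem Pi_apply (Y : Matrix (Fin k → ι × Bool) (Fin k → ι × Bool) F) (p q : ι × Bool) :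
    Pi F k ε Y p q = ((Dk (Ue ε F q p) : Matrix (Fin k → ι × Bool) (Fin k → ι × Bool) F) * Y).trace := rfl

theorem Pi_spec (M : Matrix (ι × Bool) (ι × Bool) F) (Y : Matrix (Fin k → ι × Bool) (Fin k → ι × Bool) F) :
    (M * Pi F k ε Y).trace = ((Dk (M + th ε M) : Matrix (Fin k → ι × Bool) (Fin k → ι × Bool) F) * Y).trace := by
  rw [← sum_Ue, Dk_sum, Finset.sum_mul, Matrix.trace_sum, Matrix.trace]
  refine Finset.sum_congr rfl fun p _ => ?_
  rw [Matrix.diag_apply, Matrix.mul_apply, Dk_sum, Finset.sum_mul, Matrix.trace_sum]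
  refine Finset.sum_congr rfl fun q _ => ?_
  rw [Pi_apply, Dk_smul, Matrix.smul_mul, Matrix.trace_smul, smul_eq_mul]

theorem trace_th (M G : Matrix (ι × Bool) (ι × Bool) F) :
    (th ε M * G).trace = (M * th ε G).trace := by
  have h1 : (th ε M * G).trace = (Gᵀ * (th ε M)ᵀ).trace := by rw [← Matrix.transpose_mul, Matrix.trace_transpose]
  rw [h1, th, Matrix.transpose_mul, Matrix.transpose_mul, Matrix.transpose_transpose, Om_transpose]
  calc (Gᵀ * (-Om F ε * (M * -Om F ε))).trace = ((Gᵀ * Om F ε) * (M * Om F ε)).trace := by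
        congr 1
        simp only [Matrix.mul_neg, Matrix.neg_mul, neg_neg, Matrix.mul_assoc]
    _ = _ := by
        rw [Matrix.trace_mul_comm, th]
        simp only [Matrix.mul_assoc]

theorem sp_Pi (hε : ∀ a, ε a * ε a = 1) (Y : Matrix (Fin k → ι × Bool) (Fin k → ι × Bool) F) : Sp ε (Pi F k ε Y) := by
  rw [sp_iff, Matrix.ext_iff_trace_mul_left]
  intro M
  rw [← trace_th, Pi_spec, Pi_spec, th_th hε, add_comm]

theorem Pi_sp {A : Matrix (ι × Bool) (ι × Bool) F} (hA : Sp ε A) (Y : Matrix (Fin k → ι × Bool) (Fin k → ι × Bool) F) :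
    (A * Pi F k ε Y).trace = 2 * ((Dk A : Matrix (Fin k → ι × Bool) (Fin k → ι × Bool) F) * Y).trace := by
  rw [Pi_spec, sp_iff.1 hA, ← two_smul F, Dk_smul, Matrix.smul_mul, Matrix.trace_smul, smul_eq_mul]

theorem Pi_bracket (hε : ∀ a, ε a * ε a = 1) {A : Matrix (ι × Bool) (ι × Bool) F} (hA : Sp ε A)
    (Y : Matrix (Fin k → ι × Bool) (Fin k → ι × Bool) F) :
    Pi F k ε (Dk A * Y - Y * Dk A) = A * Pi F k ε Y - Pi F k ε Y * A := by
  rw [Matrix.ext_iff_trace_mul_left]
  intro M
  have h1 : (M * (A * Pi F k ε Y - Pi F k ε Y * A)).trace = ((M * A - A * M) * Pi F k ε Y).trace := by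
    rw [Matrix.mul_sub, Matrix.sub_mul, Matrix.trace_sub, Matrix.trace_sub, ← Matrix.mul_assoc]
    congr 1
    rw [← Matrix.mul_assoc, Matrix.trace_mul_comm, ← Matrix.mul_assoc]
  have h2 : (M * A - A * M) + th ε (M * A - A * M) = (M + th ε M) * A - A * (M + th ε M) := by
    rw [th_bracket hε, sp_iff.1 hA, add_mul, mul_add]
    abel
  rw [Pi_spec, h1, Pi_spec, h2, ← Dk_bracket, Matrix.mul_sub, Matrix.sub_mul, Matrix.trace_sub, Matrix.trace_sub,
    ← Matrix.mul_assoc]
  congr 1
  rw [← Matrix.mul_assoc, Matrix.trace_mul_comm, ← Matrix.mul_assoc]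

theorem Pi_map {F' : Type*} [Field F'] [CharZero F'] (f : F →+* F')
    (Y : Matrix (Fin k → ι × Bool) (Fin k → ι × Bool) F) : (Pi F k ε Y).map f = Pi F' k ε (Y.map f) := by
  ext p q
  rw [Matrix.map_apply, Pi_apply, Pi_apply, AddMonoidHom.map_trace f, Matrix.map_mul, Dk_map]
  congr 3
  ext s t
  simp only [Matrix.map_apply, Ue, map_sub, map_mul, map_intCast]
  split_ifs <;> simp

theorem th_pm (M : Matrix (ι × Bool) (ι × Bool) F) :
    th ε (pm F * M * -pm F) = pm F * th ε M * -pm F := by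
  rw [th, Matrix.transpose_mul, Matrix.transpose_mul, Matrix.transpose_neg, pm_transpose, neg_neg, th]
  calc Om F ε * (pm F * (Mᵀ * -pm F)) * Om F ε = -((Om F ε * pm F) * Mᵀ * (pm F * Om F ε)) := by
        simp only [Matrix.mul_assoc, Matrix.mul_neg, Matrix.neg_mul]
    _ = -((pm F * Om F ε) * Mᵀ * (Om F ε * pm F)) := by rw [Om_pm, pm_Om]
    _ = _ := by simp only [Matrix.mul_assoc, Matrix.mul_neg]

theorem Tg_pm_neg (hk : Even k) : (Tg (-pm F) : Matrix (Fin k → ι × Bool) (Fin k → ι × Bool) F) = Tg (pm F) := by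
  rw [← neg_one_smul F, Tg_smul, hk.neg_one_pow, one_smul]

theorem Tg_pm_sq (hk : Even k) : (Tg (pm F) : Matrix (Fin k → ι × Bool) (Fin k → ι × Bool) F) * Tg (pm F) = 1 := by
  rw [Tg_mul, pm_sq, ← neg_one_smul F, Tg_smul, hk.neg_one_pow, one_smul, Tg_one]

theorem Tg_pm_transpose (hk : Even k) : (Tg (pm F) : Matrix (Fin k → ι × Bool) (Fin k → ι × Bool) F)ᵀ = Tg (pm F) := by
  rw [Tg_transpose, pm_transpose, Tg_pm_neg hk]

theorem Dk_pm (hk : Even k) (A : Matrix (ι × Bool) (ι × Bool) F) :
    (Tg (pm F) : Matrix (Fin k → ι × Bool) (Fin k → ι × Bool) F) * Dk A * Tg (pm F) = Dk (pm F * A * -pm F) := by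
  rw [Tg_Dk (g := pm F) (gi := -pm F) (by rw [neg_mul, pm_sq, neg_neg]), Matrix.mul_assoc, Tg_pm_sq hk, mul_one]

theorem Pi_pm (hk : Even k) (Y : Matrix (Fin k → ι × Bool) (Fin k → ι × Bool) F) :
    Pi F k ε (Tg (pm F) * Y * Tg (pm F)) = pm F * Pi F k ε Y * -pm F := by
  rw [Matrix.ext_iff_trace_mul_left]
  intro M
  have h1 : (M * (pm F * Pi F k ε Y * -pm F)).trace = ((pm F * M * -pm F) * Pi F k ε Y).trace := by
    simp only [Matrix.mul_neg, Matrix.neg_mul, Matrix.trace_neg]
    congr 1
    calc (M * (pm F * Pi F k ε Y * pm F)).trace = ((M * (pm F * Pi F k ε Y)) * pm F).trace := by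
          simp only [Matrix.mul_assoc]
      _ = _ := by rw [Matrix.trace_mul_comm]; simp only [Matrix.mul_assoc]
  rw [Pi_spec, h1, Pi_spec, th_pm]
  have h2 : pm F * M * -pm F + pm F * th ε M * -pm F = pm F * (M + th ε M) * -pm F := by
    rw [mul_add, add_mul]
  rw [h2, ← Dk_pm hk]
  calc ((Dk (M + th ε M) : Matrix (Fin k → ι × Bool) (Fin k → ι × Bool) F) * (Tg (pm F) * Y * Tg (pm F))).trace =
        ((Dk (M + th ε M) * Tg (pm F) * Y) * Tg (pm F)).trace := by simp only [Matrix.mul_assoc]
    _ = _ := by rw [Matrix.trace_mul_comm]; simp only [Matrix.mul_assoc]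

/-- the centre of the centraliser of the torus element -/
theorem center_Hm (hε : ∀ a, ε a * ε a = 1) (o : ι) {G : Matrix (ι × Bool) (ι × Bool) F} (hG : Sp ε G)
    (h : ∀ A, Sp ε A → A * Hm F o = Hm F o * A → A * G = G * A) : G = G (o, false) (o, false) • Hm F o := by
  have hoff : ∀ p q, p ≠ q → G p q = 0 := by
    intro p q hpq
    have h1 : ∀ a, ((h0 a p : F) - (h0 a q : F)) * G p q = 0 := by
      intro a
      have h2 := h (Hm F a) (sp_Hm hε a) (by
        rw [Hm, Hm, diagonal_mul_diagonal, diagonal_mul_diagonal]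
        congr 1
        funext x
        ring)
      have h3 := congrFun (congrFun h2 p) q
      rw [Hm, diagonal_mul, mul_diagonal] at h3
      linear_combination h3
    by_cases h2 : p.1 = q.1
    · have h3 := h1 p.1
      rw [eq_bar h2 hpq, h0_bar, bar_fst] at h3
      rcases mul_eq_zero.1 h3 with h4 | h4
      · exfalso
        rw [h0, if_pos rfl] at h4
        by_cases h5 : q.2 = true
        · rw [if_pos h5] at h4
          norm_num at h4
        · rw [if_neg h5] at h4
          norm_num at h4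
      · rw [eq_bar h2 hpq]
        exact h4
    · have h3 := h1 p.1
      rcases mul_eq_zero.1 h3 with h4 | h4
      · exfalso
        have e1 : h0 p.1 q = 0 := by rw [h0, if_neg (fun hh => h2 hh.symm)]
        rw [e1, h0, if_pos rfl] at h4
        by_cases h5 : p.2 = true
        · rw [if_pos h5] at h4
          norm_num at h4
        · rw [if_neg h5] at h4
          norm_num at h4
      · exact h4
  have hneg : ∀ p, G (bar p) (bar p) = -G p p := by
    intro p
    rw [hG (bar p) (bar p), bar_bar, wz_bar]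
    push_cast
    linear_combination -(G p p) * wzF_sq (F := F) hε p
  have hz : ∀ p : ι × Bool, p.1 ≠ o → G p p = 0 := by
    intro p hp
    have h1 : h0 o p = 0 := by rw [h0, if_neg hp]
    have h2 := h (Ue ε F p (bar p)) (sp_Ue hε _ _) (by
      have h3 := Hm_Ue (F := F) (ε := ε) o p (bar p)
      rw [h0_bar, h1] at h3
      simp only [Int.cast_zero, neg_zero, sub_self, zero_smul] at h3
      exact (sub_eq_zero.1 h3).symm)
    have h3 := congrFun (congrFun h2 p) (bar p)
    have h4 : ∀ s t, Ue ε F p (bar p) s t = 2 * (if s = p ∧ t = bar p then 1 else 0) := by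
      intro s t
      rw [Ue, bar_bar, wz_bar]
      push_cast
      linear_combination (if s = p ∧ t = bar p then (1 : F) else 0) * wzF_sq (F := F) hε p
    rw [Matrix.mul_apply, Matrix.mul_apply, Finset.sum_eq_single (bar p), Finset.sum_eq_single p] at h3
    · rw [h4, if_pos ⟨rfl, rfl⟩, hneg] at h3
      have h5 : (4 : F) * G p p = 0 := by linear_combination -h3
      exact (mul_eq_zero.1 h5).resolve_left (by norm_num)
    · intro s _ hs
      rw [hoff p s (Ne.symm hs), zero_mul]
    · intro hh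
      exact absurd (Finset.mem_univ _) hh
    · intro s _ hs
      rw [hoff s (bar p) hs, mul_zero]
    · intro hh
      exact absurd (Finset.mem_univ _) hh
  ext p q
  rw [Matrix.smul_apply, Hm, diagonal_apply, smul_eq_mul]
  by_cases hpq : p = q
  · subst hpq
    rw [if_pos rfl]
    by_cases hp : p.1 = o
    · obtain ⟨a, b⟩ := p
      simp only at hp
      subst hp
      cases b
      · simp [h0]
      · have h1 := hneg (a, false)
        have h2 : bar (a, false) = (a, true) := rfl
        rw [h2] at h1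
        rw [h1]
        simp [h0]
    · rw [hz p hp, h0, if_neg hp]
      simp
  · rw [if_neg hpq, hoff p q hpq, mul_zero]

end S524
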