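import Pool.Agent.Helper24.S5.Hc

/-!
Sharpness of the list of exceptional Hodge numbers (MP_b8862a_ag), primitive exterior powers of the quaternionic type:
the ranks, the theorem.
-/

set_option linter.unusedSectionVars false

open Matrix Module MH MH.QS94

namespace S524

theorem rank_trace {n : Type*} [Fintype n] [DecidableEq n] {E : Matrix n n ℂ} (h : E * E = E) : E.trace = (E.rank : ℂ) := by
  have h1 : IsIdempotentElem (Matrix.toLin' E) := by
    rw [IsIdempotentElem, Module.End.mul_eq_comp, ← Matrix.toLin'_mul, h]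
  have h2 := (LinearMap.IsIdempotentElem.isProj_range _ h1).trace
  rw [Matrix.trace_toLin'_eq] at h2
  rw [h2]
  rfl

section

variable {F : Type*} [Field F] [CharZero F] {ι : Type*} [Fintype ι] [DecidableEq ι] {k : ℕ} {ε : ι → ℤ}

theorem El_pres (o : ι) (a : ℤ) {v : (Fin (k + 2) → ι × Bool) → F} (hv : Al v) (hc : ct ε v = 0) :
    Al (El (k + 2) F o a *ᵥ v) ∧ ct ε (El (k + 2) F o a *ᵥ v) = 0 := by
  have h2 : El (k + 2) F o a *ᵥ v = fun x => if lev (h0 o) x = a then v x else 0 := by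
    funext x
    rw [El, mulVec_diagonal]
    split_ifs <;> simp
  rw [h2]
  constructor
  · intro σ x
    change (if lev (h0 o) (x ∘ σ) = a then v (x ∘ σ) else 0) = _ * (if lev (h0 o) x = a then v x else 0)
    rw [lev_perm, hv]
    split_ifs <;> simp
  · funext z
    have h3 := congrFun hc z
    rw [ct] at h3 ⊢
    simp only [lev_cons, h0_bar]
    have h4 : ∀ p, h0 o p + (-h0 o p + lev (h0 o) z) = lev (h0 o) z := fun p => by ring
    simp only [h4]
    by_cases h5 : lev (h0 o) z = a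
    · simp only [h5, if_true]
      exact h3
    · simp only [h5, if_false, mul_zero, Finset.sum_const_zero]
      rfl

end

section

variable {ι : Type*} [Fintype ι] [DecidableEq ι] {k m : ℕ}
  {B : Matrix (Fin m) (Fin (k + 2) → ι × Bool) ℚ} {C : Matrix (Fin (k + 2) → ι × Bool) (Fin m) ℚ} {o : ι}
  (J : Pj (eo o) B C)

include J

theorem trace_one : ((El (k + 2) ℚ o 1 + El (k + 2) ℚ o (-1)) * (C * B)).trace =
    (finrank ℚ (VQ k (eo o) (h0 o) ℚ {1, -1}) : ℚ) := by
  have hee : C * B * (C * B) = C * B := by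
    rw [Matrix.mul_assoc, ← Matrix.mul_assoc B, J.bc, Matrix.one_mul]
  have h1 : LinearMap.IsProj (VQ k (eo o) (h0 o) ℚ {1, -1})
      (Matrix.toLin' ((El (k + 2) ℚ o 1 + El (k + 2) ℚ o (-1)) * (C * B))) := by
    constructor
    · intro v
      rw [Matrix.toLin'_apply, ← Matrix.mulVec_mulVec, Matrix.add_mulVec]
      obtain ⟨u, hu⟩ : ∃ u, u = (C * B) *ᵥ v := ⟨_, rfl⟩
      have h2 : (C * B) *ᵥ u = u := by rw [hu, Matrix.mulVec_mulVec, hee]
      obtain ⟨h3, h4⟩ := (J.memQ u).2 h2
      rw [← hu, mem_VQ]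
      obtain ⟨h5, h6⟩ := El_pres o 1 h3 h4
      obtain ⟨h7, h8⟩ := El_pres o (-1) h3 h4
      refine ⟨⟨h5.add h7, fun x hx => ?_⟩, ?_⟩
      · rw [Set.mem_insert_iff, Set.mem_singleton_iff, not_or] at hx
        rw [Pi.add_apply, El, El, mulVec_diagonal, mulVec_diagonal, if_neg hx.1, if_neg hx.2]
        ring
      · rw [← ctL_apply, map_add, ctL_apply, ctL_apply, h6, h8, add_zero]
    · intro v hv
      rw [mem_VQ] at hv
      rw [Matrix.toLin'_apply, ← Matrix.mulVec_mulVec, (J.memQ v).1 ⟨hv.1.1, hv.2⟩, Matrix.add_mulVec]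
      funext x
      rw [Pi.add_apply, El, El, mulVec_diagonal, mulVec_diagonal]
      by_cases hx : lev (h0 o) x ∈ ({1, -1} : Set ℤ)
      · rcases hx with hx | hx
        · rw [hx]
          norm_num
        · rw [Set.mem_singleton_iff.1 hx]
          norm_num
      · rw [hv.1.2 x hx]
        ring
  rw [← h1.trace, Matrix.trace_toLin'_eq]

theorem ranks (hk : Even (k + 2)) :
    (PB B C o 2).rank = (PB B C o 0).rank ∧
    (PB B C o 2).rank + (PB B C o 0).rank = finrank ℚ (VQ k (eo o) (h0 o) ℚ {1, -1}) ∧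
    (PB B C o 0).rank + (PB B C o 1).rank + (PB B C o 2).rank = m := by
  have hT := TT_sq (ι := ι) hk
  have hb := big J hk
  have ht : ∀ p, (PB B C o p).trace = ((PB B C o p).rank : ℂ) := fun p => rank_trace (by rw [hb.mul, if_pos rfl])
  refine ⟨?_, ?_, ?_⟩
  · have h1 := hb.conj 2
    norm_num at h1
    have h2 := ht 0
    rw [← h1] at h2
    have h3 : ((PB B C o 2).map (starRingEnd ℂ)).trace = starRingEnd ℂ (PB B C o 2).trace := by
      rw [AddMonoidHom.map_trace (starRingEnd ℂ)]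
    rw [h3, ht 2, map_natCast, h1] at h2
    exact_mod_cast h2
  · have h1 : (PB B C o 2 + PB B C o 0).trace = (finrank ℚ (VQ k (eo o) (h0 o) ℚ {1, -1}) : ℂ) := by
      have h2 := congrArg (algebraMap ℚ ℂ) (trace_one J)
      rw [map_natCast, AddMonoidHom.map_trace (algebraMap ℚ ℂ), Matrix.map_mul, Matrix.map_add _ (map_add _), El_map, El_map] at h2
      have e1 : (2 : ℤ) - 1 = 1 := by norm_num
      have e2 : (0 : ℤ) - 1 = -1 := by norm_num
      rw [← h2, PB, PB, ← tw_add, tw_trace hT, ← Matrix.add_mul, e1, e2]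
      rfl
    rw [Matrix.trace_add, ht, ht] at h1
    exact_mod_cast h1
  · have h1 : (toC (C * B)).trace = (m : ℂ) := by
      have h2 : (C * B).trace = (m : ℚ) := by
        rw [Matrix.trace_mul_comm, J.bc, Matrix.trace_one, Fintype.card_fin]
      have h3 := congrArg (algebraMap ℚ ℂ) h2
      rw [map_natCast, AddMonoidHom.map_trace (algebraMap ℚ ℂ)] at h3
      exact h3
    rw [← hb.sum, Finset.sum_insert (by simp), Finset.sum_insert (by simp), Finset.sum_singleton, Matrix.trace_add,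
      Matrix.trace_add, ht, ht, ht] at h1
    have h2 : (((PB B C o 0).rank + ((PB B C o 1).rank + (PB B C o 2).rank) : ℕ) : ℂ) = (m : ℂ) := by
      push_cast
      exact h1
    have h3 : (PB B C o 0).rank + ((PB B C o 1).rank + (PB B C o 2).rank) = m := by exact_mod_cast h2
    omega

end

/-! ### numbers -/

theorem choose_gap (n : ℕ) : ∀ j, 1 ≤ j → 2 * j + 4 ≤ n → n.choose j + (n + 2) ≤ n.choose (j + 1) := by
  induction n with
  | zero =>
    intro j h1 h2
    omega
  | succ n ih =>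
    intro j h1 h2
    obtain rfl | ⟨j, rfl⟩ : j = 1 ∨ ∃ l, j = l + 2 := by
      rcases Nat.lt_or_ge j 2 with h3 | h3
      · left; omega
      · right; exact ⟨j - 2, by omega⟩
    · rw [Nat.choose_one_right, Nat.choose_two_right]
      have h3 : 2 * (n + 1 + (n + 1 + 2)) ≤ (n + 1) * (n + 1 - 1) := by
        rw [Nat.add_sub_cancel]
        nlinarith
      omega
    · have h3 := ih (j + 1) (by omega) (by omega)
      have h4 : n.choose (j + 2) + 1 ≤ n.choose (j + 3) := by
        have h5 := Nat.choose_succ_right_eq n (j + 2)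
        have h6 : 0 < n.choose (j + 2) := Nat.choose_pos (by omega)
        have h7 : j + 4 ≤ n - (j + 2) := by omega
        by_contra h8
        have h9 : n.choose (j + 3) ≤ n.choose (j + 2) := by omega
        have h10 : n.choose (j + 2 + 1) * (j + 2 + 1) ≤ n.choose (j + 2) * (j + 3) := Nat.mul_le_mul_right _ h9
        have h11 : n.choose (j + 2) * (j + 4) ≤ n.choose (j + 2) * (n - (j + 2)) := Nat.mul_le_mul_left _ h7
        nlinarith
      rw [Nat.choose_succ_succ n (j + 1), Nat.choose_succ_succ n (j + 2)]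
      have h5 : j + 1 + 1 = j + 2 := rfl
      have h6 : j + 2 + 1 = j + 3 := rfl
      simp only [Nat.succ_eq_add_one, h5, h6] at h3 h4 ⊢
      omega

theorem choose_bounds {r i : ℕ} (hr : i + 3 ≤ r) :
    (2 * r).choose (i + 1) + (2 * r + 2) ≤ (2 * r).choose (i + 3) ∧ (2 * r).choose i + (2 * r + 2) ≤ (2 * r).choose (i + 4) := by
  have h1 := choose_gap (2 * r) (i + 1) (by omega) (by omega)
  have h2 : (2 * r).choose (i + 2) ≤ (2 * r).choose (i + 3) := Nat.choose_le_succ_of_lt_half_left (by omega)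
  have h3 : (2 * r).choose i ≤ (2 * r).choose (i + 1) := Nat.choose_le_succ_of_lt_half_left (by omega)
  have h4 : (2 * r).choose (i + 2) ≤ (2 * r).choose (i + 4) := by
    by_cases h5 : i + 4 ≤ r
    · exact h2.trans (Nat.choose_le_succ_of_lt_half_left (by omega))
    · have h6 : r = i + 3 := by omega
      rw [← Nat.choose_symm_of_eq_add (show 2 * r = (i + 4) + (i + 2) by omega)]
  have h5 : i + 1 + 1 = i + 2 := rfl
  rw [h5] at h1
  omega

end S524

namespace MH

open S524

/-- **Sharpness, the primitive exterior powers.** -/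
theorem sharp_prim (r i : ℕ) (he : Even i) (hr : i + 3 ≤ r) :
    ∃ (n : Type) (_ : Fintype n) (_ : DecidableEq n) (Q : Matrix n n ℚ) (P : ℤ → Matrix n n ℂ), IsHW 2 Q {0, 1, 2} P ∧
      (∀ A : Matrix n n ℚ, (∀ p, toC A * P p = P p * toC A) → ∃ c : ℚ, A = c • (1 : Matrix n n ℚ)) ∧
      (P 2).rank + (2 * r).choose (i + 1) = (2 * r).choose (i + 3) ∧ (P 1).rank + (2 * r).choose i = (2 * r).choose (i + 4) ∧
      ∃ g : GL n ℂ, IsGQ 2 Q g ∧ g ∉ MT {0, 1, 2} P := by
  have hk : Even (i + 2 + 2) := (he.add even_two).add even_two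
  have hcard : Fintype.card (Fin (r + 1)) = r + 1 := Fintype.card_fin _
  obtain ⟨o, -⟩ : ∃ o : Fin (r + 1), o = 0 := ⟨0, rfl⟩
  obtain ⟨m, B, C, J, hm⟩ := exists_Pj (i + 2) (eo o) (h0 o)
  obtain ⟨hr1, hr2, hr3⟩ := ranks J hk
  have hf1 := finrank_VQ (k := i) (eo_sq o) (h0_bar o) (by rw [hcard]; omega) {1, -1}
  have hf2 := finrank_VQ (k := i) (eo_sq o) (h0_bar o) (by rw [hcard]; omega) Set.univ
  rw [card_FS_univ, card_FS_univ, ← hm, Fintype.card_prod, hcard, Fintype.card_bool] at hf2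
  have hcc : (r + 1) * 2 - 2 = 2 * r := by omega
  have hf3 := card_FS_one o (i + 1)
  have hf4 := card_FS_one o (i + 1 + 2)
  rw [Fintype.card_prod, hcard, Fintype.card_bool, hcc] at hf3 hf4
  have e1 : i + 1 + 1 = i + 2 := rfl
  have e2 : i + 1 + 2 + 1 = i + 2 + 2 := rfl
  have e3 : i + 1 + 2 = i + 3 := rfl
  rw [e1] at hf3
  rw [e2, e3] at hf4
  rw [hf3, hf4, ← hr2, hr1] at hf1
  have hs : (PB B C o 2).rank + (2 * r).choose (i + 1) = (2 * r).choose (i + 3) := by omega
  have hpas : ∀ j, (2 * r + 2).choose (j + 2) = (2 * r).choose (j + 2) + 2 * (2 * r).choose (j + 1) + (2 * r).choose j := by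
    intro j
    rw [Nat.choose_succ_succ (2 * r + 1) (j + 1), Nat.choose_succ_succ (2 * r) j, Nat.choose_succ_succ (2 * r) (j + 1)]
    simp only [Nat.succ_eq_add_one]
    have h5 : j + 1 + 1 = j + 2 := rfl
    rw [h5]
    omega
  have hh : (PB B C o 1).rank + (2 * r).choose i = (2 * r).choose (i + 4) := by
    have h1 := hpas i
    have h2 := hpas (i + 2)
    have e4 : (r + 1) * 2 = 2 * r + 2 := by ring
    rw [e4, h1, h2] at hf2
    have e5 : i + 2 + 2 = i + 4 := rfl
    have e6 : i + 2 + 1 = i + 3 := rfl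
    rw [e5, e6] at hf2
    omega
  obtain ⟨hb1, hb2⟩ := choose_bounds hr
  have hs2 : 2 * r + 2 ≤ (PB B C o 2).rank := by omega
  have hh2 : 2 * r + 2 ≤ (PB B C o 1).rank := by omega
  have hP2 : PB B C o 2 ≠ 0 := by
    intro h
    rw [h, Matrix.rank_zero] at hs2
    omega
  obtain ⟨c, hc0, hc⟩ := FL_H J hk hP2
  have hgood : C9.Good (QQ (i + 2 + 2) o) (C * B) (FL B C o) (PB B C o 2 - PB B C o 0) := by
    rw [PB_sub J]
    exact good_tw J hk (sp_Hm (eo_sq o) o)
  have hfin := C9.engine (big J hk) (QQ_det o) (FL B C o) (FL_rat J hk)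
    (fun b h1 h2 h3 => hcom J hk (by rw [hcard]; omega) b h1 h2 h3) hgood hc0 hc (by
      refine lt_of_le_of_lt (FL_rank o) ?_
      rw [Fintype.card_prod, hcard, Fintype.card_bool]
      nlinarith)
  obtain ⟨n, i1, i2, Q, P, H1, H2, H3, H4, H5⟩ := hfin
  exact ⟨n, i1, i2, Q, P, H1, H2, by rw [H3]; exact hs, by rw [H4]; exact hh, H5⟩

end MH
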