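import Pool.Agent.Helper24.S5.Com

/-!
Sharpness of the list of exceptional Hodge numbers (MP_b8862a_ag), primitive exterior powers of the quaternionic type:
the commutant of the symplectic Lie algebra consists of scalars.
-/

set_option linter.unusedSectionVars false

open Matrix Module

namespace S524

variable {F : Type*} [Field F] [CharZero F] {ι : Type*} [Fintype ι] [DecidableEq ι] {k : ℕ} {ε : ι → ℤ}

/-- the component of weight `μ` -/
def wc (μ : ι → ℤ) (v : (Fin k → ι × Bool) → F) : (Fin k → ι × Bool) → F := fun x =>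
  if (fun e => lev (h0 e) x) = μ then v x else 0

theorem al_wc {v : (Fin k → ι × Bool) → F} (h : Al v) (μ : ι → ℤ) : Al (wc μ v) := by
  intro σ x
  have h1 : (fun e => lev (h0 e) (x ∘ σ)) = fun e => lev (h0 e) x := by
    funext e
    rw [lev_perm]
  rw [wc, wc, h1, h]
  split_ifs <;> simp

theorem ct_wc {v : (Fin (k + 2) → ι × Bool) → F} (h : ct ε v = 0) (μ : ι → ℤ) : ct ε (wc μ v) = 0 := by
  funext z
  have h1 : ∀ p : ι × Bool, (fun e => lev (h0 e) (Fin.cons p (Fin.cons (bar p) z) : Fin (k + 2) → ι × Bool)) =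
      fun e => lev (h0 e) z := by
    intro p
    funext e
    rw [lev_cons, lev_cons, h0_bar]
    ring
  rw [ct, Pi.zero_apply]
  simp only [wc, h1]
  by_cases h2 : (fun e => lev (h0 e) z) = μ
  · simp only [h2, if_true]
    exact congrFun h z
  · simp only [h2, if_false, mul_zero, Finset.sum_const_zero]

theorem wt_wc (v : (Fin k → ι × Bool) → F) (μ : ι → ℤ) : Wt μ (wc μ v) := by
  intro x hx e
  rw [wc] at hx
  by_cases h : (fun e => lev (h0 e) x) = μ
  · exact congrFun h e
  · rw [if_neg h] at hx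
    exact absurd rfl hx

theorem sum_wc (v : (Fin k → ι × Bool) → F) :
    ∑ μ ∈ Finset.univ.image (fun (x : Fin k → ι × Bool) e => lev (h0 e) x), wc μ v = v := by
  funext x
  rw [Finset.sum_apply]
  simp only [wc]
  rw [Finset.sum_ite_eq, if_pos]
  exact Finset.mem_image_of_mem _ (Finset.mem_univ x)

/-- **The commutant.** -/
theorem Cm.scalar {b : ((Fin (k + 2) → ι × Bool) → F) →ₗ[F] ((Fin (k + 2) → ι × Bool) → F)} (hε : ∀ a, ε a * ε a = 1)
    (H : Cm ε b) (hk : k + 2 ≤ Fintype.card ι) : ∃ c : F, ∀ v, Al v → ct ε v = 0 → b v = c • v := by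
  classical
  obtain ⟨f, hf⟩ : ∃ f : Fin (k + 2) → ι, Function.Injective f :=
    ⟨fun i => (Fintype.equivFin ι).symm (Fin.castLE hk i), fun i j hij => by simpa using hij⟩
  refine ⟨b (S524.Es fun i => (f i, false)) fun i => (f i, false), fun v hv hv0 => ?_⟩
  have h1 : ∀ μ, b (wc μ v) = (b (S524.Es fun i => (f i, false)) fun i => (f i, false)) • wc μ v := fun μ =>
    H.main hε (fun x hx => H.same hε hx hf) (al_wc hv μ) (ct_wc hv0 μ) (wt_wc v μ)
  conv_lhs => rw [← sum_wc v]
  conv_rhs => rw [← sum_wc v]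
  rw [map_sum, Finset.smul_sum]
  exact Finset.sum_congr rfl fun μ _ => h1 μ

end S524
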