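import Mathlib

/-!
Sharpness of the list of exceptional Hodge numbers (MP_b8862a_ag), primitive exterior powers of the quaternionic type:
the action of a matrix Lie algebra on tensors.
-/

set_option linter.unusedSectionVars false

open Matrix

namespace S524

variable {R : Type*} [CommRing R] {κ : Type*} [Fintype κ] [DecidableEq κ] {k : ℕ}

/-- the tensor product of the matrices `M i` -/
def Tw (M : Fin k → Matrix κ κ R) : Matrix (Fin k → κ) (Fin k → κ) R := fun x y => ∏ i, M i (x i) (y i)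

theorem Tw_mul (M N : Fin k → Matrix κ κ R) : Tw M * Tw N = Tw fun i => M i * N i := by
  ext x y
  simp only [Matrix.mul_apply, Tw]
  rw [Finset.prod_univ_sum]
  simp only [Fintype.piFinset_univ, Finset.prod_mul_distrib]

theorem Tw_one : Tw (fun _ : Fin k => (1 : Matrix κ κ R)) = 1 := by
  ext x y
  simp only [Tw, Matrix.one_apply]
  by_cases h : x = y
  · subst h
    simp
  · rw [if_neg h]
    obtain ⟨i, hi⟩ := Function.ne_iff.1 h
    exact Finset.prod_eq_zero (Finset.mem_univ i) (if_neg hi)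

theorem Tw_transpose (M : Fin k → Matrix κ κ R) : (Tw M)ᵀ = Tw fun i => (M i)ᵀ := rfl

theorem Tw_map {R' : Type*} [CommRing R'] (f : R →+* R') (M : Fin k → Matrix κ κ R) :
    (Tw M).map f = Tw fun i => (M i).map f := by
  ext x y
  simp only [Tw, Matrix.map_apply, map_prod]

/-- the group action -/
def Tg (g : Matrix κ κ R) : Matrix (Fin k → κ) (Fin k → κ) R := Tw fun _ => g

theorem Tg_mul (g h : Matrix κ κ R) : (Tg g : Matrix (Fin k → κ) (Fin k → κ) R) * Tg h = Tg (g * h) := Tw_mul _ _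

theorem Tg_one : (Tg 1 : Matrix (Fin k → κ) (Fin k → κ) R) = 1 := Tw_one

theorem Tg_transpose (g : Matrix κ κ R) : (Tg g : Matrix (Fin k → κ) (Fin k → κ) R)ᵀ = Tg gᵀ := rfl

theorem Tg_map {R' : Type*} [CommRing R'] (f : R →+* R') (g : Matrix κ κ R) :
    (Tg g : Matrix (Fin k → κ) (Fin k → κ) R).map f = Tg (g.map f) := Tw_map f _

theorem Tg_smul (c : R) (g : Matrix κ κ R) : (Tg (c • g) : Matrix (Fin k → κ) (Fin k → κ) R) = c ^ k • Tg g := by
  ext x y
  simp only [Tg, Tw, Matrix.smul_apply, smul_eq_mul, Finset.prod_mul_distrib, Finset.prod_const, Finset.card_univ,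
    Fintype.card_fin]

theorem Tg_diagonal (d : κ → R) : (Tg (diagonal d) : Matrix (Fin k → κ) (Fin k → κ) R) =
    diagonal fun x => ∏ i, d (x i) := by
  ext x y
  simp only [Tg, Tw, Matrix.diagonal_apply]
  by_cases h : x = y
  · subst h
    simp
  · rw [if_neg h]
    obtain ⟨i, hi⟩ := Function.ne_iff.1 h
    exact Finset.prod_eq_zero (Finset.mem_univ i) (if_neg hi)

/-- the action on the factor `i` -/
def Ds (i : Fin k) (A : Matrix κ κ R) : Matrix (Fin k → κ) (Fin k → κ) R :=
  Tw fun j => if j = i then A else 1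

theorem Ds_apply (i : Fin k) (A : Matrix κ κ R) (x y : Fin k → κ) :
    Ds i A x y = A (x i) (y i) * ∏ j ∈ Finset.univ.erase i, if x j = y j then (1 : R) else 0 := by
  rw [Ds, Tw, ← Finset.mul_prod_erase _ _ (Finset.mem_univ i), if_pos rfl]
  congr 1
  refine Finset.prod_congr rfl fun j hj => ?_
  rw [if_neg (Finset.ne_of_mem_erase hj), Matrix.one_apply]

theorem Ds_add (i : Fin k) (A B : Matrix κ κ R) : Ds i (A + B) = Ds i A + Ds i B := by
  ext x y
  rw [Matrix.add_apply, Ds_apply, Ds_apply, Ds_apply, Matrix.add_apply, add_mul]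

theorem Ds_smul (i : Fin k) (c : R) (A : Matrix κ κ R) : Ds i (c • A) = c • Ds i A := by
  ext x y
  rw [Matrix.smul_apply, Ds_apply, Ds_apply, Matrix.smul_apply, smul_eq_mul, smul_eq_mul, mul_assoc]

theorem Ds_mul (i : Fin k) (A B : Matrix κ κ R) : Ds i A * Ds i B = Ds i (A * B) := by
  rw [Ds, Ds, Ds, Tw_mul]
  congr 1
  funext j
  split_ifs <;> simp

theorem Ds_comm {i j : Fin k} (hij : i ≠ j) (A B : Matrix κ κ R) : Ds i A * Ds j B = Ds j B * Ds i A := by
  rw [Ds, Ds, Tw_mul, Tw_mul]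
  congr 1
  funext l
  by_cases h1 : l = i
  · have h2 : ¬ l = j := fun h => hij (by rw [← h1, h])
    simp [h1, hij]
  · simp [h1]

/-- the action of the Lie algebra -/
def Dk (A : Matrix κ κ R) : Matrix (Fin k → κ) (Fin k → κ) R := ∑ i, Ds i A

theorem Dk_add (A B : Matrix κ κ R) : (Dk (A + B) : Matrix (Fin k → κ) (Fin k → κ) R) = Dk A + Dk B := by
  simp only [Dk, Ds_add, Finset.sum_add_distrib]

theorem Dk_smul (c : R) (A : Matrix κ κ R) : (Dk (c • A) : Matrix (Fin k → κ) (Fin k → κ) R) = c • Dk A := by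
  simp only [Dk, Ds_smul, Finset.smul_sum]

/-- the action as a linear map -/
def DkL : Matrix κ κ R →ₗ[R] Matrix (Fin k → κ) (Fin k → κ) R where
  toFun := Dk
  map_add' := Dk_add
  map_smul' := Dk_smul

theorem Dk_zero : (Dk (0 : Matrix κ κ R) : Matrix (Fin k → κ) (Fin k → κ) R) = 0 := map_zero (DkL (k := k))

theorem Dk_neg (A : Matrix κ κ R) : (Dk (-A) : Matrix (Fin k → κ) (Fin k → κ) R) = -Dk A := map_neg (DkL (k := k)) A

theorem Dk_sub (A B : Matrix κ κ R) : (Dk (A - B) : Matrix (Fin k → κ) (Fin k → κ) R) = Dk A - Dk B :=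
  map_sub (DkL (k := k)) A B

theorem Dk_sum {ι : Type*} (s : Finset ι) (f : ι → Matrix κ κ R) :
    (Dk (∑ i ∈ s, f i) : Matrix (Fin k → κ) (Fin k → κ) R) = ∑ i ∈ s, Dk (f i) := map_sum (DkL (k := k)) f s

theorem Dk_bracket (A B : Matrix κ κ R) :
    (Dk A : Matrix (Fin k → κ) (Fin k → κ) R) * Dk B - Dk B * Dk A = Dk (A * B - B * A) := by
  have h1 : ∀ A B : Matrix κ κ R, (Dk A : Matrix (Fin k → κ) (Fin k → κ) R) * Dk B =
      Dk (A * B) + ∑ i, ∑ j ∈ Finset.univ.erase i, Ds i A * Ds j B := by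
    intro A B
    rw [Dk, Dk, Dk, Finset.sum_mul, ← Finset.sum_add_distrib]
    refine Finset.sum_congr rfl fun i _ => ?_
    rw [Finset.mul_sum, ← Finset.add_sum_erase _ _ (Finset.mem_univ i), Ds_mul]
  rw [h1 A B, h1 B A, Dk_sub]
  have h2 : ∑ i, ∑ j ∈ Finset.univ.erase i, (Ds i A * Ds j B : Matrix (Fin k → κ) (Fin k → κ) R) =
      ∑ i, ∑ j ∈ Finset.univ.erase i, Ds i B * Ds j A := by
    have h3 : ∀ F : Fin k → Fin k → Matrix (Fin k → κ) (Fin k → κ) R, ∑ i, ∑ j ∈ Finset.univ.erase i, F i j =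
        ∑ i, ∑ j, if i = j then 0 else F i j := by
      intro F
      refine Finset.sum_congr rfl fun i _ => ?_
      rw [← Finset.add_sum_erase _ (fun j => if i = j then 0 else F i j) (Finset.mem_univ i), if_pos rfl, zero_add]
      refine Finset.sum_congr rfl fun j hj => ?_
      rw [if_neg (Finset.ne_of_mem_erase hj).symm]
    rw [h3, h3, Finset.sum_comm]
    refine Finset.sum_congr rfl fun i _ => Finset.sum_congr rfl fun j _ => ?_
    by_cases h : i = j
    · rw [if_pos h, if_pos h.symm]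
    · rw [if_neg h, if_neg (Ne.symm h), Ds_comm (Ne.symm h)]
  rw [h2]
  abel

theorem Dk_transpose (A : Matrix κ κ R) : (Dk A : Matrix (Fin k → κ) (Fin k → κ) R)ᵀ = Dk Aᵀ := by
  rw [Dk, Matrix.transpose_sum, Dk]
  refine Finset.sum_congr rfl fun i _ => ?_
  rw [Ds, Tw_transpose, Ds]
  congr 1
  funext j
  split_ifs <;> simp

theorem Dk_map {R' : Type*} [CommRing R'] (f : R →+* R') (A : Matrix κ κ R) :
    (Dk A : Matrix (Fin k → κ) (Fin k → κ) R).map f = Dk (A.map f) := by
  ext x y
  simp only [Dk, Matrix.map_apply, Matrix.sum_apply, map_sum]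
  refine Finset.sum_congr rfl fun i _ => ?_
  have h := congrFun (congrFun (Tw_map f (fun j => if j = i then A else (1 : Matrix κ κ R))) x) y
  rw [Matrix.map_apply] at h
  rw [Ds, Ds, h]
  simp only [Tw]
  refine Finset.prod_congr rfl fun j _ => ?_
  split_ifs
  · rfl
  · rw [Matrix.map_one _ (map_zero f) (map_one f)]

/-- the group action and the action of the Lie algebra -/
theorem Tg_Dk {g gi : Matrix κ κ R} (h : gi * g = 1) (A : Matrix κ κ R) :
    (Tg g : Matrix (Fin k → κ) (Fin k → κ) R) * Dk A = Dk (g * A * gi) * Tg g := by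
  rw [Dk, Dk, Finset.mul_sum, Finset.sum_mul]
  refine Finset.sum_congr rfl fun i _ => ?_
  rw [Tg, Ds, Ds, Tw_mul, Tw_mul]
  congr 1
  funext j
  by_cases hj : j = i
  · rw [if_pos hj, if_pos hj, mul_assoc, h, mul_one]
  · rw [if_neg hj, if_neg hj, mul_one, one_mul]

theorem Dk_mulVec (A : Matrix κ κ R) (v : (Fin k → κ) → R) (x : Fin k → κ) :
    ((Dk A : Matrix (Fin k → κ) (Fin k → κ) R) *ᵥ v) x = ∑ i, ∑ q, A (x i) q * v (Function.update x i q) := by
  rw [Dk, Matrix.sum_mulVec, Finset.sum_apply]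
  refine Finset.sum_congr rfl fun i _ => ?_
  rw [Matrix.mulVec, dotProduct]
  rw [← Finset.sum_subset (s₁ := Finset.univ.image fun q => Function.update x i q) (Finset.subset_univ _)]
  · rw [Finset.sum_image]
    · refine Finset.sum_congr rfl fun q _ => ?_
      rw [Ds_apply, Function.update_self, Finset.prod_eq_one, mul_one]
      intro j hj
      rw [Function.update_of_ne (Finset.ne_of_mem_erase hj), if_pos rfl]
    · intro q _ q' _ h
      have := congrFun h i
      simpa using this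
  · intro y _ hy
    have h1 : ∃ j, j ≠ i ∧ x j ≠ y j := by
      by_contra hcon
      push Not at hcon
      apply hy
      rw [Finset.mem_image]
      refine ⟨y i, Finset.mem_univ _, ?_⟩
      funext j
      by_cases hj : j = i
      · subst hj
        rw [Function.update_self]
      · rw [Function.update_of_ne hj, hcon j hj]
    obtain ⟨j, hj, hne⟩ := h1
    rw [Ds_apply, Finset.prod_eq_zero (Finset.mem_erase.2 ⟨hj, Finset.mem_univ j⟩) (if_neg hne), mul_zero, zero_mul]

theorem Dk_diagonal (d : κ → R) : (Dk (diagonal d) : Matrix (Fin k → κ) (Fin k → κ) R) =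
    diagonal fun x => ∑ i, d (x i) := by
  ext x y
  rw [Dk, Matrix.sum_apply, Matrix.diagonal_apply]
  by_cases h : x = y
  · subst h
    rw [if_pos rfl]
    refine Finset.sum_congr rfl fun i _ => ?_
    rw [Ds_apply, Matrix.diagonal_apply_eq]
    simp
  · rw [if_neg h]
    refine Finset.sum_eq_zero fun i _ => ?_
    rw [Ds_apply]
    obtain ⟨j, hj⟩ := Function.ne_iff.1 h
    by_cases hji : j = i
    · subst hji
      rw [Matrix.diagonal_apply_ne _ hj, zero_mul]
    · rw [Finset.prod_eq_zero (Finset.mem_erase.2 ⟨hji, Finset.mem_univ j⟩) (if_neg hj), mul_zero]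

end S524
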